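import Pool.Agent.Helper70.Sig

/-! Adjoining a set to a pointclass; the pointclass of c.e. relations; the function `J`. -/

namespace Pool.Agent.Helper70

open Encodable
open Nat.Partrec (Code)

namespace PC

variable {Γ : PC}
variable {α β γ : Type} [Primcodable α] [Primcodable β] [Primcodable γ]

/-- `Γ` relativized to `G`. -/
def adj (Γ : PC) (G : ℕ → Bool) : PC where
  S := fun {α} _ R => ∃ R' : α → (ℕ → Bool) → Prop, Γ.Sig R' ∧ ∀ a, R a ↔ R' a G
  prim := fun h => ⟨_, Sig.prim h, fun _ => Iff.rfl⟩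
  comp := fun ⟨R', h1, h2⟩ hf => ⟨_, Sig.comp h1 hf, fun _ => h2 _⟩
  and := fun ⟨R', h1, h2⟩ ⟨Q', h3, h4⟩ => ⟨_, Sig.and h1 h3, fun _ => by simp only [h2, h4]⟩
  or := fun ⟨R', h1, h2⟩ ⟨Q', h3, h4⟩ => ⟨_, Sig.or h1 h3, fun _ => by simp only [h2, h4]⟩
  ex := fun ⟨R', h1, h2⟩ => ⟨fun a X => ∃ b, R' (a, b) X, Sig.ex h1, fun _ => by simp only [h2]⟩
  ball := fun ⟨R', h1, h2⟩ => ⟨fun p X => ∀ i < p.2, R' (p.1, i) X,
    Sig.ball (R := fun p i X => R' (p.1, i) X) Primrec.snd
      (Sig.comp h1 ((Primrec.fst.comp Primrec.fst).pair Primrec.snd)), fun _ => by simp only [h2]⟩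
  nf := by
    intro α _ R ⟨R', ⟨V, hV, h1⟩, h2⟩
    obtain ⟨K, hK, hK', hKV⟩ := Γ.nf hV
    refine ⟨fun p => ∃ τk : List Bool × ℕ, decode (α := List Bool × ℕ) p.2 = some τk ∧
      (Pre τk.1 G ∧ K ((p.1, τk.1), τk.2)), ?_, ?_, ?_⟩
    · refine ⟨fun p X => ∃ τk : List Bool × ℕ, decode (α := List Bool × ℕ) p.2 = some τk ∧
        (Pre τk.1 X ∧ K ((p.1, τk.1), τk.2)), ?_, fun _ => Iff.rfl⟩
      refine Sig.ex (R := fun (p : α × ℕ) (τk : List Bool × ℕ) X =>
        decode (α := List Bool × ℕ) p.2 = some τk ∧ (Pre τk.1 X ∧ K ((p.1, τk.1), τk.2))) ?_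
      refine Sig.and (Sig.prim ?_) (Sig.and (Sig.pre ?_) (Sig.ofS ?_))
      · exact Primrec.eq.comp (Primrec.decode.comp (Primrec.snd.comp Primrec.fst))
          (Primrec.option_some.comp Primrec.snd)
      · exact Primrec.fst.comp Primrec.snd
      · exact Γ.comp (f := fun q : (α × ℕ) × (List Bool × ℕ) => ((q.1.1, q.2.1), q.2.2)) hK
          (((Primrec.fst.comp Primrec.fst).pair (Primrec.fst.comp Primrec.snd)).pair
            (Primrec.snd.comp Primrec.snd))
    · refine ⟨fun p X => decode (α := List Bool × ℕ) p.2 = none ∨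
        ∃ τk : List Bool × ℕ, decode (α := List Bool × ℕ) p.2 = some τk ∧
        (¬ Pre τk.1 X ∨ ¬ K ((p.1, τk.1), τk.2)), ?_, fun p => ?_⟩
      · refine Sig.or (Sig.prim ?_) ?_
        · exact Primrec.eq.comp (Primrec.decode.comp Primrec.snd) (Primrec.const none)
        refine Sig.ex (R := fun (p : α × ℕ) (τk : List Bool × ℕ) X =>
          decode (α := List Bool × ℕ) p.2 = some τk ∧
            (¬ Pre τk.1 X ∨ ¬ K ((p.1, τk.1), τk.2))) ?_
        refine Sig.and (Sig.prim ?_) (Sig.or (Sig.not_pre ?_) (Sig.ofS ?_))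
        · exact Primrec.eq.comp (Primrec.decode.comp (Primrec.snd.comp Primrec.fst))
            (Primrec.option_some.comp Primrec.snd)
        · exact Primrec.fst.comp Primrec.snd
        · exact Γ.comp (f := fun q : (α × ℕ) × (List Bool × ℕ) => ((q.1.1, q.2.1), q.2.2)) hK'
            (((Primrec.fst.comp Primrec.fst).pair (Primrec.fst.comp Primrec.snd)).pair
              (Primrec.snd.comp Primrec.snd))
      · beta_reduce
        generalize decode (α := List Bool × ℕ) p.2 = o
        rcases o with _ | τk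
        · exact ⟨fun _ => Or.inl rfl, fun _ ⟨τk, h, _⟩ => by cases h⟩
        · constructor
          · intro h
            refine Or.inr ⟨τk, rfl, ?_⟩
            by_contra hc
            push Not at hc
            exact h ⟨τk, rfl, hc⟩
          · rintro (h | ⟨τk', h, h'⟩)
            · cases h
            · cases h
              rintro ⟨τk'', h, h''⟩
              cases h
              rcases h' with h' | h'
              · exact h' h''.1
              · exact h' h''.2
    · intro a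
      rw [h2, h1]
      constructor
      · rintro ⟨τ, h3, h4⟩
        obtain ⟨k, hk⟩ := (hKV (a, τ)).1 h4
        exact ⟨encode (τ, k), (τ, k), by simp, h3, hk⟩
      · rintro ⟨s, ⟨τ, k⟩, _, h4, h5⟩
        exact ⟨τ, h4, (hKV (a, τ)).2 ⟨k, h5⟩⟩
  ctbl := by
    intro α _
    have := (Γ.ctbl (α × List Bool)).image (fun V => fun a => ∃ τ, Pre τ G ∧ V (a, τ))
    refine this.mono ?_
    rintro R ⟨R', ⟨V, hV, h1⟩, h2⟩
    refine ⟨V, hV, ?_⟩
    funext a
    exact propext ((h1 a G).symm.trans (h2 a).symm)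

theorem adj_S {G : ℕ → Bool} {R : α → Prop} (h : Γ.S R) : (Γ.adj G).S R :=
  ⟨_, Sig.ofS h, fun _ => Iff.rfl⟩

theorem adj_self (G : ℕ → Bool) : (Γ.adj G).S (fun p : ℕ × Bool => G p.1 = p.2) :=
  ⟨fun p X => X p.1 = p.2, Sig.bit Primrec.fst Primrec.snd, fun _ => Iff.rfl⟩

end PC

section re

variable {α β : Type} [Primcodable α] [Primcodable β]

theorem primrecPred_decode {K : α × β → Prop} (hK : PrimrecPred K) :
    PrimrecPred (fun p : α × ℕ => ∃ b, decode (α := β) p.2 = some b ∧ K (p.1, b)) := by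
  classical
  have h1 : Primrec (fun p : α × ℕ => (decode (α := β) p.2).casesOn false
      (fun b => decide (K (p.1, b))) : α × ℕ → Bool) := by
    refine Primrec.option_casesOn (Primrec.decode.comp Primrec.snd) (Primrec.const false) ?_
    exact hK.decide.comp ((Primrec.fst.comp Primrec.fst).pair Primrec.snd)
  have h2 : PrimrecPred (fun p : α × ℕ => ((decode (α := β) p.2).casesOn false
      (fun b => decide (K (p.1, b))) : Bool) = true) := Primrec.eq.comp h1 (Primrec.const true)
  refine h2.of_eq fun p => ?_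
  rcases decode (α := β) p.2 with _ | b <;> simp

theorem primrecPred_ball {K : α × ℕ → Prop} (hK : PrimrecPred K) :
    PrimrecPred (fun p : α × ℕ => ∀ i < p.2, K (p.1, i)) := by
  have h1 : PrimrecRel (fun (i : ℕ) (a : α) => K (a, i)) :=
    PrimrecPred.comp hK (Primrec.snd.pair Primrec.fst)
  exact (h1.forall_mem_list.comp (Primrec.list_range.comp Primrec.snd) Primrec.fst).of_eq
    (by simp)

theorem primrecPred_bex {K : α × ℕ → Prop} (hK : PrimrecPred K) :
    PrimrecPred (fun p : α × ℕ => ∃ i < p.2, K (p.1, i)) := by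
  have h1 : PrimrecRel (fun (i : ℕ) (a : α) => K (a, i)) :=
    PrimrecPred.comp hK (Primrec.snd.pair Primrec.fst)
  exact (h1.exists_mem_list.comp (Primrec.list_range.comp Primrec.snd) Primrec.fst).of_eq
    (by simp)

theorem primrecPred_countable : {K : β → Prop | PrimrecPred K}.Countable := by
  classical
  let F : Code → (β → Prop) := fun c b => encode true ∈ Code.eval c (encode b)
  refine (Set.countable_range F).mono ?_
  rintro K ⟨_, hK⟩
  obtain ⟨c, hc⟩ := Code.exists_code.1 (Primrec.to_comp hK)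
  refine ⟨c, ?_⟩
  funext b
  simp only [F, hc]
  by_cases h : K b <;> simp [h]

/-- The pointclass of c.e. relations. -/
def PC.re : PC where
  S := fun {α} _ R => ∃ K : α × ℕ → Prop, PrimrecPred K ∧ ∀ a, R a ↔ ∃ k, K (a, k)
  prim := fun {α} _ R h => ⟨fun p => R p.1, PrimrecPred.comp h Primrec.fst, fun a => by simp⟩
  comp := fun {α β} _ _ R f ⟨K, h1, h2⟩ hf => ⟨fun p => K (f p.1, p.2),
    PrimrecPred.comp (f := fun p : α × ℕ => (f p.1, p.2)) h1
      ((hf.comp Primrec.fst).pair Primrec.snd), fun a => h2 _⟩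
  and := fun {α} _ R Q ⟨K, h1, h2⟩ ⟨L, h3, h4⟩ => by
    refine ⟨fun p => K (p.1, p.2.unpair.1) ∧ L (p.1, p.2.unpair.2), PrimrecPred.and ?_ ?_,
      fun a => ?_⟩
    · exact PrimrecPred.comp (f := fun p : α × ℕ => (p.1, p.2.unpair.1)) h1
        (Primrec.fst.pair (Primrec.fst.comp (Primrec.unpair.comp Primrec.snd)))
    · exact PrimrecPred.comp (f := fun p : α × ℕ => (p.1, p.2.unpair.2)) h3
        (Primrec.fst.pair (Primrec.snd.comp (Primrec.unpair.comp Primrec.snd)))
    · simp only [h2, h4]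
      constructor
      · rintro ⟨⟨k, hk⟩, ⟨l, hl⟩⟩
        exact ⟨Nat.pair k l, by simpa using ⟨hk, hl⟩⟩
      · rintro ⟨s, hk, hl⟩
        exact ⟨⟨_, hk⟩, ⟨_, hl⟩⟩
  or := fun {α} _ R Q ⟨K, h1, h2⟩ ⟨L, h3, h4⟩ => by
    refine ⟨fun p => K p ∨ L p, PrimrecPred.or h1 h3, fun a => ?_⟩
    simp only [h2, h4, exists_or]
  ex := fun {α β} _ _ R ⟨K, h1, h2⟩ => by
    refine ⟨fun p => ∃ b : β × ℕ, decode (α := β × ℕ) p.2 = some b ∧ K ((p.1, b.1), b.2),
      ?_, fun a => ?_⟩
    · refine primrecPred_decode (K := fun q : α × (β × ℕ) => K ((q.1, q.2.1), q.2.2)) ?_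
      exact PrimrecPred.comp (f := fun q : α × (β × ℕ) => ((q.1, q.2.1), q.2.2)) h1
        ((Primrec.fst.pair (Primrec.fst.comp Primrec.snd)).pair (Primrec.snd.comp Primrec.snd))
    · constructor
      · rintro ⟨b, hb⟩
        obtain ⟨k, hk⟩ := (h2 (a, b)).1 hb
        exact ⟨encode (b, k), (b, k), by simp, hk⟩
      · rintro ⟨s, ⟨b, k⟩, _, hk⟩
        exact ⟨b, (h2 (a, b)).2 ⟨k, hk⟩⟩
  ball := fun {α} _ R ⟨K, h1, h2⟩ => by
    refine ⟨fun p => ∀ i < p.1.2, ∃ k < p.2, K ((p.1.1, i), k), ?_, fun p => ?_⟩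
    · have h3 : PrimrecPred (fun p : (α × ℕ) × ℕ => ∃ k < p.2, K (p.1, k)) := primrecPred_bex h1
      have h4 : PrimrecPred (fun p : (α × ℕ) × ℕ => ∃ k < p.1.2, K ((p.1.1, p.2), k)) :=
        PrimrecPred.comp (f := fun p : (α × ℕ) × ℕ => ((p.1.1, p.2), p.1.2)) h3
          (((Primrec.fst.comp Primrec.fst).pair Primrec.snd).pair (Primrec.snd.comp Primrec.fst))
      have h5 := primrecPred_ball h4
      exact (PrimrecPred.comp (f := fun p : (α × ℕ) × ℕ => ((p.1.1, p.2), p.1.2)) h5
        (((Primrec.fst.comp Primrec.fst).pair Primrec.snd).pair (Primrec.snd.comp Primrec.fst)))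
    · obtain ⟨a, n⟩ := p
      constructor
      · intro H
        have H' : ∀ i, ∃ k, i < n → K ((a, i), k) := by
          intro i
          by_cases hi : i < n
          · obtain ⟨k, hk⟩ := (h2 (a, i)).1 (H i hi)
            exact ⟨k, fun _ => hk⟩
          · exact ⟨0, fun h => absurd h hi⟩
        choose k hk using H'
        refine ⟨(Finset.range n).sup k + 1, fun i hi => ⟨k i, ?_, hk i hi⟩⟩
        exact Nat.lt_succ_of_le (Finset.le_sup (f := k) (Finset.mem_range.2 hi))
      · rintro ⟨N, hN⟩ i hi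
        obtain ⟨k, _, hk⟩ := hN i hi
        exact (h2 (a, i)).2 ⟨k, hk⟩
  nf := fun {α} _ R ⟨K, h1, h2⟩ => by
    refine ⟨K, ⟨fun p => K p.1, PrimrecPred.comp h1 Primrec.fst, fun a => by simp⟩,
      ⟨fun p => ¬ K p.1, (PrimrecPred.comp h1 Primrec.fst).not, fun a => by simp⟩, h2⟩
  ctbl := by
    intro α _
    refine ((primrecPred_countable (β := α × ℕ)).image
      (fun K => fun a => ∃ k, K (a, k))).mono ?_
    rintro R ⟨K, h1, h2⟩
    exact ⟨K, h1, funext fun a => propext (h2 a).symm⟩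

end re

/-- Computable approximation of `J`. -/
def JK (n : ℕ) (b : Bool) (k : ℕ) : Prop :=
  encode (!b) ∈ Code.evaln k (Denumerable.ofNat Code n) n

/-- A computable partially defined `{0,1}`-valued function with no total computable extension. -/
def J (n : ℕ) (b : Bool) : Prop := ∃ k, JK n b k

theorem JK_mono {n : ℕ} {b : Bool} {k l : ℕ} (h : JK n b k) (hkl : k ≤ l) : JK n b l :=
  Code.evaln_mono hkl h

theorem primrec_JK : PrimrecPred (fun p : (ℕ × Bool) × ℕ => JK p.1.1 p.1.2 p.2) := by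
  have h1 : Primrec (fun p : (ℕ × Bool) × ℕ =>
      Code.evaln p.2 (Denumerable.ofNat Code p.1.1) p.1.1) := by
    refine Code.primrec_evaln.comp ((Primrec.snd.pair ((Primrec.ofNat Code).comp
      (Primrec.fst.comp Primrec.fst))).pair (Primrec.fst.comp Primrec.fst))
  have h2 : Primrec (fun p : (ℕ × Bool) × ℕ => some (encode (!p.1.2))) :=
    Primrec.option_some.comp (Primrec.encode.comp (Primrec.not.comp
      (Primrec.snd.comp Primrec.fst)))
  exact (Primrec.eq.comp h1 h2).of_eq fun p => Iff.rfl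

theorem J_re (Γ : PC) : Γ.S (fun p : ℕ × Bool => J p.1 p.2) :=
  PC.ex' (R := fun (p : ℕ × Bool) (k : ℕ) => JK p.1 p.2 k) (Γ.prim primrec_JK)

theorem J_unique {n : ℕ} {b b' : Bool} (h : J n b) (h' : J n b') : b = b' := by
  obtain ⟨k, hk⟩ := h
  obtain ⟨l, hl⟩ := h'
  have h1 := Code.evaln_sound hk
  have h2 := Code.evaln_sound hl
  have := Part.mem_unique h1 h2
  have := Encodable.encode_injective this
  revert this; cases b <;> cases b' <;> simp

/-- `Γ` computes no total `{0,1}`-valued extension of `J`. -/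
def Good (Γ : PC) : Prop :=
  ¬ ∃ h : ℕ → Bool, Γ.S (fun p : ℕ × Bool => h p.1 = p.2) ∧ ∀ n b, J n b → h n = b

theorem good_re : Good PC.re := by
  classical
  rintro ⟨h, ⟨K, hK, hKh⟩, hJ⟩
  have h1 : Computable₂ (fun (n : ℕ) (s : ℕ) => ((decode (α := Bool × ℕ) s).bind
      (fun q => if K ((n, q.1), q.2) then some q.1 else none) : Option Bool)) := by
    apply Primrec₂.to_comp
    refine Primrec.option_bind (Primrec.decode.comp Primrec.snd) ?_
    refine Primrec.ite ?_ (Primrec.option_some.comp (Primrec.fst.comp Primrec.snd))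
      (Primrec.const none)
    exact PrimrecPred.comp (f := fun q : (ℕ × ℕ) × (Bool × ℕ) => ((q.1.1, q.2.1), q.2.2)) hK
      (((Primrec.fst.comp Primrec.fst).pair (Primrec.fst.comp Primrec.snd)).pair
        (Primrec.snd.comp Primrec.snd))
  have h2 := Partrec.rfindOpt h1
  have h3 : Computable h := by
    refine h2.of_eq_tot fun n => ?_
    have hdom : (Nat.rfindOpt (fun s => ((decode (α := Bool × ℕ) s).bind
      (fun q => if K ((n, q.1), q.2) then some q.1 else none) : Option Bool))).Dom := by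
      rw [Nat.rfindOpt_dom]
      obtain ⟨k, hk⟩ := (hKh (n, h n)).1 rfl
      exact ⟨encode (h n, k), h n, by simp [hk]⟩
    obtain ⟨b, hb⟩ := Part.dom_iff_mem.1 hdom
    obtain ⟨s, hs⟩ := Nat.rfindOpt_spec hb
    have : h n = b := by
      rcases hd : decode (α := Bool × ℕ) s with _ | ⟨b', k⟩
      · rw [hd] at hs; simp at hs
      · rw [hd] at hs
        simp only [Option.bind_some, Option.mem_def] at hs
        split_ifs at hs with hk
        obtain rfl : b' = b := by simpa using hs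
        exact (hKh (n, b')).2 ⟨k, hk⟩
    rw [this]; exact hb
  obtain ⟨c, hc⟩ := Code.exists_code.1 h3
  have h4 : encode (h (encode c)) ∈ Code.eval c (encode c) := by
    rw [hc]; simp
  obtain ⟨k, hk⟩ := Code.evaln_complete.1 h4
  have h5 : J (encode c) (!h (encode c)) := by
    refine ⟨k, ?_⟩
    simp only [JK, Denumerable.ofNat_encode, Bool.not_not]
    exact hk
  have := hJ _ _ h5
  cases hh : h (encode c) <;> simp [hh] at this

end Pool.Agent.Helper70
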