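import Pool.Agent.Helper70.Strong3

/-! Blocks and the associated notion of largeness. -/

namespace Pool.Agent.Helper70

open Encodable

section blocks

variable {k : ℕ}

/-- `B` lists a nonempty finite set above `N`, homogeneous of colour `c`, and of size at
least `ψ w` for some upper bound `w`. -/
def Blk (f : ℕ → ℕ → Fin k) (ψ : ℕ → ℕ) (c : Fin k) (N : ℕ) (B : List ℕ) : Prop :=
  B ≠ [] ∧ B.Pairwise (· < ·) ∧ (∃ w, (∀ x ∈ B, x ≤ w) ∧ ψ w ≤ B.length) ∧ (∀ x ∈ B, N ≤ x) ∧
  ∀ x ∈ B, ∀ y ∈ B, x < y → f x y = c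

theorem Blk.mono {f : ℕ → ℕ → Fin k} {ψ : ℕ → ℕ} {c : Fin k} {N M : ℕ} {B : List ℕ}
    (h : Blk f ψ c N B) (hMN : M ≤ N) : Blk f ψ c M B :=
  ⟨h.1, h.2.1, h.2.2.1, fun x hx => hMN.trans (h.2.2.2.1 x hx), h.2.2.2.2⟩

/-- every cover of `l` by `K` sets has a member containing a block above `N` -/
def FF (f : ℕ → ℕ → Fin k) (ψ : ℕ → ℕ) (c : Fin k) (j : ℕ) (l : List ℕ) : Prop :=
  ∀ X : ℕ → Bool, (∃ n, n ∈ l ∧ ∀ ν < j.unpair.1, X (Nat.pair ν n) = false) ∨
    ∃ ν, ν < j.unpair.1 ∧ ∃ B : List ℕ, (∀ x ∈ B, x ∈ l) ∧ (∀ x ∈ B, X (Nat.pair ν x) = true) ∧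
      Blk f ψ c j.unpair.2 B

/-- largeness with respect to blocks -/
def LB (f : ℕ → ℕ → Fin k) (ψ : ℕ → ℕ) (c : Fin k) : LF where
  F := FF f ψ c
  reg := by
    classical
    intro X Y h
    by_contra hcon
    push Not at hcon
    obtain ⟨⟨j1, h1⟩, ⟨j2, h2⟩⟩ := hcon
    obtain ⟨l, hl, hlXY⟩ := h (Nat.pair (j1.unpair.1 + j2.unpair.1) (max j1.unpair.2 j2.unpair.2))
    have h1' : ¬ FF f ψ c j1 (l.filter (· ∈ X)) := fun hF => by
      obtain ⟨n, hn1, hn2⟩ := h1 _ hF
      exact hn2 (by simpa using (List.mem_filter.1 hn1).2)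
    have h2' : ¬ FF f ψ c j2 (l.filter (· ∉ X)) := fun hF => by
      obtain ⟨n, hn1, hn2⟩ := h2 _ hF
      have h3 := List.mem_filter.1 hn1
      rcases hlXY n h3.1 with h4 | h4
      · exact absurd h4 (by simpa using h3.2)
      · exact hn2 h4
    unfold FF at h1' h2'
    push Not at h1' h2'
    obtain ⟨U, hU1, hU2⟩ := h1'
    obtain ⟨V, hV1, hV2⟩ := h2'
    let W : ℕ → Bool := fun a =>
      if a.unpair.1 < j1.unpair.1 then decide (a.unpair.2 ∈ X) && U a
      else decide (a.unpair.2 ∉ X) && V (Nat.pair (a.unpair.1 - j1.unpair.1) a.unpair.2)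
    have hW1 : ∀ ν n, ν < j1.unpair.1 → W (Nat.pair ν n) = (decide (n ∈ X) && U (Nat.pair ν n)) := by
      intro ν n hν
      simp only [W, Nat.unpair_pair, if_pos hν]
    have hW2 : ∀ ν n, ¬ ν < j1.unpair.1 → W (Nat.pair ν n) =
        (decide (n ∉ X) && V (Nat.pair (ν - j1.unpair.1) n)) := by
      intro ν n hν
      simp only [W, Nat.unpair_pair, if_neg hν]
    rcases hl W with ⟨n, hn, hnW⟩ | ⟨ν, hν, B, hB1, hB2, hB3⟩
    · simp only [Nat.unpair_pair] at hnW
      by_cases hX : n ∈ X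
      · obtain ⟨ν, hν, hν'⟩ := hU1 n (List.mem_filter.2 ⟨hn, by simpa using hX⟩)
        have := hnW ν (by omega)
        rw [hW1 ν n hν] at this
        simp [hX] at this
        exact hν' this
      · obtain ⟨ν, hν, hν'⟩ := hV1 n (List.mem_filter.2 ⟨hn, by simpa using hX⟩)
        have := hnW (j1.unpair.1 + ν) (by omega)
        rw [hW2 _ n (by omega)] at this
        simp [hX] at this
        exact hν' this
    · simp only [Nat.unpair_pair] at hν hB3
      by_cases hlt : ν < j1.unpair.1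
      · have hBX : ∀ x ∈ B, x ∈ X ∧ U (Nat.pair ν x) = true := by
          intro x hx
          have := hB2 x hx
          rw [hW1 _ _ hlt] at this
          simpa using this
        exact hU2 ν hlt B (fun x hx => List.mem_filter.2 ⟨hB1 x hx, by simpa using (hBX x hx).1⟩)
          (fun x hx => (hBX x hx).2) (hB3.mono (le_max_left _ _))
      · have hBX : ∀ x ∈ B, x ∉ X ∧ V (Nat.pair (ν - j1.unpair.1) x) = true := by
          intro x hx
          have := hB2 x hx
          rw [hW2 _ _ hlt] at this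
          simpa using this
        exact hV2 (ν - j1.unpair.1) (by omega) B
          (fun x hx => List.mem_filter.2 ⟨hB1 x hx, by simpa using (hBX x hx).1⟩)
          (fun x hx => (hBX x hx).2) (hB3.mono (le_max_right _ _))
  nofin := by
    intro N h
    obtain ⟨l, hl, hlN⟩ := h (Nat.pair 1 N)
    rcases hl (fun _ => true) with ⟨n, hn, h1⟩ | ⟨ν, hν, B, hB1, _, hB3⟩
    · simp only [Nat.unpair_pair] at h1
      have := h1 0 (by omega)
      simp at this
    · simp only [Nat.unpair_pair] at hB3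
      obtain ⟨x, hx⟩ := List.exists_mem_of_ne_nil _ hB3.1
      have h1 := hB3.2.2.2.1 x hx
      have h2 := hlN x (hB1 x hx)
      omega

/-- large sets contain blocks -/
theorem exists_blk {f : ℕ → ℕ → Fin k} {ψ : ℕ → ℕ} {c : Fin k} {X : Set ℕ}
    (h : (LB f ψ c).Large X) (N : ℕ) : ∃ B, Blk f ψ c N B ∧ ∀ x ∈ B, x ∈ X := by
  obtain ⟨l, hl, hlX⟩ := h (Nat.pair 1 N)
  rcases hl (fun _ => true) with ⟨n, hn, h1⟩ | ⟨ν, hν, B, hB1, _, hB3⟩
  · simp only [Nat.unpair_pair] at h1
    have := h1 0 (by omega)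
    simp at this
  · simp only [Nat.unpair_pair] at hB3
    exact ⟨B, hB3, fun x hx => hlX x (hB1 x hx)⟩

/-- The arrow relation `w → (m)^2_k` (colourings of increasing pairs). -/
def Arrow (w m k : ℕ) : Prop :=
  ∀ X : Finset ℕ, X.card = w → ∀ f : ℕ → ℕ → Fin k, ∃ H ⊆ X, H.card = m ∧
    ∀ x ∈ H, ∀ y ∈ H, ∀ x' ∈ H, ∀ y' ∈ H, x < y → x' < y' → f x y = f x' y'

theorem large_univ_one (f : ℕ → ℕ → Fin k) (c : Fin k) : (LB f (fun _ => 1) c).Large Set.univ := by
  intro j
  refine ⟨[j.unpair.2], fun X => ?_, by simp⟩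
  by_cases h : ∀ ν < j.unpair.1, X (Nat.pair ν j.unpair.2) = false
  · exact Or.inl ⟨j.unpair.2, by simp, h⟩
  · push Not at h
    obtain ⟨ν, hν, h⟩ := h
    refine Or.inr ⟨ν, hν, [j.unpair.2], by simp, by simpa using h, by simp, by simp,
      ⟨j.unpair.2, by simp⟩, by simp, by simp⟩

theorem large_univ (f : ℕ → ℕ → Fin k) (φ : ℕ → ℕ) (hφ : ∀ w, Arrow w (φ w) (k + 1))
    (hlim : ∀ M, ∃ w, M < φ w) : ∃ c, (LB f φ c).Large Set.univ := by
  classical
  by_contra hcon
  have hcon' : ∀ c, ∃ j, ∀ l, ¬ FF f φ c j l := by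
    intro c
    by_contra h
    push Not at h
    exact hcon ⟨c, fun j => by
      obtain ⟨l, hl⟩ := h j
      exact ⟨l, hl, fun _ _ => trivial⟩⟩
  choose j hj using hcon'
  let N := (Finset.univ : Finset (Fin k)).sup (fun c => (j c).unpair.2)
  let KK := (Finset.univ : Finset (Fin k)).sup (fun c => (j c).unpair.1)
  obtain ⟨w, hw⟩ := hlim ((KK + 1) ^ k + N + 1)
  let l := (List.range (w + 1))
  have hU : ∀ c, ∃ U : ℕ → Bool, (∀ n ∈ l, ∃ ν < (j c).unpair.1, U (Nat.pair ν n) = true) ∧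
      ∀ ν < (j c).unpair.1, ∀ B : List ℕ, (∀ x ∈ B, x ∈ l) → (∀ x ∈ B, U (Nat.pair ν x) = true) →
        ¬ Blk f φ c (j c).unpair.2 B := by
    intro c
    have := hj c l
    unfold FF at this
    push Not at this
    obtain ⟨U, h1, h2⟩ := this
    exact ⟨U, fun n hn => by
      obtain ⟨ν, hν, h⟩ := h1 n hn
      exact ⟨ν, hν, by simpa using h⟩, h2⟩
  choose U hU1 hU2 using hU
  -- classes
  have hcl : ∀ (n : ℕ) (c : Fin k), ∃ ν : Fin (KK + 1), n ∈ l → (ν : ℕ) < (j c).unpair.1 ∧
      U c (Nat.pair ν n) = true := by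
    intro n c
    by_cases hn : n ∈ l
    · obtain ⟨ν, hν, h⟩ := hU1 c n hn
      have : (j c).unpair.1 ≤ KK := Finset.le_sup (f := fun c => (j c).unpair.1)
        (Finset.mem_univ c)
      exact ⟨⟨ν, by omega⟩, fun _ => ⟨hν, h⟩⟩
    · exact ⟨0, fun h => absurd h hn⟩
  choose χ hχ using hcl
  let g : ℕ → ℕ → Fin (k + 1) := fun x y =>
    if N ≤ x ∧ N ≤ y ∧ χ x = χ y then (f x y).castSucc else Fin.last k
  obtain ⟨H, hHX, hHc, hH⟩ := hφ w (Finset.Icc 1 w) (by simp) g
  have hcard : 1 < H.card := by omega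
  obtain ⟨a, ha, b, hb, hab⟩ := Finset.one_lt_card.1 hcard
  obtain ⟨a, ha, b, hb, hab⟩ : ∃ a ∈ H, ∃ b ∈ H, a < b := by
    rcases lt_or_gt_of_ne hab with h | h
    · exact ⟨a, ha, b, hb, h⟩
    · exact ⟨b, hb, a, ha, h⟩
  have hlH : ∀ x ∈ H, x ∈ l := by
    intro x hx
    have := Finset.mem_Icc.1 (hHX hx)
    exact List.mem_range.2 (by omega)
  by_cases hg : g a b = Fin.last k
  · -- all elements lie in different classes or are small
    have h1 : ∀ x ∈ H, ∀ y ∈ H, x < y → g x y = Fin.last k := fun x hx y hy hxy =>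
      (hH x hx y hy a ha b hb hxy hab).trans hg
    have hcast : ∀ u : Fin k, u.castSucc ≠ Fin.last k := fun u => (Fin.castSucc_lt_last u).ne
    have h2 : Set.InjOn χ (H.filter (N ≤ ·)) := by
      intro x hx y hy hxy
      have hx' := Finset.mem_filter.1 (Finset.mem_coe.1 hx)
      have hy' := Finset.mem_filter.1 (Finset.mem_coe.1 hy)
      by_contra hne
      rcases lt_or_gt_of_ne hne with h | h
      · have := h1 x hx'.1 y hy'.1 h
        simp only [g, hx'.2, hy'.2, hxy, and_self, if_true] at this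
        exact hcast _ this
      · have := h1 y hy'.1 x hx'.1 h
        simp only [g, hx'.2, hy'.2, hxy, and_self, if_true] at this
        exact hcast _ this
    have h3 : (H.filter (N ≤ ·)).card ≤ (KK + 1) ^ k := by
      have := Finset.card_le_card_of_injOn (t := Finset.univ) χ (fun _ _ => by simp) h2
      simpa using this
    have h4 : (H.filter (¬ N ≤ ·)).card ≤ N := by
      have : H.filter (¬ N ≤ ·) ⊆ Finset.range N := by
        intro x hx
        have := (Finset.mem_filter.1 hx).2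
        exact Finset.mem_range.2 (by omega)
      simpa using Finset.card_le_card this
    have h5 := Finset.card_filter_add_card_filter_not (s := H) (N ≤ ·)
    omega
  · -- a block
    have hgab : N ≤ a ∧ N ≤ b ∧ χ a = χ b := by
      by_contra h
      exact hg (if_neg h)
    have hval : g a b = (f a b).castSucc := if_pos hgab
    have h1 : ∀ x ∈ H, ∀ y ∈ H, x < y → (N ≤ x ∧ N ≤ y ∧ χ x = χ y) ∧ f x y = f a b := by
      intro x hx y hy hxy
      have h2 := hH x hx y hy a ha b hb hxy hab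
      have h3 : N ≤ x ∧ N ≤ y ∧ χ x = χ y := by
        by_contra h
        have : g x y = Fin.last k := if_neg h
        rw [this] at h2
        exact hg h2.symm
      refine ⟨h3, ?_⟩
      have h4 : g x y = (f x y).castSucc := if_pos h3
      rw [h4, hval] at h2
      exact Fin.castSucc_injective k h2
    have h2 : ∀ x ∈ H, N ≤ x ∧ χ x = χ a := by
      intro x hx
      rcases lt_trichotomy x a with h | h | h
      · have := h1 x hx a ha h
        exact ⟨this.1.1, this.1.2.2⟩
      · subst h; exact ⟨hgab.1, rfl⟩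
      · have := h1 a ha x hx h
        exact ⟨this.1.2.1, this.1.2.2.symm⟩
    let c := f a b
    refine hU2 c (χ a c) ?_ (H.sort (· ≤ ·)) ?_ ?_ ?_
    · exact (hχ a c (hlH a ha)).1
    · intro x hx
      exact hlH x ((Finset.mem_sort _).1 hx)
    · intro x hx
      have hx' := (Finset.mem_sort _).1 hx
      rw [← (h2 x hx').2]
      exact (hχ x c (hlH x hx')).2
    · refine ⟨?_, ?_, ⟨w, ?_, ?_⟩, ?_, ?_⟩
      · intro h
        have := congrArg List.length h
        rw [Finset.length_sort] at this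
        simp at this
        rw [this] at ha; simp at ha
      · exact Finset.sortedLT_sort H |>.pairwise
      · intro x hx
        have hx' := (Finset.mem_sort _).1 hx
        exact (Finset.mem_Icc.1 (hHX hx')).2
      · rw [Finset.length_sort, hHc]
      · intro x hx
        have hx' := (Finset.mem_sort _).1 hx
        have : (j c).unpair.2 ≤ N := Finset.le_sup (f := fun c => (j c).unpair.2)
          (Finset.mem_univ c)
        exact this.trans (h2 x hx').1
      · intro x hx y hy hxy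
        exact (h1 x ((Finset.mem_sort _).1 hx) y ((Finset.mem_sort _).1 hy) hxy).2

end blocks

end Pool.Agent.Helper70
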