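import Pool.Agent.Helper70.Force

/-! Large cohesive sets which do not compute an extension of `J`. -/

namespace Pool.Agent.Helper70

open Encodable

theorem good_of_forced {Γ : PC} {G : ℕ → Bool}
    (h : ∀ V : (ℕ × Bool) × List Bool → Prop, Γ.S V →
      (∃ n b, J n b ∧ ∃ τ, Pre τ G ∧ V ((n, !b), τ)) ∨
      (∃ n, ∀ b τ, Pre τ G → ¬ V ((n, b), τ))) : Good (Γ.adj G) := by
  rintro ⟨g, ⟨R', ⟨V, hV, h1⟩, h2⟩, hJ⟩
  rcases h V hV with ⟨n, b, hb, τ, h3, h4⟩ | ⟨n, hn⟩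
  · have : g n = !b := (h2 (n, !b)).2 ((h1 _ _).2 ⟨τ, h3, h4⟩)
    rw [hJ n b hb] at this
    cases b <;> simp at this
  · obtain ⟨τ, h3, h4⟩ := (h1 _ _).1 ((h2 (n, g n)).1 rfl)
    exact hn _ _ h3 h4

theorem exists_cohesive {Γ : PC} (hΓ : Good Γ) (L : LF) (hL : L.Large Set.univ) {k : ℕ}
    (f : ℕ → ℕ → Fin k) (hf : Γ.S (fun p : (ℕ × ℕ) × Fin k => f p.1.1 p.1.2 = p.2)) :
    ∃ C : ℕ → Bool, L.Large {n | C n = true} ∧
      (∀ x, ∃ c : Fin k, ∃ N, ∀ y, N ≤ y → C y = true → f x y = c) ∧ Good (Γ.adj C) := by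
  classical
  let Cn := List Bool × Set ℕ
  let le : Cn → Cn → Prop := fun d c => Ext c.1 d.1 c.2 ∧ d.2 ⊆ c.2
  let T := ℕ ⊕ ℕ ⊕ {V : (ℕ × Bool) × List Bool → Prop // Γ.S V}
  have : Countable {V : (ℕ × Bool) × List Bool → Prop // Γ.S V} :=
    (Γ.ctbl ((ℕ × Bool) × List Bool)).to_subtype
  let D : T → Cn → Prop := fun t c => match t with
    | Sum.inl j => (∃ l, L.F j l ∧ ∀ n ∈ l, c.1[n]? = some true) ∧ j ≤ c.1.length
    | Sum.inr (Sum.inl x) => ∃ i : Fin k, ∀ y ∈ c.2, f x y = i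
    | Sum.inr (Sum.inr V) => (∃ n b, J n b ∧ ∃ τ, τ <+: c.1 ∧ V.1 ((n, !b), τ)) ∨
        (∃ n, ∀ b τ, Ext c.1 τ c.2 → ∀ τ', τ' <+: τ → ¬ V.1 ((n, b), τ'))
  let P : Cn → Prop := fun c => True
  let Q : Cn → Prop := fun c => L.Large c.2 ∧ Γ.S (fun n => n ∈ c.2)
  have hD : ∀ t c, Q c → ∃ d, le d c ∧ D t d ∧ Q d := by
    rintro (j | x | ⟨V, hV⟩) ⟨σ, X⟩ ⟨h1, h2⟩
    · -- add a large piece
      obtain ⟨l, hl1, hl2⟩ := (h1.tail σ.length) j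
      obtain ⟨τ, ht1, ht2, ht3⟩ := exists_ext σ l (fun n hn => (hl2 n hn).2) j
      exact ⟨(τ, X), ⟨ht1.mono fun n hn => (hl2 n hn).1, subset_rfl⟩,
        ⟨⟨l, hl1, ht2⟩, ht3⟩, h1, h2⟩
    · obtain ⟨i, hi⟩ := h1.finite_union (Y := fun i : Fin k => {y | y ∈ X ∧ f x y = i})
        (fun n hn => ⟨f x n, hn, rfl⟩)
      refine ⟨(σ, {y | y ∈ X ∧ f x y = i}), ⟨Ext.refl _ _, fun y hy => hy.1⟩,
        ⟨i, fun y hy => hy.2⟩, hi, Γ.and h2 ?_⟩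
      exact Γ.comp (f := fun y : ℕ => ((x, y), i)) hf
        (((Primrec.const x).pair Primrec.id).pair (Primrec.const i))
    · by_contra hcon
      push Not at hcon
      have hno : ∀ τ, Ext σ τ X → ¬ D (Sum.inr (Sum.inr ⟨V, hV⟩)) (τ, X) := by
        intro τ hτ hd
        exact hcon (τ, X) ⟨hτ, subset_rfl⟩ hd ⟨h1, h2⟩
      have h3 : ∀ τ, Ext σ τ X → ∀ n b, J n b → ∀ τ', τ' <+: τ → ¬ V ((n, !b), τ') := by
        intro τ hτ n b hb τ' hτ' hv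
        exact hno τ hτ (Or.inl ⟨n, b, hb, τ', hτ', hv⟩)
      have h4 : ∀ n, ∃ b τ, Ext σ τ X ∧ ∃ τ', τ' <+: τ ∧ V ((n, b), τ') := by
        intro n
        by_contra hc
        push Not at hc
        exact hno σ (Ext.refl _ _) (Or.inr ⟨n, hc⟩)
      have hS : Γ.S (fun p : ℕ × Bool => ∃ τ, Ext σ τ X ∧ ∃ τ', τ' <+: τ ∧
          V ((p.1, p.2), τ')) := by
        refine PC.ex' (R := fun (p : ℕ × Bool) τ => Ext σ τ X ∧ ∃ τ', τ' <+: τ ∧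
          V ((p.1, p.2), τ')) ?_
        refine Γ.and ?_ ?_
        · refine PC.Sig.toS (R := fun p : (ℕ × Bool) × List Bool => Ext σ p.2 X) ?_
          refine PC.Sig.ext (f := fun _ => σ) (g := fun p : (ℕ × Bool) × List Bool => p.2)
            (X := fun _ _ => X) (Primrec.const σ) Primrec.snd ?_
          exact PC.Sig.ofS (Γ.comp h2 Primrec.snd)
        · exact Γ.comp (f := fun p : (ℕ × Bool) × List Bool => p) (PC.Sig.up hV) Primrec.id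
      obtain ⟨g, hg1, hg2⟩ := PC.unif (R := fun (n : ℕ) (b : Bool) =>
        ∃ τ, Ext σ τ X ∧ ∃ τ', τ' <+: τ ∧ V ((n, b), τ')) hS h4
      refine hΓ ⟨g, hg1, fun n b hb => ?_⟩
      obtain ⟨τ, h5, τ', h6, h7⟩ := hg2 n
      have : g n ≠ !b := by
        intro he
        rw [he] at h7
        exact h3 τ h5 n b hb τ' h6 h7
      revert this; cases g n <;> cases b <;> simp
  obtain ⟨c, hc0, hc1, hc2, hc3⟩ := generic (C := {c : Cn // Q c}) (T := T)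
    (fun d c => le d.1 c.1) (fun c => ⟨Ext.refl _ _, subset_rfl⟩) (fun t c => D t c.1)
    (fun _ => True) (fun _ _ _ _ => trivial)
    (fun t c _ => by
      obtain ⟨d, h1, h2, h3⟩ := hD t c.1 c.2
      exact ⟨⟨d, h3⟩, h1, h2⟩)
    ⟨([], Set.univ), hL, PC.of_eq (PC.const Γ True) (by simp)⟩ trivial
  have hle : ∀ {n m}, n ≤ m → le (c m).1 (c n).1 := by
    intro n m hnm
    induction hnm with
    | refl => exact ⟨Ext.refl _ _, subset_rfl⟩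
    | step _ ih => exact ⟨ih.1.trans (hc1 _).1 ih.2, (hc1 _).2.trans ih.2⟩
  obtain ⟨G, hG⟩ := exists_limit (fun n => (c n).1.1) (fun n => (hc1 n).1.1)
  -- long strings
  have hlong : ∀ n N, ∃ m, n ≤ m ∧ N ≤ (c m).1.1.length := by
    intro n N
    obtain ⟨m, hm⟩ := hc3 (Sum.inl N)
    refine ⟨max n m, le_max_left _ _, hm.2.trans ?_⟩
    exact (hle (le_max_right n m)).1.1.length_le
  have hres : ∀ n, ∀ τ, Pre τ G → ∃ ρ, Ext (c n).1.1 ρ (c n).1.2 ∧ τ <+: ρ := by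
    intro n τ hτ
    obtain ⟨m, hm1, hm2⟩ := hlong n τ.length
    exact ⟨(c m).1.1, (hle hm1).1, hτ.comparable (hG m) hm2⟩
  have hmem : ∀ n y, (c n).1.1.length ≤ y → G y = true → y ∈ (c n).1.2 := by
    intro n y hy hGy
    obtain ⟨ρ, h1, h2⟩ := hres n (res G (y + 1)) (pre_res _ _)
    refine h1.2 y hy (getElem?_some_of_prefix h2 ?_)
    rw [getElem?_res]; simp [hGy]
  refine ⟨G, ?_, ?_, ?_⟩
  · intro j
    obtain ⟨n, ⟨l, h1, h2⟩, _⟩ := hc3 (Sum.inl j)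
    exact ⟨l, h1, fun i hi => hG n i _ (h2 i hi)⟩
  · intro x
    obtain ⟨n, i, hi⟩ := hc3 (Sum.inr (Sum.inl x))
    exact ⟨i, _, fun y hy hGy => hi y (hmem n y hy hGy)⟩
  · refine good_of_forced fun V hV => ?_
    obtain ⟨n, hn⟩ := hc3 (Sum.inr (Sum.inr ⟨V, hV⟩))
    rcases hn with ⟨m, b, hb, τ, h1, h2⟩ | ⟨m, hm⟩
    · exact Or.inl ⟨m, b, hb, τ, (hG n).mono h1, h2⟩
    · refine Or.inr ⟨m, fun b τ hτ => ?_⟩
      obtain ⟨ρ, h1, h2⟩ := hres n τ hτ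
      exact hm b ρ h1 τ h2

end Pool.Agent.Helper70
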