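import Pool.Agent.Helper70.Base

/-! Forcing preliminaries: the valuation lemma, string extensions, large sets, generic sequences. -/

namespace Pool.Agent.Helper70

open Encodable

section val

/-- Liu's valuation lemma. -/
theorem val_list {Γ : PC} (hΓ : Good Γ) {W : List (ℕ × Bool) → Prop} (hW : Γ.S W)
    (hJ : ∀ p, W p → ¬ ∀ e ∈ p, J e.1 e.2) (K : ℕ) :
    ∃ F : List ℕ, F.length = K ∧ ∀ r : List (ℕ × Bool), r.map Prod.fst = F →
      ∀ q : List (ℕ × Bool), (∀ e ∈ q, J e.1 e.2) → ¬ W (r ++ q) := by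
  induction K with
  | zero =>
    refine ⟨[], rfl, fun r hr q hq hWq => ?_⟩
    have : r = [] := by simpa using hr
    subst this
    exact hJ _ hWq (by simpa using hq)
  | succ K ih =>
    obtain ⟨F, hF, hFW⟩ := ih
    by_contra hcon
    push Not at hcon
    -- for every n there is a bad extension
    have htot : ∀ n : ℕ, ∃ b : Bool, ∃ r : List (ℕ × Bool), r.map Prod.fst = F ∧
        ∃ q : List (ℕ × Bool), (∀ e ∈ q, J e.1 e.2) ∧ W (r ++ (n, b) :: q) := by
      intro n
      obtain ⟨r, hr, q, hq, hWq⟩ := hcon (F ++ [n]) (by simp [hF])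
      rw [List.map_eq_append_iff] at hr
      obtain ⟨r1, r2, rfl, h1, h2⟩ := hr
      have : ∃ b, r2 = [(n, b)] := by
        rcases r2 with _ | ⟨⟨n', b⟩, _ | ⟨x, y⟩⟩
        · simp at h2
        · simp only [List.map_cons, List.map_nil, List.cons.injEq, and_true] at h2
          exact ⟨b, by rw [h2]⟩
        · simp at h2
      obtain ⟨b, rfl⟩ := this
      exact ⟨b, r1, h1, q, hq, by simpa using hWq⟩
    have hS : Γ.S (fun p : ℕ × Bool => ∃ r : List (ℕ × Bool), r.map Prod.fst = F ∧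
        ∃ q : List (ℕ × Bool), (∀ e ∈ q, J e.1 e.2) ∧ W (r ++ (p.1, p.2) :: q)) := by
      refine PC.ex' (R := fun (p : ℕ × Bool) (r : List (ℕ × Bool)) => r.map Prod.fst = F ∧
        ∃ q : List (ℕ × Bool), (∀ e ∈ q, J e.1 e.2) ∧ W (r ++ (p.1, p.2) :: q)) ?_
      refine Γ.and (Γ.prim ?_) ?_
      · exact Primrec.eq.comp (Primrec.list_map Primrec.snd (Primrec.fst.comp Primrec.snd))
          (Primrec.const F)
      refine PC.ex' (R := fun (p : (ℕ × Bool) × List (ℕ × Bool)) (q : List (ℕ × Bool)) =>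
        (∀ e ∈ q, J e.1 e.2) ∧ W (p.2 ++ (p.1.1, p.1.2) :: q)) ?_
      refine Γ.and ?_ ?_
      · refine PC.ballList (R := fun (p : ((ℕ × Bool) × List (ℕ × Bool)) × List (ℕ × Bool))
          (e : ℕ × Bool) => J e.1 e.2) (L := fun p => p.2) Primrec.snd ?_
        exact Γ.comp (f := fun q : (((ℕ × Bool) × List (ℕ × Bool)) × List (ℕ × Bool)) ×
          (ℕ × Bool) => q.2) (J_re Γ) Primrec.snd
      · refine Γ.comp (f := fun p : ((ℕ × Bool) × List (ℕ × Bool)) × List (ℕ × Bool) =>
          p.1.2 ++ (p.1.1.1, p.1.1.2) :: p.2) hW ?_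
        refine Primrec.list_append.comp (Primrec.snd.comp Primrec.fst) ?_
        refine Primrec.list_cons.comp ?_ Primrec.snd
        exact (Primrec.fst.comp (Primrec.fst.comp Primrec.fst)).pair
          (Primrec.snd.comp (Primrec.fst.comp Primrec.fst))
    obtain ⟨h, hh, hQ⟩ := PC.unif (R := fun (n : ℕ) (b : Bool) =>
      ∃ r : List (ℕ × Bool), r.map Prod.fst = F ∧
        ∃ q : List (ℕ × Bool), (∀ e ∈ q, J e.1 e.2) ∧ W (r ++ (n, b) :: q)) hS htot
    refine hΓ ⟨fun n => !h n, ?_, ?_⟩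
    · have := Γ.comp (f := fun p : ℕ × Bool => (p.1, !p.2)) hh
        (Primrec.fst.pair (Primrec.not.comp Primrec.snd))
      refine PC.of_eq this fun p => ?_
      show (!h p.1) = p.2 ↔ h p.1 = !p.2
      cases h p.1 <;> cases p.2 <;> simp
    · intro n b hb
      obtain ⟨r, hr, q, hq, hWq⟩ := hQ n
      have : h n ≠ b := by
        rintro rfl
        refine hFW r hr ((n, h n) :: q) ?_ hWq
        intro e he
        rcases List.mem_cons.1 he with rfl | he
        · exact hb
        · exact hq e he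
      show (!h n) = b
      revert this; cases h n <;> cases b <;> simp

theorem val_fin {Γ : PC} (hΓ : Good Γ) {W : List (ℕ × Bool) → Prop} (hW : Γ.S W)
    (hJ : ∀ p, W p → ¬ ∀ e ∈ p, J e.1 e.2) (K : ℕ) :
    ∃ F : Fin K → ℕ, ∀ t : Fin K → Bool, ¬ W (List.ofFn fun i => (F i, t i)) := by
  obtain ⟨F, hF, h⟩ := val_list hΓ hW hJ K
  subst hF
  refine ⟨F.get, fun t => ?_⟩
  have := h (List.ofFn fun i => (F.get i, t i)) ?_ [] (by simp)
  · simpa using this
  · rw [List.map_ofFn]
    exact List.ofFn_get F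

end val

/-- `τ` extends `σ` with new elements taken from `X`. -/
def Ext (σ τ : List Bool) (X : Set ℕ) : Prop :=
  σ <+: τ ∧ ∀ n, σ.length ≤ n → τ[n]? = some true → n ∈ X

theorem Ext.refl (σ : List Bool) (X : Set ℕ) : Ext σ σ X := by
  refine ⟨List.prefix_rfl, fun n hn h => ?_⟩
  rw [List.getElem?_eq_none hn] at h; cases h

theorem getElem?_of_prefix {σ τ : List Bool} (h : σ <+: τ) {n : ℕ} (hn : n < σ.length) :
    τ[n]? = σ[n]? := by
  obtain ⟨ρ, rfl⟩ := h
  rw [List.getElem?_append_left hn]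

theorem getElem?_some_of_prefix {σ τ : List Bool} (h : σ <+: τ) {n : ℕ} {b : Bool}
    (hn : σ[n]? = some b) : τ[n]? = some b := by
  have : n < σ.length := by
    by_contra hc
    rw [List.getElem?_eq_none (not_lt.1 hc)] at hn; cases hn
  rw [getElem?_of_prefix h this, hn]

theorem Ext.trans {σ τ ρ : List Bool} {X Y : Set ℕ} (h : Ext σ τ X) (h' : Ext τ ρ Y)
    (hYX : Y ⊆ X) : Ext σ ρ X := by
  refine ⟨h.1.trans h'.1, fun n hn hρ => ?_⟩
  by_cases hnτ : n < τ.length
  · rw [getElem?_of_prefix h'.1 hnτ] at hρ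
    exact h.2 n hn hρ
  · exact hYX (h'.2 n (not_lt.1 hnτ) hρ)

theorem Ext.mono {σ τ : List Bool} {X Y : Set ℕ} (h : Ext σ τ X) (hXY : X ⊆ Y) : Ext σ τ Y :=
  ⟨h.1, fun n hn hτ => hXY (h.2 n hn hτ)⟩

theorem ext_iff {σ τ : List Bool} {X : Set ℕ} :
    Ext σ τ X ↔ σ <+: τ ∧ ∀ n < τ.length, (n < σ.length ∨ ¬ τ[n]? = some true) ∨ n ∈ X := by
  constructor
  · rintro ⟨h1, h2⟩
    refine ⟨h1, fun n hn => ?_⟩
    by_cases h3 : σ.length ≤ n
    · by_cases h4 : τ[n]? = some true
      · exact Or.inr (h2 n h3 h4)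
      · exact Or.inl (Or.inr h4)
    · exact Or.inl (Or.inl (not_le.1 h3))
  · rintro ⟨h1, h2⟩
    refine ⟨h1, fun n hn h3 => ?_⟩
    have hlt : n < τ.length := by
      by_contra hc
      rw [List.getElem?_eq_none (not_lt.1 hc)] at h3; cases h3
    rcases h2 n hlt with (h | h) | h
    · omega
    · exact absurd h3 h
    · exact h

namespace PC

variable {Γ : PC} {α : Type} [Primcodable α]

theorem Sig.ext {f g : α → List Bool} (hf : Primrec f) (hg : Primrec g)
    {X : α → (ℕ → Bool) → Set ℕ} (hX : Γ.Sig (fun (p : α × ℕ) x => p.2 ∈ X p.1 x)) :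
    Γ.Sig (fun a x => Ext (f a) (g a) (X a x)) := by
  have h1 : Γ.Sig (fun a x => f a <+: g a ∧ ∀ n < (g a).length,
      ((n < (f a).length ∨ ¬ (g a)[n]? = some true) ∨ n ∈ X a x)) := by
    refine Sig.and (Sig.prim (primrec_prefix.comp hf hg)) ?_
    refine Sig.ball (R := fun a n x => ((n < (f a).length ∨ ¬ (g a)[n]? = some true) ∨
      n ∈ X a x)) (Primrec.list_length.comp hg) ?_
    refine Sig.or (Sig.prim ?_) hX
    refine PrimrecPred.or ?_ (PrimrecPred.not ?_)
    · exact Primrec.nat_lt.comp Primrec.snd (Primrec.list_length.comp (hf.comp Primrec.fst))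
    · exact Primrec.eq.comp (Primrec.list_getElem?.comp (hg.comp Primrec.fst) Primrec.snd)
        (Primrec.const (some true))
  exact Sig.of_eq h1 fun a x => ext_iff

theorem Sig.toS {R : α → Prop} (h : Γ.Sig (fun a _ => R a)) : Γ.S R :=
  PC.of_eq (Sig.allX h) fun a => ⟨fun h _ => h, fun h => h (fun _ => false)⟩

end PC

theorem exists_ext (σ : List Bool) (l : List ℕ) (hl : ∀ n ∈ l, σ.length ≤ n) (j : ℕ) :
    ∃ τ, Ext σ τ {n | n ∈ l} ∧ (∀ n ∈ l, τ[n]? = some true) ∧ j ≤ τ.length := by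
  classical
  let m := j + l.sum + 1
  refine ⟨σ ++ (List.range m).map (fun i => decide (σ.length + i ∈ l)), ⟨⟨_, rfl⟩, ?_⟩, ?_, ?_⟩
  · intro n hn h
    rw [List.getElem?_append_right hn] at h
    simp only [List.getElem?_map, Option.map_eq_some_iff] at h
    obtain ⟨a, ha, h2⟩ := h
    have : a = n - σ.length := by
      have hlt : n - σ.length < m := by
        by_contra hc
        rw [List.getElem?_eq_none (by simpa using hc)] at ha; cases ha
      rw [List.getElem?_range hlt] at ha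
      exact (Option.some.inj ha).symm
    subst this
    simp only [decide_eq_true_eq] at h2
    rw [Nat.add_sub_cancel' hn] at h2
    exact h2
  · intro n hn
    have h1 := hl n hn
    have h2 : n ≤ l.sum := List.single_le_sum (by simp) n hn
    rw [List.getElem?_append_right h1]
    have hlt : n - σ.length < m := by omega
    simp only [List.getElem?_map, List.getElem?_range hlt, Option.map_some,
      Nat.add_sub_cancel' h1]
    simp [hn]
  · simp only [List.length_append, List.length_map, List.length_range]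
    omega

/-! ### Large sets -/

/-- A notion of largeness for sets of natural numbers. -/
structure LF where
  F : ℕ → List ℕ → Prop
  reg : ∀ X Y : Set ℕ, (∀ j, ∃ l, F j l ∧ ∀ n ∈ l, n ∈ X ∪ Y) →
    (∀ j, ∃ l, F j l ∧ ∀ n ∈ l, n ∈ X) ∨ (∀ j, ∃ l, F j l ∧ ∀ n ∈ l, n ∈ Y)
  nofin : ∀ N : ℕ, ¬ (∀ j, ∃ l, F j l ∧ ∀ n ∈ l, n < N)

/-- `X` is large. -/
def LF.Large (L : LF) (X : Set ℕ) : Prop := ∀ j, ∃ l, L.F j l ∧ ∀ n ∈ l, n ∈ X

namespace LF

variable {L : LF}

theorem Large.mono {X Y : Set ℕ} (h : L.Large X) (hXY : X ⊆ Y) : L.Large Y := fun j => by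
  obtain ⟨l, h1, h2⟩ := h j
  exact ⟨l, h1, fun n hn => hXY (h2 n hn)⟩

theorem Large.union {X Y : Set ℕ} (h : L.Large (X ∪ Y)) : L.Large X ∨ L.Large Y := L.reg X Y h

theorem not_large_empty : ¬ L.Large ∅ := fun h => L.nofin 0 fun j => by
  obtain ⟨l, h1, h2⟩ := h j
  exact ⟨l, h1, fun n hn => absurd (h2 n hn) (by simp)⟩

theorem Large.finite_union {ι : Type*} [Finite ι] {X : Set ℕ} (h : L.Large X) {Y : ι → Set ℕ}
    (hXY : ∀ n ∈ X, ∃ i, n ∈ Y i) : ∃ i, L.Large (Y i) := by
  classical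
  have := Fintype.ofFinite ι
  have key : ∀ s : Finset ι, L.Large {n | ∃ i ∈ s, n ∈ Y i} → ∃ i, L.Large (Y i) := by
    intro s
    induction s using Finset.induction_on with
    | empty =>
      intro h
      refine absurd (h.mono ?_) not_large_empty
      intro n hn; simp at hn
    | insert i s hi ih =>
      intro h
      have : {n | ∃ j ∈ insert i s, n ∈ Y j} ⊆ Y i ∪ {n | ∃ j ∈ s, n ∈ Y j} := by
        intro n hn
        obtain ⟨j, hj, hn⟩ := hn
        rcases Finset.mem_insert.1 hj with rfl | hj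
        · exact Or.inl hn
        · exact Or.inr ⟨j, hj, hn⟩
      rcases (h.mono this).union with h | h
      · exact ⟨i, h⟩
      · exact ih h
  refine key Finset.univ (h.mono ?_)
  intro n hn
  obtain ⟨i, hi⟩ := hXY n hn
  exact ⟨i, Finset.mem_univ i, hi⟩

theorem Large.tail {X : Set ℕ} (h : L.Large X) (N : ℕ) : L.Large {n | n ∈ X ∧ N ≤ n} := by
  have : X ⊆ {n | n < N} ∪ {n | n ∈ X ∧ N ≤ n} := by
    intro n hn
    by_cases h : n < N
    · exact Or.inl h
    · exact Or.inr ⟨hn, not_lt.1 h⟩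
  rcases (h.mono this).union with h | h
  · exact absurd h (L.nofin N)
  · exact h

end LF

/-! ### Generic sequences -/

theorem generic {C : Type*} {T : Type*} [Countable T] (le : C → C → Prop)
    (refl : ∀ c, le c c) (D : T → C → Prop) (P : C → Prop)
    (hP : ∀ c d, le d c → P c → P d)
    (hD : ∀ t c, P c → ∃ d, le d c ∧ D t d) (c0 : C) (h0 : P c0) :
    ∃ c : ℕ → C, c 0 = c0 ∧ (∀ n, le (c (n + 1)) (c n)) ∧ (∀ n, P (c n)) ∧
      ∀ t, ∃ n, D t (c n) := by
  classical
  have := Encodable.ofCountable T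
  let C' := {c : C // P c}
  have step : ∀ (n : ℕ) (c : C'), ∃ d : C', le d.1 c.1 ∧
      ∀ t ∈ (decode (α := T) n), D t d.1 := by
    intro n c
    rcases hd : decode (α := T) n with _ | t
    · exact ⟨c, refl _, by simp⟩
    · obtain ⟨d, h1, h2⟩ := hD t c.1 c.2
      exact ⟨⟨d, hP _ _ h1 c.2⟩, h1, by simpa using h2⟩
  choose next hn1 hn2 using step
  let c : ℕ → C' := fun n => Nat.rec ⟨c0, h0⟩ (fun n c => next n c) n
  refine ⟨fun n => (c n).1, rfl, fun n => hn1 n (c n), fun n => (c n).2, fun t => ?_⟩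
  exact ⟨encode t + 1, hn2 (encode t) (c (encode t)) t (by simp)⟩

/-- The limit of a chain of strings. -/
theorem exists_limit (σ : ℕ → List Bool) (h : ∀ n, σ n <+: σ (n + 1)) :
    ∃ G : ℕ → Bool, ∀ n, Pre (σ n) G := by
  classical
  have hm : ∀ {n m}, n ≤ m → σ n <+: σ m := by
    intro n m hnm
    induction hnm with
    | refl => exact List.prefix_rfl
    | step _ ih => exact ih.trans (h _)
  refine ⟨fun i => if ∃ n, (σ n)[i]? = some true then true else false, fun n i b hb => ?_⟩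
  by_cases hex : ∃ n, (σ n)[i]? = some true
  · simp only [hex, if_true]
    obtain ⟨m, hm'⟩ := hex
    rcases le_total n m with hnm | hnm
    · rw [getElem?_some_of_prefix (hm hnm) hb] at hm'
      cases hm'; rfl
    · rw [getElem?_some_of_prefix (hm hnm) hm'] at hb
      cases hb; rfl
  · simp only [hex, if_false]
    cases b
    · rfl
    · exact absurd ⟨n, hb⟩ hex

end Pool.Agent.Helper70
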