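import Pool.Agent.Helper70.Solve

/-! Iterating: a pointclass closed under solutions of the packed Ramsey theorem. -/

namespace Pool.Agent.Helper70

open Encodable

namespace PC

theorem Le.of_chain {Γ : ℕ → PC} (h : ∀ n, (Γ n).Le (Γ (n + 1))) {n m : ℕ} (hnm : n ≤ m) :
    (Γ n).Le (Γ m) := by
  induction hnm with
  | refl => exact Le.refl _
  | step _ ih => exact ih.trans (h _)

/-- The union of a chain of pointclasses. -/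
def union (Γ : ℕ → PC) (h : ∀ n, (Γ n).Le (Γ (n + 1))) : PC where
  S := fun {α} _ R => ∃ n, (Γ n).S R
  prim := fun hR => ⟨0, (Γ 0).prim hR⟩
  comp := fun ⟨n, hR⟩ hf => ⟨n, (Γ n).comp hR hf⟩
  and := fun ⟨n, hR⟩ ⟨m, hQ⟩ => ⟨max n m, (Γ _).and (Le.of_chain h (le_max_left n m) _ _ hR)
    (Le.of_chain h (le_max_right n m) _ _ hQ)⟩
  or := fun ⟨n, hR⟩ ⟨m, hQ⟩ => ⟨max n m, (Γ _).or (Le.of_chain h (le_max_left n m) _ _ hR)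
    (Le.of_chain h (le_max_right n m) _ _ hQ)⟩
  ex := fun ⟨n, hR⟩ => ⟨n, (Γ n).ex hR⟩
  ball := fun ⟨n, hR⟩ => ⟨n, (Γ n).ball hR⟩
  nf := fun ⟨n, hR⟩ => by
    obtain ⟨K, h1, h2, h3⟩ := (Γ n).nf hR
    exact ⟨K, ⟨n, h1⟩, ⟨n, h2⟩, h3⟩
  ctbl := fun α _ => by
    have : {R : α → Prop | ∃ n, (Γ n).S R} = ⋃ n, {R | (Γ n).S R} := by
      ext R; simp
    rw [this]
    exact Set.countable_iUnion fun n => (Γ n).ctbl α

theorem le_union (Γ : ℕ → PC) (h : ∀ n, (Γ n).Le (Γ (n + 1))) (n : ℕ) :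
    (Γ n).Le (union Γ h) := fun _ _ _ hR => ⟨n, hR⟩

theorem good_union {Γ : ℕ → PC} (h : ∀ n, (Γ n).Le (Γ (n + 1))) (hg : ∀ n, Good (Γ n)) :
    Good (union Γ h) := by
  rintro ⟨g, ⟨n, h1⟩, h2⟩
  exact hg n ⟨g, h1, h2⟩

end PC

/-- `Δ` solves the instance given by `f` and `φ`. -/
def Solves (Δ : PC) {k : ℕ} (f : ℕ → ℕ → Fin k) (φ : ℕ → ℕ) : Prop :=
  (∀ w, Arrow w (φ w) (k + 1)) → ∃ H : ℕ → Bool, Δ.S (fun p : ℕ × Bool => H p.1 = p.2) ∧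
    Packed φ {n | H n = true} ∧ ∃ c i : Fin k, ∀ x y, H x = true → H y = true → x < y →
      f x y = c ∨ f x y = i

theorem Solves.mono {Γ Δ : PC} (h : Γ.Le Δ) {k : ℕ} {f : ℕ → ℕ → Fin k} {φ : ℕ → ℕ}
    (hs : Solves Γ f φ) : Solves Δ f φ := fun hA => by
  obtain ⟨H, h1, h2⟩ := hs hA
  exact ⟨H, h _ _ h1, h2⟩

theorem countable_fun {Γ : PC} {α β : Type} [Primcodable α] [Primcodable β] :
    Countable {f : α → β // Γ.S (fun p : α × β => f p.1 = p.2)} := by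
  have h0 : Countable {R : α × β → Prop // Γ.S R} := (Γ.ctbl (α × β)).to_subtype
  refine Function.Injective.countable (β := {R : α × β → Prop // Γ.S R})
    (f := fun f => ⟨_, f.2⟩) ?_
  intro f g hfg
  apply Subtype.ext
  funext x
  have := congrFun (congrArg Subtype.val hfg) (x, g.1 x)
  simp only [eq_iff_iff, iff_true] at this
  exact this

theorem step {Γ : PC} (hΓ : Good Γ) : ∃ Δ : PC, Γ.Le Δ ∧ Good Δ ∧
    ∀ (k : ℕ) (f : ℕ → ℕ → Fin k) (φ : ℕ → ℕ),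
      Γ.S (fun p : (ℕ × ℕ) × Fin k => f p.1.1 p.1.2 = p.2) →
      Γ.S (fun p : ℕ × ℕ => φ p.1 = p.2) → Solves Δ f φ := by
  classical
  let T := (Σ k : ℕ, {f : ℕ × ℕ → Fin k // Γ.S (fun p : (ℕ × ℕ) × Fin k => f p.1 = p.2)}) ×
    {φ : ℕ → ℕ // Γ.S (fun p : ℕ × ℕ => φ p.1 = p.2)}
  have h1 : ∀ k : ℕ, Countable {f : ℕ × ℕ → Fin k //
      Γ.S (fun p : (ℕ × ℕ) × Fin k => f p.1 = p.2)} := fun k => countable_fun
  have h2 : Countable {φ : ℕ → ℕ // Γ.S (fun p : ℕ × ℕ => φ p.1 = p.2)} := countable_fun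
  have hT : Countable T := inferInstance
  obtain ⟨c, hc0, hc1, hc2, hc3⟩ := generic (C := {Δ : PC // Good Δ ∧ Γ.Le Δ}) (T := T)
    (fun Δ Λ => Λ.1.Le Δ.1)
    (fun Λ => PC.Le.refl Λ.1) (fun t Δ => Solves Δ.1 (fun x y => t.1.2.1 (x, y)) t.2.1)
    (fun _ => True) (fun _ _ _ _ => trivial) (by
      rintro ⟨⟨k, f, hf⟩, ⟨φ, hφ⟩⟩ ⟨Λ, hΛ1, hΛ2⟩ _
      by_cases hA : ∀ w, Arrow w (φ w) (k + 1)
      · obtain ⟨Δ, h3, h4, h5⟩ := solve hΛ1 (f := fun x y => f (x, y)) (φ := φ)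
          (hΛ2 _ _ hf) (hΛ2 _ _ hφ) hA
        exact ⟨⟨Δ, h4, hΛ2.trans h3⟩, h3, fun _ => h5⟩
      · exact ⟨⟨Λ, hΛ1, hΛ2⟩, PC.Le.refl _, fun h => absurd h hA⟩)
    ⟨Γ, hΓ, PC.Le.refl _⟩ trivial
  refine ⟨PC.union (fun n => (c n).1) hc1, (c 0).2.2.trans (PC.le_union _ hc1 0),
    PC.good_union hc1 (fun n => (c n).2.1), fun k f φ hf hφ => ?_⟩
  obtain ⟨n, hn⟩ := hc3 (⟨k, fun p => f p.1 p.2, hf⟩, ⟨φ, hφ⟩)
  exact Solves.mono (PC.le_union _ hc1 n) hn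

/-- A pointclass which solves all its instances and computes no extension of `J`. -/
theorem exists_closed : ∃ Γ : PC, Good Γ ∧
    ∀ (k : ℕ) (f : ℕ → ℕ → Fin k) (φ : ℕ → ℕ),
      Γ.S (fun p : (ℕ × ℕ) × Fin k => f p.1.1 p.1.2 = p.2) →
      Γ.S (fun p : ℕ × ℕ => φ p.1 = p.2) → Solves Γ f φ := by
  classical
  have hstep : ∀ Γ : {Γ : PC // Good Γ}, ∃ Δ : {Γ : PC // Good Γ}, Γ.1.Le Δ.1 ∧
    ∀ (k : ℕ) (f : ℕ → ℕ → Fin k) (φ : ℕ → ℕ),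
      Γ.1.S (fun p : (ℕ × ℕ) × Fin k => f p.1.1 p.1.2 = p.2) →
      Γ.1.S (fun p : ℕ × ℕ => φ p.1 = p.2) → Solves Δ.1 f φ := fun Γ => by
    obtain ⟨Δ, h1, h2, h3⟩ := step Γ.2
    exact ⟨⟨Δ, h2⟩, h1, h3⟩
  choose nx hnx1 hnx2 using hstep
  let c : ℕ → {Γ : PC // Good Γ} := fun n => Nat.rec ⟨PC.re, good_re⟩ (fun _ Γ => nx Γ) n
  have hc : ∀ n, (c n).1.Le (c (n + 1)).1 := fun n => hnx1 (c n)
  refine ⟨PC.union (fun n => (c n).1) hc, PC.good_union hc (fun n => (c n).2),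
    fun k f φ hf hφ => ?_⟩
  obtain ⟨n, hf⟩ := hf
  obtain ⟨m, hφ⟩ := hφ
  have h1 := hnx2 (c (max n m)) k f φ (PC.Le.of_chain hc (le_max_left n m) _ _ hf)
    (PC.Le.of_chain hc (le_max_right n m) _ _ hφ)
  exact Solves.mono (PC.le_union _ hc (max n m + 1)) h1

end Pool.Agent.Helper70
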