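import Mathlib

/-! Abstract countable Sigma-1 pointclasses. -/

namespace Pool.Agent.Helper70

open Encodable

/-- A countable pointclass with the closure properties of `c.e. relative to an oracle`. -/
structure PC : Type 1 where
  S : ∀ {α : Type} [Primcodable α], (α → Prop) → Prop
  prim : ∀ {α : Type} [Primcodable α] {R : α → Prop}, PrimrecPred R → S R
  comp : ∀ {α β : Type} [Primcodable α] [Primcodable β] {R : β → Prop} {f : α → β},
    S R → Primrec f → S (fun a => R (f a))
  and : ∀ {α : Type} [Primcodable α] {R Q : α → Prop}, S R → S Q → S (fun a => R a ∧ Q a)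
  or : ∀ {α : Type} [Primcodable α] {R Q : α → Prop}, S R → S Q → S (fun a => R a ∨ Q a)
  ex : ∀ {α β : Type} [Primcodable α] [Primcodable β] {R : α × β → Prop},
    S R → S (fun a => ∃ b, R (a, b))
  ball : ∀ {α : Type} [Primcodable α] {R : α × ℕ → Prop},
    S R → S (fun p : α × ℕ => ∀ i < p.2, R (p.1, i))
  nf : ∀ {α : Type} [Primcodable α] {R : α → Prop}, S R →
    ∃ K : α × ℕ → Prop, S K ∧ S (fun p => ¬ K p) ∧ ∀ a, R a ↔ ∃ k, K (a, k)
  ctbl : ∀ (α : Type) [Primcodable α], {R : α → Prop | S R}.Countable

namespace PC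

variable (Γ : PC)
variable {α β γ : Type} [Primcodable α] [Primcodable β] [Primcodable γ]

variable {Γ}

theorem of_eq {R Q : α → Prop} (h : Γ.S R) (H : ∀ a, Q a ↔ R a) : Γ.S Q := by
  have : Q = R := funext fun a => propext (H a)
  rw [this]; exact h

theorem ex' {R : α → β → Prop} (h : Γ.S (fun p : α × β => R p.1 p.2)) :
    Γ.S (fun a => ∃ b, R a b) := Γ.ex h

variable (Γ) in
theorem const (p : Prop) : Γ.S (fun _ : α => p) := by
  classical
  refine Γ.prim (R := fun _ : α => p) ⟨fun _ => Classical.propDecidable p, ?_⟩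
  exact Primrec.const _

theorem exFin {ι : Type*} [Finite ι] {R : ι → α → Prop} (h : ∀ i, Γ.S (R i)) :
    Γ.S (fun a => ∃ i, R i a) := by
  classical
  have := Fintype.ofFinite ι
  have key : ∀ s : Finset ι, Γ.S (fun a => ∃ i ∈ s, R i a) := by
    intro s
    induction s using Finset.induction_on with
    | empty => exact of_eq (const Γ False) (by simp)
    | insert i s hi ih => exact of_eq (Γ.or (h i) ih) (by simp)
  exact of_eq (key Finset.univ) (by simp)

theorem allFin {ι : Type*} [Finite ι] {R : ι → α → Prop} (h : ∀ i, Γ.S (R i)) :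
    Γ.S (fun a => ∀ i, R i a) := by
  classical
  have := Fintype.ofFinite ι
  have key : ∀ s : Finset ι, Γ.S (fun a => ∀ i ∈ s, R i a) := by
    intro s
    induction s using Finset.induction_on with
    | empty => exact of_eq (const Γ True) (by simp)
    | insert i s hi ih => exact of_eq (Γ.and (h i) ih) (by simp)
  exact of_eq (key Finset.univ) (by simp)

theorem ball' {R : α → ℕ → Prop} {f : α → ℕ} (hf : Primrec f)
    (h : Γ.S (fun p : α × ℕ => R p.1 p.2)) : Γ.S (fun a => ∀ i < f a, R a i) :=
  Γ.comp (f := fun a => (a, f a)) (Γ.ball h) (Primrec.id.pair hf)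

/-- bounded quantification over a primitive recursive list -/
theorem ballList {R : α → β → Prop} {L : α → List β} (hL : Primrec L)
    (h : Γ.S (fun p : α × β => R p.1 p.2)) : Γ.S (fun a => ∀ b ∈ L a, R a b) := by
  have h1 : Γ.S (fun a => ∀ i < (L a).length, ∃ b, (L a)[i]? = some b ∧ R a b) := by
    refine ball' (Primrec.list_length.comp hL) ?_
    refine ex' (R := fun (p : α × ℕ) (b : β) => (L p.1)[p.2]? = some b ∧ R p.1 b) ?_
    refine Γ.and ?_ ?_
    · refine Γ.prim ?_
      exact Primrec.eq.comp
        (Primrec.list_getElem?.comp (hL.comp (Primrec.fst.comp Primrec.fst))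
          (Primrec.snd.comp Primrec.fst)) (Primrec.option_some.comp Primrec.snd)
    · exact Γ.comp (f := fun p : (α × ℕ) × β => (p.1.1, p.2)) h
        ((Primrec.fst.comp Primrec.fst).pair Primrec.snd)
  refine of_eq h1 fun a => ?_
  constructor
  · intro H i hi
    exact ⟨(L a)[i], by simp [hi], H _ (List.getElem_mem hi)⟩
  · intro H b hb
    obtain ⟨i, hi, rfl⟩ := List.getElem_of_mem hb
    obtain ⟨b, hb1, hb2⟩ := H i hi
    rw [List.getElem?_eq_getElem hi] at hb1
    cases hb1; exact hb2

/-- all binary strings of a given length -/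
def strs : ℕ → List (List Bool)
  | 0 => [[]]
  | n + 1 => (strs n).map (List.cons false) ++ (strs n).map (List.cons true)

theorem mem_strs : ∀ (n : ℕ) (s : List Bool), s ∈ strs n ↔ s.length = n
  | 0, s => by simp [strs]
  | n + 1, s => by
    cases s with
    | nil => simp [strs]
    | cons b t => cases b <;> simp [strs, mem_strs n]

theorem primrec_strs : Primrec strs := by
  have : Primrec (fun n : ℕ => (Nat.rec [[]] (fun _ l => l.map (List.cons false) ++
      l.map (List.cons true)) n : List (List Bool))) := by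
    refine Primrec.nat_rec₁ _ ?_
    refine Primrec.list_append.comp ?_ ?_
    · exact Primrec.list_map Primrec.snd
        (Primrec.list_cons.comp (Primrec.const false) Primrec.snd)
    · exact Primrec.list_map Primrec.snd
        (Primrec.list_cons.comp (Primrec.const true) Primrec.snd)
  refine this.of_eq fun n => ?_
  induction n with
  | zero => rfl
  | succ n ih => simp only [strs]; rw [ih]

theorem allLen {R : α → List Bool → Prop} {f : α → ℕ} (hf : Primrec f)
    (h : Γ.S (fun p : α × List Bool => R p.1 p.2)) :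
    Γ.S (fun a => ∀ s : List Bool, s.length = f a → R a s) := by
  refine of_eq (ballList (L := fun a => strs (f a)) (primrec_strs.comp hf) h) fun a => ?_
  simp [mem_strs]

/-- Uniformization. -/
theorem unif {R : α → β → Prop} (h : Γ.S (fun p : α × β => R p.1 p.2))
    (tot : ∀ a, ∃ b, R a b) :
    ∃ f : α → β, Γ.S (fun p : α × β => f p.1 = p.2) ∧ ∀ a, R a (f a) := by
  classical
  obtain ⟨K, hK, hK', hKR⟩ := Γ.nf h
  -- E a s : s decodes to (b,k) with K ((a,b),k)
  let E : α → ℕ → β → ℕ → Prop := fun a s b k => decode (α := β × ℕ) s = some (b, k) ∧ K ((a, b), k)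
  have hE : ∀ a, ∃ s, ∃ b k, E a s b k := by
    intro a
    obtain ⟨b, hb⟩ := tot a
    obtain ⟨k, hk⟩ := (hKR (a, b)).1 hb
    exact ⟨encode (b, k), b, k, by simp [E, hk]⟩
  let s : α → ℕ := fun a => Nat.find (hE a)
  have hs : ∀ a, ∃ b k, E a (s a) b k := fun a => Nat.find_spec (hE a)
  choose f kf hf using hs
  refine ⟨f, ?_, fun a => ?_⟩
  · have h1 : Γ.S (fun p : α × β => ∃ s : ℕ, ∃ k : ℕ,
        (decode (α := β × ℕ) s = some (p.2, k) ∧ K ((p.1, p.2), k)) ∧
        ∀ s' < s, (decode (α := β × ℕ) s' = none ∨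
          ∃ bk : β × ℕ, decode (α := β × ℕ) s' = some bk ∧ ¬ K ((p.1, bk.1), bk.2))) := by
      refine ex' ?_
      refine ex' (R := fun (q : (α × β) × ℕ) (k : ℕ) =>
        (decode (α := β × ℕ) q.2 = some (q.1.2, k) ∧ K ((q.1.1, q.1.2), k)) ∧
        ∀ s' < q.2, (decode (α := β × ℕ) s' = none ∨
          ∃ bk : β × ℕ, decode (α := β × ℕ) s' = some bk ∧ ¬ K ((q.1.1, bk.1), bk.2))) ?_
      refine Γ.and (Γ.and ?_ ?_) ?_
      · refine Γ.prim ?_
        refine Primrec.eq.comp (Primrec.decode.comp (Primrec.snd.comp Primrec.fst))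
          (Primrec.option_some.comp ?_)
        exact (Primrec.snd.comp (Primrec.fst.comp Primrec.fst)).pair Primrec.snd
      · exact Γ.comp (f := fun q : ((α × β) × ℕ) × ℕ => ((q.1.1.1, q.1.1.2), q.2)) hK
          (((Primrec.fst.comp (Primrec.fst.comp Primrec.fst)).pair
            (Primrec.snd.comp (Primrec.fst.comp Primrec.fst))).pair Primrec.snd)
      · refine ball' (R := fun (q : ((α × β) × ℕ) × ℕ) (s' : ℕ) =>
          (decode (α := β × ℕ) s' = none ∨
            ∃ bk : β × ℕ, decode (α := β × ℕ) s' = some bk ∧ ¬ K ((q.1.1.1, bk.1), bk.2)))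
          (f := fun q => q.1.2)
          (Primrec.snd.comp Primrec.fst) ?_
        refine Γ.or ?_ ?_
        · exact Γ.prim (Primrec.eq.comp (Primrec.decode.comp Primrec.snd) (Primrec.const none))
        · refine ex' (R := fun (q : (((α × β) × ℕ) × ℕ) × ℕ) (bk : β × ℕ) =>
            decode (α := β × ℕ) q.2 = some bk ∧ ¬ K ((q.1.1.1.1, bk.1), bk.2)) ?_
          refine Γ.and ?_ ?_
          · exact Γ.prim (Primrec.eq.comp (Primrec.decode.comp (Primrec.snd.comp Primrec.fst))
              (Primrec.option_some.comp Primrec.snd))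
          · exact Γ.comp (f := fun q : ((((α × β) × ℕ) × ℕ) × ℕ) × (β × ℕ) =>
              ((q.1.1.1.1.1, q.2.1), q.2.2)) hK'
              (((Primrec.fst.comp (Primrec.fst.comp (Primrec.fst.comp (Primrec.fst.comp
                Primrec.fst)))).pair (Primrec.fst.comp Primrec.snd)).pair
                (Primrec.snd.comp Primrec.snd))
    refine of_eq h1 fun p => ?_
    obtain ⟨a, b⟩ := p
    simp only
    constructor
    · rintro rfl
      refine ⟨s a, kf a, ⟨(hf a).1, (hf a).2⟩, fun s' hs' => ?_⟩
      have := Nat.find_min (hE a) hs'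
      rcases hd : decode (α := β × ℕ) s' with _ | bk
      · exact Or.inl rfl
      · refine Or.inr ⟨bk, rfl, fun hk => this ⟨bk.1, bk.2, ?_, hk⟩⟩
        rw [hd]
    · rintro ⟨s0, k, ⟨h1, h2⟩, h3⟩
      have hs0 : s a = s0 := by
        apply le_antisymm
        · exact Nat.find_min' (hE a) ⟨b, k, h1, h2⟩
        · by_contra hlt
          push Not at hlt
          rcases h3 _ hlt with h | ⟨bk, h, h'⟩
          · have := (hf a).1
            rw [h] at this; cases this
          · have := (hf a).1
            rw [h] at this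
            simp only [Option.some.injEq] at this
            subst this
            exact h' (hf a).2
      have := (hf a).1
      rw [hs0, h1] at this
      simp only [Option.some.injEq, Prod.mk.injEq] at this
      exact this.1.symm
  · exact (hKR (a, f a)).2 ⟨kf a, (hf a).2⟩

/-- substitution of a function with graph in the class -/
theorem subst {R : α → β → Prop} {f : α → β} (hf : Γ.S (fun p : α × β => f p.1 = p.2))
    (h : Γ.S (fun p : α × β => R p.1 p.2)) : Γ.S (fun a => R a (f a)) := by
  have : Γ.S (fun a => ∃ b, f a = b ∧ R a b) := ex' (Γ.and hf h)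
  exact of_eq this fun a => by simp

end PC

end Pool.Agent.Helper70
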