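import Mathlib

/-!
# Omega-models of `RCA_0`, packed Ramsey's theorem for pairs and weak Koenig's lemma
-/

namespace Pool.Agent.Helper70.PRT

/-! ### Bounded formulas of second-order arithmetic -/

/-- Number terms of the language of second-order arithmetic. -/
inductive Tm where
  | var (i : ℕ)
  | zero
  | one
  | add (s t : Tm)
  | mul (s t : Tm)

/-- The value of a term in the standard natural numbers. The list `v` assigns the value of its
`i`-th entry to the number variable `i` (and `0` to variables beyond its end). -/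
def Tm.val (v : List ℕ) : Tm → ℕ
  | .var i => v.getD i 0
  | .zero => 0
  | .one => 1
  | .add s t => s.val v + t.val v
  | .mul s t => s.val v * t.val v

/-- Bounded (`Delta^0_0`) formulas with set parameters: atomic formulas `s = t`, `s < t`,
`s ∈ X_i`, closed under negation, conjunction and bounded existential quantification
`∃ x < t, φ` (de Bruijn style: in `φ` the new variable `x` has index `0`, and the indices of the
old variables are shifted up by one; `t` is evaluated outside the quantifier). -/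
inductive BFm where
  | eq (s t : Tm)
  | lt (s t : Tm)
  | mem (s : Tm) (i : ℕ)
  | neg (φ : BFm)
  | and (φ ψ : BFm)
  | bex (t : Tm) (φ : BFm)

/-- Truth of a bounded formula in the standard natural numbers, where the set variable `i` is
interpreted by `P i` and the number variables by the list `v`. -/
def BFm.Holds (P : ℕ → Set ℕ) : BFm → List ℕ → Prop
  | .eq s t, v => s.val v = t.val v
  | .lt s t, v => s.val v < t.val v
  | .mem s i, v => s.val v ∈ P i
  | .neg φ, v => ¬ φ.Holds P v
  | .and φ ψ, v => φ.Holds P v ∧ ψ.Holds P v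
  | .bex t φ, v => ∃ x < t.val v, φ.Holds P (x :: v)

/-- The structure `(ℕ, S)` with standard first-order part `ℕ` and second-order part
`S : Set (Set ℕ)` is a model of `RCA_0`. (The axioms of ordered semirings hold in `ℕ`.)
`Sigma^0_1` formulas are the formulas `∃ x, θ` with `θ` bounded, `Pi^0_1` formulas are the
formulas `∀ x, η` with `η` bounded; number parameters are collected in the list `v`, set
parameters are the `P i`, taken from `S`. -/
structure IsOmegaModelRCA0 (S : Set (Set ℕ)) : Prop where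
  nonempty : S.Nonempty
  sigma_induction : ∀ (θ : BFm) (v : List ℕ) (P : ℕ → Set ℕ), (∀ i, P i ∈ S) →
    (∃ x, θ.Holds P (x :: 0 :: v)) →
    (∀ n, (∃ x, θ.Holds P (x :: n :: v)) → ∃ x, θ.Holds P (x :: (n + 1) :: v)) →
    ∀ n, ∃ x, θ.Holds P (x :: n :: v)
  delta_comprehension : ∀ (θ η : BFm) (v : List ℕ) (P : ℕ → Set ℕ), (∀ i, P i ∈ S) →
    (∀ n, (∃ x, θ.Holds P (x :: n :: v)) ↔ ∀ x, η.Holds P (x :: n :: v)) →
    {n | ∃ x, θ.Holds P (x :: n :: v)} ∈ S

/-! ### Packed Ramsey's theorem for pairs -/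

/-- `w → (m)^2_k`: for every finite `X` with `|X| = w` and every `f : [X]^2 → k` there is
`H ⊆ X` with `|H| = m` such that `f` is constant on `[H]^2`. A colouring of pairs is a function
of two variables of which only the values `f x y` with `x < y` matter. -/
def Arrow (w m k : ℕ) : Prop :=
  ∀ X : Finset ℕ, X.card = w → ∀ f : ℕ → ℕ → Fin k, ∃ H ⊆ X, H.card = m ∧
    ∀ x ∈ H, ∀ y ∈ H, ∀ x' ∈ H, ∀ y' ∈ H, x < y → x' < y' → f x y = f x' y'

/-- `A` is packed for `φ`: `|A ∩ {1, ..., w}| ≥ φ w` for infinitely many `w`. -/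
def Packed (φ : ℕ → ℕ) (A : Set ℕ) : Prop :=
  ∀ N, ∃ w, N ≤ w ∧ φ w ≤ (A ∩ Set.Icc 1 w).ncard

/-- `A` is semi-homogeneous for `f`: `f` takes at most two values on `[A]^2`. -/
def SemiHomogeneous {k : ℕ} (f : ℕ → ℕ → Fin k) (A : Set ℕ) : Prop :=
  {c | ∃ x ∈ A, ∃ y ∈ A, x < y ∧ f x y = c}.ncard ≤ 2

/-- The set coding a function `φ : ℕ → ℕ`. -/
def codeFun (φ : ℕ → ℕ) : Set ℕ := {n | ∃ x, n = Nat.pair x (φ x)}

/-- The set coding a colouring of `[ℕ]^2` (only the values on increasing pairs are coded). -/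
def codeColoring {k : ℕ} (f : ℕ → ℕ → Fin k) : Set ℕ :=
  {n | ∃ x y, x < y ∧ n = Nat.pair (Nat.pair x y) (f x y)}

/-- `PRT^2_k` holds in the structure `(ℕ, S)`. -/
def PRT2 (k : ℕ) (S : Set (Set ℕ)) : Prop :=
  ∀ φ : ℕ → ℕ, codeFun φ ∈ S → (∀ w, Arrow w (φ w) (k + 1)) →
    ∀ f : ℕ → ℕ → Fin k, codeColoring f ∈ S →
      ∃ H ∈ S, Packed φ H ∧ SemiHomogeneous f H

/-! ### Weak Koenig's lemma -/

/-- Weak Koenig's lemma holds in the structure `(ℕ, S)`: every infinite binary tree (a set of
finite binary strings closed under initial segments, coded by a member of `S`) has an infinite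
path in `S`. -/
def WKL (S : Set (Set ℕ)) : Prop :=
  ∀ T : Set (List Bool), (∀ σ ∈ T, ∀ τ, τ <+: σ → τ ∈ T) → T.Infinite →
    Encodable.encode '' T ∈ S →
      ∃ g : ℕ → Bool, {n | g n = true} ∈ S ∧ ∀ n, (List.range n).map g ∈ T

end Pool.Agent.Helper70.PRT
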