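import Pool.Agent.Helper70.Ideal
import Pool.Agent.Helper70.PRTDefs

/-! The separating omega-model. -/

namespace Pool.Agent.Helper70.PRT

open Pool.Agent.Helper70 (PC Good J JK)

/-! ### Proof -/

section proof

theorem Tm.primrec_val (t : Tm) : Primrec (fun v : List ℕ => t.val v) := by
  induction t with
  | var i => exact (Primrec.list_getD 0).comp Primrec.id (Primrec.const i)
  | zero => exact Primrec.const 0
  | one => exact Primrec.const 1
  | add s t hs ht => exact Primrec.nat_add.comp hs ht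
  | mul s t hs ht => exact Primrec.nat_mul.comp hs ht

theorem BFm.holds_S {Γ : PC} {P : ℕ → Set ℕ}
    (hP : ∀ i, Γ.S (fun n => n ∈ P i) ∧ Γ.S (fun n => n ∉ P i)) (φ : BFm) :
    Γ.S (fun v => φ.Holds P v) ∧ Γ.S (fun v => ¬ φ.Holds P v) := by
  induction φ with
  | eq s t =>
    have := Primrec.eq.comp s.primrec_val t.primrec_val
    exact ⟨Γ.prim this, Γ.prim this.not⟩
  | lt s t =>
    have := Primrec.nat_lt.comp s.primrec_val t.primrec_val
    exact ⟨Γ.prim this, Γ.prim this.not⟩
  | mem s i =>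
    exact ⟨Γ.comp (R := fun n => n ∈ P i) (f := fun v => s.val v) (hP i).1 s.primrec_val,
      Γ.comp (R := fun n => n ∉ P i) (f := fun v => s.val v) (hP i).2 s.primrec_val⟩
  | neg φ ih =>
    refine ⟨ih.2, PC.of_eq ih.1 fun v => ?_⟩
    simp only [BFm.Holds, not_not]
  | and φ ψ ih1 ih2 =>
    refine ⟨Γ.and ih1.1 ih2.1, PC.of_eq (Γ.or ih1.2 ih2.2) fun v => ?_⟩
    simp only [BFm.Holds, not_and_or]
  | bex t φ ih =>
    have hc : Primrec (fun p : List ℕ × ℕ => p.2 :: p.1) :=
      Primrec.list_cons.comp Primrec.snd Primrec.fst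
    constructor
    · refine PC.ex' (R := fun (v : List ℕ) (x : ℕ) => x < t.val v ∧ φ.Holds P (x :: v)) ?_
      refine Γ.and (Γ.prim ?_) (Γ.comp (f := fun p : List ℕ × ℕ => p.2 :: p.1) ih.1 hc)
      exact Primrec.nat_lt.comp Primrec.snd (t.primrec_val.comp Primrec.fst)
    · have := PC.ball' (R := fun (v : List ℕ) (x : ℕ) => ¬ φ.Holds P (x :: v)) t.primrec_val
        (Γ.comp (f := fun p : List ℕ × ℕ => p.2 :: p.1) ih.2 hc)
      refine PC.of_eq this fun v => ?_
      simp only [BFm.Holds]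
      push Not
      rfl

/-- The second-order part given by a pointclass. -/
def ideal (Γ : PC) : Set (Set ℕ) := {X | Γ.S (fun n => n ∈ X) ∧ Γ.S (fun n => n ∉ X)}

theorem ideal_rca (Γ : PC) : IsOmegaModelRCA0 (ideal Γ) where
  nonempty := ⟨∅, PC.of_eq (PC.const Γ False) (by simp), PC.of_eq (PC.const Γ True) (by simp)⟩
  sigma_induction := by
    intro θ v P _ h0 hs n
    induction n with
    | zero => exact h0
    | succ n ih => exact hs n ih
  delta_comprehension := by
    intro θ η v P hP h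
    have hc : Primrec (fun p : ℕ × ℕ => p.2 :: p.1 :: v) :=
      Primrec.list_cons.comp Primrec.snd (Primrec.list_cons.comp Primrec.fst (Primrec.const v))
    constructor
    · exact PC.ex' (R := fun (n x : ℕ) => θ.Holds P (x :: n :: v))
        (Γ.comp (f := fun p : ℕ × ℕ => p.2 :: p.1 :: v) (BFm.holds_S hP θ).1 hc)
    · have := PC.ex' (R := fun (n x : ℕ) => ¬ η.Holds P (x :: n :: v))
        (Γ.comp (f := fun p : ℕ × ℕ => p.2 :: p.1 :: v) (BFm.holds_S hP η).2 hc)
      refine PC.of_eq this fun n => ?_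
      simp only [Set.mem_ofPred_eq, h]
      push Not
      rfl

theorem ideal_prt {Γ : PC} (hΓ : ∀ (k : ℕ) (f : ℕ → ℕ → Fin k) (φ : ℕ → ℕ),
      Γ.S (fun p : (ℕ × ℕ) × Fin k => f p.1.1 p.1.2 = p.2) →
      Γ.S (fun p : ℕ × ℕ => φ p.1 = p.2) → Pool.Agent.Helper70.Solves Γ f φ) (k : ℕ) :
    PRT2 k (ideal Γ) := by
  intro φ hφ hA f hf
  have hφ' : Γ.S (fun p : ℕ × ℕ => φ p.1 = p.2) := by
    refine PC.of_eq (Γ.comp (f := fun p : ℕ × ℕ => Nat.pair p.1 p.2) hφ.1
      (Primrec₂.natPair.comp Primrec.fst Primrec.snd)) fun p => ?_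
    simp only [codeFun, Set.mem_ofPred_eq, Nat.pair_eq_pair]
    constructor
    · intro h; exact ⟨p.1, rfl, h.symm⟩
    · rintro ⟨x, h1, h2⟩; rw [h1, h2]
  let f' : ℕ → ℕ → Fin k := fun x y => if x < y then f x y else f 0 1
  have hf' : Γ.S (fun p : (ℕ × ℕ) × Fin k => f' p.1.1 p.1.2 = p.2) := by
    have h1 : Γ.S (fun p : (ℕ × ℕ) × Fin k => (p.1.1 < p.1.2 ∧
        Nat.pair (Nat.pair p.1.1 p.1.2) p.2 ∈ codeColoring f) ∨ (¬ p.1.1 < p.1.2 ∧
        f 0 1 = p.2)) := by
      refine Γ.or (Γ.and (Γ.prim ?_) ?_) (Γ.prim (PrimrecPred.and (PrimrecPred.not ?_) ?_))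
      · exact Primrec.nat_lt.comp (Primrec.fst.comp Primrec.fst) (Primrec.snd.comp Primrec.fst)
      · exact Γ.comp (f := fun p : (ℕ × ℕ) × Fin k => Nat.pair (Nat.pair p.1.1 p.1.2) p.2) hf.1
          (Primrec₂.natPair.comp (Primrec₂.natPair.comp (Primrec.fst.comp Primrec.fst)
            (Primrec.snd.comp Primrec.fst)) (Primrec.fin_val.comp Primrec.snd))
      · exact Primrec.nat_lt.comp (Primrec.fst.comp Primrec.fst) (Primrec.snd.comp Primrec.fst)
      · exact Primrec.eq.comp (Primrec.const _) Primrec.snd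
    refine PC.of_eq h1 fun p => ?_
    simp only [f', codeColoring, Set.mem_ofPred_eq, Nat.pair_eq_pair]
    by_cases hlt : p.1.1 < p.1.2
    · simp only [hlt, if_true, true_and, not_true, false_and, or_false]
      constructor
      · intro h; exact ⟨_, _, hlt, ⟨rfl, rfl⟩, by rw [h]⟩
      · rintro ⟨x, y, _, ⟨h2, h3⟩, h4⟩
        rw [h2, h3]
        exact (Fin.ext h4).symm
    · simp only [hlt, if_false, false_and, not_false_eq_true, true_and, false_or]
  obtain ⟨H, h1, h2, c, i, h3⟩ := hΓ k f' φ hf' hφ' hA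
  refine ⟨{n | H n = true}, ⟨?_, ?_⟩, h2, ?_⟩
  · exact Γ.comp (f := fun n : ℕ => (n, true)) h1 (Primrec.id.pair (Primrec.const _))
  · refine PC.of_eq (Γ.comp (f := fun n : ℕ => (n, false)) h1
      (Primrec.id.pair (Primrec.const _))) fun n => ?_
    simp
  · have hsub : {c | ∃ x ∈ {n | H n = true}, ∃ y ∈ {n | H n = true}, x < y ∧ f x y = c} ⊆
        ({c, i} : Set (Fin k)) := by
      rintro d ⟨x, hx, y, hy, hxy, rfl⟩
      have := h3 x y hx hy hxy
      simp only [f', if_pos hxy] at this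
      exact this
    refine (Set.ncard_le_ncard hsub (Set.toFinite _)).trans ?_
    exact (Set.ncard_insert_le c {i}).trans (by simp)

theorem ideal_not_wkl {Γ : PC} (hΓ : Good Γ) : ¬ WKL (ideal Γ) := by
  classical
  intro hW
  let T : Set (List Bool) := {σ | ∀ n < σ.length, ∀ b, JK n b σ.length → σ[n]? = some b}
  have hT1 : ∀ σ ∈ T, ∀ τ, τ <+: σ → τ ∈ T := by
    intro σ hσ τ hτ n hn b hb
    have h1 := hσ n (hn.trans_le hτ.length_le) b
      (Pool.Agent.Helper70.JK_mono hb hτ.length_le)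
    rw [Pool.Agent.Helper70.getElem?_of_prefix hτ hn] at h1
    exact h1
  have hT2 : T.Infinite := by
    have : ∀ n, ∃ σ ∈ T, σ.length = n := by
      intro n
      let g : ℕ → Bool := fun m => if J m true then true else false
      refine ⟨(List.range n).map g, ?_, by simp⟩
      intro m hm b hb
      have hm' : m < n := by simpa using hm
      rw [List.getElem?_map, List.getElem?_range hm']
      have hJ : J m b := ⟨_, hb⟩
      simp only [Option.map_some, g]
      by_cases ht : J m true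
      · simp only [ht, if_true]
        rw [Pool.Agent.Helper70.J_unique ht hJ]
      · simp only [ht, if_false]
        cases b
        · rfl
        · exact absurd hJ ht
    choose σ hσ1 hσ2 using this
    refine Set.infinite_of_injective_forall_mem (f := σ) ?_ hσ1
    intro n m h
    rw [← hσ2 n, ← hσ2 m, h]
  have hT3 : PrimrecPred (fun σ : List Bool => σ ∈ T) := by
    have h1 : PrimrecPred (fun p : (List Bool × ℕ) × Bool =>
        ¬ JK p.1.2 p.2 p.1.1.length ∨ p.1.1[p.1.2]? = some p.2) := by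
      refine PrimrecPred.or (PrimrecPred.not ?_) ?_
      · exact PrimrecPred.comp (f := fun p : (List Bool × ℕ) × Bool =>
          ((p.1.2, p.2), p.1.1.length)) Pool.Agent.Helper70.primrec_JK
          (((Primrec.snd.comp Primrec.fst).pair Primrec.snd).pair
            (Primrec.list_length.comp (Primrec.fst.comp Primrec.fst)))
      · exact Primrec.eq.comp (Primrec.list_getElem?.comp (Primrec.fst.comp Primrec.fst)
          (Primrec.snd.comp Primrec.fst)) (Primrec.option_some.comp Primrec.snd)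
    have h2 : ∀ b : Bool, PrimrecPred (fun p : List Bool × ℕ =>
        ¬ JK p.2 b p.1.length ∨ p.1[p.2]? = some b) := fun b =>
      PrimrecPred.comp (f := fun p : List Bool × ℕ => (p, b)) h1
        (Primrec.id.pair (Primrec.const b))
    have h3 := Pool.Agent.Helper70.primrecPred_ball (PrimrecPred.and (h2 true) (h2 false))
    have h4 := PrimrecPred.comp (f := fun σ : List Bool => (σ, σ.length)) h3
      (Primrec.id.pair Primrec.list_length)
    refine h4.of_eq fun σ => ?_
    simp only [T, Set.mem_ofPred_eq, Bool.forall_bool, imp_iff_not_or]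
    refine forall_congr' fun n => ?_
    by_cases hn : n < σ.length
    · simp only [hn, not_true, false_or]; tauto
    · simp [hn]
  have hT4 : Encodable.encode '' T ∈ ideal Γ := by
    have h1 : PrimrecPred (fun n : ℕ => ∃ σ : List Bool, Encodable.decode (α := List Bool) n =
        some σ ∧ (Encodable.encode σ = n ∧ σ ∈ T)) := by
      have h2 := Pool.Agent.Helper70.primrecPred_decode
        (K := fun p : ℕ × List Bool => Encodable.encode p.2 = p.1 ∧ p.2 ∈ T)
        (PrimrecPred.and (Primrec.eq.comp (Primrec.encode.comp Primrec.snd) Primrec.fst)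
          (hT3.comp Primrec.snd))
      exact PrimrecPred.comp (f := fun n : ℕ => (n, n)) h2 (Primrec.id.pair Primrec.id)
    have h3 : PrimrecPred (fun n : ℕ => n ∈ Encodable.encode '' T) := by
      refine h1.of_eq fun n => ?_
      constructor
      · rintro ⟨σ, _, h4, h5⟩; exact ⟨σ, h5, h4⟩
      · rintro ⟨σ, h5, rfl⟩; exact ⟨σ, Encodable.encodek σ, rfl, h5⟩
    exact ⟨Γ.prim h3, Γ.prim h3.not⟩
  obtain ⟨g, hg1, hg2⟩ := hW T hT1 hT2 hT4
  refine hΓ ⟨g, ?_, fun n b hb => ?_⟩
  · have h1 : Γ.S (fun p : ℕ × Bool => (p.1 ∈ {n | g n = true} ∧ p.2 = true) ∨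
        (p.1 ∉ {n | g n = true} ∧ p.2 = false)) := by
      refine Γ.or (Γ.and ?_ (Γ.prim ?_)) (Γ.and ?_ (Γ.prim ?_))
      · exact Γ.comp (f := fun p : ℕ × Bool => p.1) hg1.1 Primrec.fst
      · exact Primrec.eq.comp Primrec.snd (Primrec.const _)
      · exact Γ.comp (f := fun p : ℕ × Bool => p.1) hg1.2 Primrec.fst
      · exact Primrec.eq.comp Primrec.snd (Primrec.const _)
    refine PC.of_eq h1 fun p => ?_
    obtain ⟨n, b⟩ := p
    simp only [Set.mem_ofPred_eq]
    cases g n <;> cases b <;> simp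
  · obtain ⟨k, hk⟩ := hb
    have h1 := hg2 (max k (n + 1)) n (by simp) b
      (Pool.Agent.Helper70.JK_mono hk (by simp))
    rw [List.getElem?_map, List.getElem?_range (by simp)] at h1
    simpa using h1

end proof

theorem main : ∃ S : Set (Set ℕ), IsOmegaModelRCA0 S ∧ (∀ k, PRT2 k S) ∧ ¬ WKL S := by
  obtain ⟨Γ, h1, h2⟩ := Pool.Agent.Helper70.exists_closed
  exact ⟨ideal Γ, ideal_rca Γ, ideal_prt h2, ideal_not_wkl h1⟩

end Pool.Agent.Helper70.PRT
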