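import Pool.Agent.Helper70.PC

/-! Sigma-1 relations with one set variable over a pointclass. -/

namespace Pool.Agent.Helper70

open Encodable

/-- `τ` is an initial segment of `X`. -/
def Pre (τ : List Bool) (X : ℕ → Bool) : Prop := ∀ i b, τ[i]? = some b → X i = b

/-- the initial segment of `X` of length `n` -/
def res (X : ℕ → Bool) (n : ℕ) : List Bool := (List.range n).map X

@[simp] theorem length_res (X : ℕ → Bool) (n : ℕ) : (res X n).length = n := by simp [res]

theorem getElem?_res (X : ℕ → Bool) (n i : ℕ) :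
    (res X n)[i]? = if i < n then some (X i) else none := by
  unfold res
  by_cases h : i < n
  · simp [h]
  · simp [h]

theorem pre_res (X : ℕ → Bool) (n : ℕ) : Pre (res X n) X := by
  intro i b h
  rw [getElem?_res] at h
  split_ifs at h
  simpa using h

theorem Pre.eq_res {τ : List Bool} {X : ℕ → Bool} (h : Pre τ X) : τ = res X τ.length := by
  apply List.ext_getElem?
  intro i
  rw [getElem?_res]
  by_cases hi : i < τ.length
  · rw [if_pos hi, List.getElem?_eq_getElem hi]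
    rw [h i τ[i] (List.getElem?_eq_getElem hi)]
  · rw [if_neg hi, List.getElem?_eq_none (not_lt.1 hi)]

theorem pre_nil (X : ℕ → Bool) : Pre [] X := by intro i b h; simp at h

theorem Pre.mono {τ σ : List Bool} {X : ℕ → Bool} (h : Pre σ X) (h' : τ <+: σ) : Pre τ X := by
  intro i b hi
  obtain ⟨ρ, rfl⟩ := h'
  refine h i b ?_
  have : i < τ.length := by
    by_contra hc
    rw [List.getElem?_eq_none (not_lt.1 hc)] at hi; cases hi
  rw [List.getElem?_append_left this]; exact hi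

theorem Pre.prefix_res {τ : List Bool} {X : ℕ → Bool} (h : Pre τ X) {n : ℕ}
    (hn : τ.length ≤ n) : τ <+: res X n := by
  rw [List.prefix_iff_eq_take]
  apply List.ext_getElem?
  intro i
  rw [List.getElem?_take]
  by_cases hi : i < τ.length
  · rw [if_pos hi, getElem?_res, if_pos (lt_of_lt_of_le hi hn), List.getElem?_eq_getElem hi]
    rw [h i τ[i] (List.getElem?_eq_getElem hi)]
  · rw [if_neg hi, List.getElem?_eq_none (not_lt.1 hi)]

theorem Pre.comparable {τ σ : List Bool} {X : ℕ → Bool} (h : Pre τ X) (h' : Pre σ X)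
    (hl : τ.length ≤ σ.length) : τ <+: σ := by
  rw [h'.eq_res]; exact h.prefix_res hl

theorem pre_iff_prefix_res {τ : List Bool} {X : ℕ → Bool} {n : ℕ} (hn : τ.length ≤ n) :
    Pre τ X ↔ τ <+: res X n :=
  ⟨fun h => h.prefix_res hn, fun h => (pre_res X n).mono h⟩

theorem primrec_prefix : PrimrecRel (fun (τ σ : List Bool) => τ <+: σ) := by
  have : PrimrecRel (fun (τ σ : List Bool) => τ = σ.take τ.length) :=
    Primrec.eq.comp Primrec.fst (Primrec.list_take.comp (Primrec.list_length.comp Primrec.fst)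
      Primrec.snd)
  exact this.of_eq fun τ σ => (List.prefix_iff_eq_take).symm

namespace PC

variable {Γ : PC}
variable {α β γ : Type} [Primcodable α] [Primcodable β] [Primcodable γ]

variable (Γ) in
/-- Sigma-1 relations with a set variable. -/
def Sig (R : α → (ℕ → Bool) → Prop) : Prop :=
  ∃ V : α × List Bool → Prop, Γ.S V ∧ ∀ a X, R a X ↔ ∃ τ, Pre τ X ∧ V (a, τ)

namespace Sig

theorem of_eq {R Q : α → (ℕ → Bool) → Prop} (h : Γ.Sig R) (H : ∀ a X, Q a X ↔ R a X) :
    Γ.Sig Q := by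
  have : Q = R := funext fun a => funext fun X => propext (H a X)
  rw [this]; exact h

theorem ofS {R : α → Prop} (h : Γ.S R) : Γ.Sig (fun a _ => R a) := by
  refine ⟨fun p => R p.1, Γ.comp h Primrec.fst, fun a X => ?_⟩
  exact ⟨fun h => ⟨[], pre_nil X, h⟩, fun ⟨_, _, h⟩ => h⟩

variable (Γ) in
theorem const (p : Prop) : Γ.Sig (fun (_ : α) _ => p) := ofS (PC.const Γ p)

theorem prim {R : α → Prop} (h : PrimrecPred R) : Γ.Sig (fun a _ => R a) := ofS (Γ.prim h)

theorem bit {f : α → ℕ} {g : α → Bool} (hf : Primrec f) (hg : Primrec g) :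
    Γ.Sig (fun a X => X (f a) = g a) := by
  refine ⟨fun p => p.2[f p.1]? = some (g p.1), Γ.prim ?_, fun a X => ?_⟩
  · exact Primrec.eq.comp (Primrec.list_getElem?.comp Primrec.snd (hf.comp Primrec.fst))
      (Primrec.option_some.comp (hg.comp Primrec.fst))
  · constructor
    · intro h
      refine ⟨res X (f a + 1), pre_res _ _, ?_⟩
      simp only [getElem?_res, Nat.lt_succ_self, if_true, h]
    · rintro ⟨τ, h1, h2⟩
      exact h1 _ _ h2

theorem comp {R : β → (ℕ → Bool) → Prop} {f : α → β} (h : Γ.Sig R) (hf : Primrec f) :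
    Γ.Sig (fun a X => R (f a) X) := by
  obtain ⟨V, hV, hR⟩ := h
  exact ⟨fun p => V (f p.1, p.2), Γ.comp (f := fun p : α × List Bool => (f p.1, p.2)) hV
    ((hf.comp Primrec.fst).pair Primrec.snd), fun a X => hR (f a) X⟩

theorem or {R Q : α → (ℕ → Bool) → Prop} (h : Γ.Sig R) (h' : Γ.Sig Q) :
    Γ.Sig (fun a X => R a X ∨ Q a X) := by
  obtain ⟨V, hV, hR⟩ := h
  obtain ⟨W, hW, hQ⟩ := h'
  refine ⟨fun p => V p ∨ W p, Γ.or hV hW, fun a X => ?_⟩
  simp only [hR, hQ]
  constructor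
  · rintro (⟨τ, h1, h2⟩ | ⟨τ, h1, h2⟩)
    · exact ⟨τ, h1, Or.inl h2⟩
    · exact ⟨τ, h1, Or.inr h2⟩
  · rintro ⟨τ, h1, h2 | h2⟩
    · exact Or.inl ⟨τ, h1, h2⟩
    · exact Or.inr ⟨τ, h1, h2⟩

theorem ex {R : α → β → (ℕ → Bool) → Prop} (h : Γ.Sig (fun (p : α × β) X => R p.1 p.2 X)) :
    Γ.Sig (fun a X => ∃ b, R a b X) := by
  obtain ⟨V, hV, hR⟩ := h
  refine ⟨fun p => ∃ b, V ((p.1, b), p.2), ?_, fun a X => ?_⟩
  · refine PC.ex' (R := fun (p : α × List Bool) (b : β) => V ((p.1, b), p.2)) ?_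
    exact Γ.comp (f := fun q : (α × List Bool) × β => ((q.1.1, q.2), q.1.2)) hV
      (((Primrec.fst.comp Primrec.fst).pair Primrec.snd).pair (Primrec.snd.comp Primrec.fst))
  · constructor
    · rintro ⟨b, hb⟩
      obtain ⟨τ, h1, h2⟩ := (hR (a, b) X).1 hb
      exact ⟨τ, h1, b, h2⟩
    · rintro ⟨τ, h1, b, h2⟩
      exact ⟨b, (hR (a, b) X).2 ⟨τ, h1, h2⟩⟩

/-- The upward closure of a relation on strings stays in the class. -/
theorem up {V : α × List Bool → Prop} (hV : Γ.S V) :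
    Γ.S (fun p : α × List Bool => ∃ τ, τ <+: p.2 ∧ V (p.1, τ)) := by
  refine PC.ex' (R := fun (p : α × List Bool) (τ : List Bool) => τ <+: p.2 ∧ V (p.1, τ)) ?_
  refine Γ.and (Γ.prim ?_) ?_
  · exact primrec_prefix.comp Primrec.snd (Primrec.snd.comp Primrec.fst)
  · exact Γ.comp (f := fun q : (α × List Bool) × List Bool => (q.1.1, q.2)) hV
      ((Primrec.fst.comp Primrec.fst).pair Primrec.snd)

theorem and {R Q : α → (ℕ → Bool) → Prop} (h : Γ.Sig R) (h' : Γ.Sig Q) :
    Γ.Sig (fun a X => R a X ∧ Q a X) := by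
  obtain ⟨V, hV, hR⟩ := h
  obtain ⟨W, hW, hQ⟩ := h'
  refine ⟨_, Γ.and (up hV) (up hW), fun a X => ?_⟩
  simp only [hR, hQ]
  constructor
  · rintro ⟨⟨τ, h1, h2⟩, ⟨σ, h3, h4⟩⟩
    rcases le_total τ.length σ.length with hl | hl
    · exact ⟨σ, h3, ⟨τ, h1.comparable h3 hl, h2⟩, ⟨σ, List.prefix_rfl, h4⟩⟩
    · exact ⟨τ, h1, ⟨τ, List.prefix_rfl, h2⟩, ⟨σ, h3.comparable h1 hl, h4⟩⟩
  · rintro ⟨ρ, h0, ⟨τ, h1, h2⟩, ⟨σ, h3, h4⟩⟩
    exact ⟨⟨τ, h0.mono h1, h2⟩, ⟨σ, h0.mono h3, h4⟩⟩

theorem ball {R : α → ℕ → (ℕ → Bool) → Prop} {f : α → ℕ} (hf : Primrec f)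
    (h : Γ.Sig (fun (p : α × ℕ) X => R p.1 p.2 X)) :
    Γ.Sig (fun a X => ∀ i < f a, R a i X) := by
  obtain ⟨V, hV, hR⟩ := h
  refine ⟨fun p => ∀ i < f p.1, ∃ τ, τ <+: p.2 ∧ V ((p.1, i), τ), ?_, fun a X => ?_⟩
  · refine PC.ball' (R := fun (p : α × List Bool) i => ∃ τ, τ <+: p.2 ∧ V ((p.1, i), τ))
      (f := fun p => f p.1) (hf.comp Primrec.fst) ?_
    exact Γ.comp (f := fun q : (α × List Bool) × ℕ => ((q.1.1, q.2), q.1.2)) (up hV)
      (((Primrec.fst.comp Primrec.fst).pair Primrec.snd).pair (Primrec.snd.comp Primrec.fst))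
  · constructor
    · intro H
      have H' : ∀ i, ∃ τ, i < f a → Pre τ X ∧ V ((a, i), τ) := by
        intro i
        by_cases hi : i < f a
        · obtain ⟨τ, h1⟩ := (hR (a, i) X).1 (H i hi)
          exact ⟨τ, fun _ => h1⟩
        · exact ⟨[], fun h => absurd h hi⟩
      choose τ hτ using H'
      refine ⟨res X ((Finset.range (f a)).sup fun i => (τ i).length), pre_res _ _,
        fun i hi => ⟨τ i, (hτ i hi).1.prefix_res ?_, (hτ i hi).2⟩⟩
      exact Finset.le_sup (f := fun i => (τ i).length) (Finset.mem_range.2 hi)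
    · rintro ⟨σ, h1, h2⟩ i hi
      obtain ⟨τ, h3, h4⟩ := h2 i hi
      exact (hR (a, i) X).2 ⟨τ, h1.mono h3, h4⟩

theorem exFin {ι : Type*} [Finite ι] {R : ι → α → (ℕ → Bool) → Prop} (h : ∀ i, Γ.Sig (R i)) :
    Γ.Sig (fun a X => ∃ i, R i a X) := by
  classical
  have := Fintype.ofFinite ι
  have key : ∀ s : Finset ι, Γ.Sig (fun a X => ∃ i ∈ s, R i a X) := by
    intro s
    induction s using Finset.induction_on with
    | empty => exact of_eq (const Γ False) (by simp)
    | insert i s hi ih => exact of_eq (or (h i) ih) (by simp)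
  exact of_eq (key Finset.univ) (by simp)

theorem allFin {ι : Type*} [Finite ι] {R : ι → α → (ℕ → Bool) → Prop} (h : ∀ i, Γ.Sig (R i)) :
    Γ.Sig (fun a X => ∀ i, R i a X) := by
  classical
  have := Fintype.ofFinite ι
  have key : ∀ s : Finset ι, Γ.Sig (fun a X => ∀ i ∈ s, R i a X) := by
    intro s
    induction s using Finset.induction_on with
    | empty => exact of_eq (const Γ True) (by simp)
    | insert i s hi ih => exact of_eq (and (h i) ih) (by simp)
  exact of_eq (key Finset.univ) (by simp)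

theorem pre {f : α → List Bool} (hf : Primrec f) : Γ.Sig (fun a X => Pre (f a) X) := by
  refine ⟨fun p => f p.1 <+: p.2, Γ.prim ?_, fun a X => ?_⟩
  · exact primrec_prefix.comp (hf.comp Primrec.fst) Primrec.snd
  · exact ⟨fun h => ⟨f a, h, List.prefix_rfl⟩, fun ⟨τ, h1, h2⟩ => h1.mono h2⟩

theorem not_pre {f : α → List Bool} (hf : Primrec f) : Γ.Sig (fun a X => ¬ Pre (f a) X) := by
  refine ⟨fun p => (f p.1).length ≤ p.2.length ∧ ¬ (f p.1 <+: p.2),
    Γ.and (Γ.prim ?_) (Γ.prim ?_), fun a X => ?_⟩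
  · exact Primrec.nat_le.comp (Primrec.list_length.comp (hf.comp Primrec.fst))
      (Primrec.list_length.comp Primrec.snd)
  · exact (primrec_prefix.comp (hf.comp Primrec.fst) Primrec.snd).not
  · constructor
    · intro h
      refine ⟨res X (f a).length, pre_res _ _, by simp, fun h' => h ((pre_res _ _).mono h')⟩
    · rintro ⟨τ, h1, h2, h3⟩ h4
      exact h3 (h4.comparable h1 h2)

/-- Sections of Sigma-1 relations are open. -/
theorem isOpen {R : α → (ℕ → Bool) → Prop} (h : Γ.Sig R) (a : α) : IsOpen {X | R a X} := by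
  obtain ⟨V, _, hR⟩ := h
  have : {X | R a X} = ⋃ τ : {τ : List Bool // V (a, τ)}, {X | Pre τ.1 X} := by
    ext X
    simp only [Set.mem_ofPred_eq, Set.mem_iUnion, Subtype.exists]
    rw [hR]
    constructor
    · rintro ⟨τ, h1, h2⟩; exact ⟨τ, h2, h1⟩
    · rintro ⟨τ, h1, h2⟩; exact ⟨τ, h2, h1⟩
  rw [this]
  refine isOpen_iUnion fun τ => ?_
  have : {X | Pre τ.1 X} = ⋂ i ∈ Finset.range τ.1.length,
      {X : ℕ → Bool | ∀ b, τ.1[i]? = some b → X i = b} := by
    ext X
    simp only [Pre, Set.mem_ofPred_eq, Finset.mem_range, Set.mem_iInter]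
    constructor
    · intro h i _ b hb; exact h i b hb
    · intro h i b hb
      refine h i ?_ b hb
      by_contra hc
      rw [List.getElem?_eq_none (not_lt.1 hc)] at hb; cases hb
  rw [this]
  refine isOpen_biInter_finset fun i _ => ?_
  have : {X : ℕ → Bool | ∀ b, τ.1[i]? = some b → X i = b} =
      (fun X : ℕ → Bool => X i) ⁻¹' {c | ∀ b, τ.1[i]? = some b → c = b} := rfl
  rw [this]
  exact (isOpen_discrete _).preimage (continuous_apply i)

/-- Compactness: quantification over all sets keeps a relation Sigma-1. -/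
theorem allX {R : α → (ℕ → Bool) → Prop} (h : Γ.Sig R) : Γ.S (fun a => ∀ X, R a X) := by
  obtain ⟨V, hV, hR⟩ := h
  have h1 : Γ.S (fun a => ∃ N : ℕ, ∀ s : List Bool, s.length = N → ∃ τ, τ <+: s ∧ V (a, τ)) := by
    refine PC.ex' (R := fun (a : α) (N : ℕ) => ∀ s : List Bool, s.length = N →
      ∃ τ, τ <+: s ∧ V (a, τ)) ?_
    refine PC.allLen (R := fun (p : α × ℕ) s => ∃ τ, τ <+: s ∧ V (p.1, τ)) Primrec.snd ?_
    exact Γ.comp (f := fun q : (α × ℕ) × List Bool => (q.1.1, q.2)) (up hV)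
      ((Primrec.fst.comp Primrec.fst).pair Primrec.snd)
  refine PC.of_eq h1 fun a => ?_
  constructor
  · intro H
    -- compactness
    let U : ℕ → Set (ℕ → Bool) := fun N => {X | ∃ τ, τ <+: res X N ∧ V (a, τ)}
    have hUo : ∀ N, IsOpen (U N) := by
      intro N
      have hs : Γ.Sig (fun (_ : Unit) X => ∃ s : List Bool, (s.length = N ∧
          ∃ τ, τ <+: s ∧ V (a, τ)) ∧ Pre s X) := by
        refine ex (R := fun (_ : Unit) (s : List Bool) X => (s.length = N ∧
          ∃ τ, τ <+: s ∧ V (a, τ)) ∧ Pre s X) ?_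
        refine and (ofS (Γ.and (Γ.prim ?_) ?_)) (pre Primrec.snd)
        · exact Primrec.eq.comp (Primrec.list_length.comp Primrec.snd) (Primrec.const N)
        · exact Γ.comp (f := fun q : Unit × List Bool => (a, q.2)) (up hV)
            ((Primrec.const a).pair Primrec.snd)
      have := hs.isOpen ()
      convert this using 1
      ext X
      simp only [Set.mem_ofPred_eq, U]
      constructor
      · rintro ⟨τ, h1, h2⟩; exact ⟨res X N, ⟨by simp, τ, h1, h2⟩, pre_res _ _⟩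
      · rintro ⟨s, ⟨h1, τ, h2, h3⟩, h4⟩
        refine ⟨τ, ?_, h3⟩
        rw [← h1, ← h4.eq_res]; exact h2
    have hmono : Monotone U := by
      intro N M hNM X hX
      obtain ⟨τ, h1, h2⟩ := hX
      exact ⟨τ, h1.trans ((pre_res X N).prefix_res (by simpa using hNM)), h2⟩
    have hcov : (Set.univ : Set (ℕ → Bool)) ⊆ ⋃ N, U N := by
      intro X _
      obtain ⟨τ, h1, h2⟩ := (hR a X).1 (H X)
      exact Set.mem_iUnion.2 ⟨τ.length, τ, h1.prefix_res le_rfl, h2⟩
    obtain ⟨N, hN⟩ := isCompact_univ.elim_directed_cover U hUo hcov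
      (hmono.directed_le)
    refine ⟨N, fun s hs => ?_⟩
    let X : ℕ → Bool := fun i => s[i]?.getD false
    have hX : Pre s X := by
      intro i b hb
      simp [X, hb]
    obtain ⟨τ, h1, h2⟩ := hN (Set.mem_univ X)
    refine ⟨τ, ?_, h2⟩
    rw [hX.eq_res, hs]; exact h1
  · rintro ⟨N, hN⟩ X
    obtain ⟨τ, h1, h2⟩ := hN (res X N) (by simp)
    exact (hR a X).2 ⟨τ, (pre_res X N).mono h1, h2⟩

/-- Substitution of a uniformly Delta-1 operator for the set variable. -/
theorem substX {R : α → (ℕ → Bool) → Prop} (h : Γ.Sig R) {Ψ : α → (ℕ → Bool) → (ℕ → Bool)}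
    (hΨ : Γ.Sig (fun (p : α × (ℕ × Bool)) X => Ψ p.1 X p.2.1 = p.2.2)) :
    Γ.Sig (fun a X => R a (Ψ a X)) := by
  obtain ⟨V, hV, hR⟩ := h
  have h1 : Γ.Sig (fun a X => ∃ τ : List Bool, V (a, τ) ∧
      ∀ i < τ.length, ∃ b : Bool, τ[i]? = some b ∧ Ψ a X i = b) := by
    refine ex (R := fun a (τ : List Bool) X => V (a, τ) ∧
      ∀ i < τ.length, ∃ b : Bool, τ[i]? = some b ∧ Ψ a X i = b) ?_
    refine and (ofS hV) ?_
    refine ball (R := fun (p : α × List Bool) i X => ∃ b : Bool, p.2[i]? = some b ∧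
      Ψ p.1 X i = b) (f := fun p => p.2.length) (Primrec.list_length.comp Primrec.snd) ?_
    refine ex (R := fun (p : (α × List Bool) × ℕ) (b : Bool) X => p.1.2[p.2]? = some b ∧
      Ψ p.1.1 X p.2 = b) ?_
    refine and (prim ?_) ?_
    · exact Primrec.eq.comp (Primrec.list_getElem?.comp
        (Primrec.snd.comp (Primrec.fst.comp Primrec.fst)) (Primrec.snd.comp Primrec.fst))
        (Primrec.option_some.comp Primrec.snd)
    · exact comp (f := fun q : ((α × List Bool) × ℕ) × Bool => (q.1.1.1, (q.1.2, q.2))) hΨ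
        ((Primrec.fst.comp (Primrec.fst.comp Primrec.fst)).pair
          ((Primrec.snd.comp Primrec.fst).pair Primrec.snd))
  refine of_eq h1 fun a X => ?_
  rw [hR]
  constructor
  · rintro ⟨τ, h1, h2⟩
    refine ⟨τ, h2, fun i hi => ⟨τ[i], by simp [hi], h1 i _ (by simp [hi])⟩⟩
  · rintro ⟨τ, h1, h2⟩
    refine ⟨τ, fun i b hb => ?_, h1⟩
    have hi : i < τ.length := by
      by_contra hc
      rw [List.getElem?_eq_none (not_lt.1 hc)] at hb; cases hb
    obtain ⟨b', h3, h4⟩ := h2 i hi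
    rw [hb] at h3; cases h3; exact h4

end Sig

end PC

end Pool.Agent.Helper70
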