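import Pool.Agent.Helper70.Blocks

/-! Solving one instance of the packed Ramsey theorem while avoiding extensions of `J`. -/

namespace Pool.Agent.Helper70

open Encodable

/-- inclusion of pointclasses -/
def PC.Le (Γ Δ : PC) : Prop := ∀ (α : Type) [Primcodable α] (R : α → Prop), Γ.S R → Δ.S R

theorem PC.Le.refl (Γ : PC) : Γ.Le Γ := fun _ _ _ h => h

theorem PC.Le.trans {Γ Δ Λ : PC} (h : Γ.Le Δ) (h' : Δ.Le Λ) : Γ.Le Λ :=
  fun α _ R hR => h' α R (h α R hR)

theorem PC.le_adj (Γ : PC) (G : ℕ → Bool) : Γ.Le (Γ.adj G) := fun _ _ _ h => PC.adj_S h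

section eff

variable {Γ : PC} {k : ℕ} {f : ℕ → ℕ → Fin k} {ψ : ℕ → ℕ} {c : Fin k}
variable {α : Type} [Primcodable α]

theorem S_forall_mem {R : α → ℕ → Prop} {g : α → List ℕ} (hg : Primrec g)
    (h : Γ.S (fun p : α × ℕ => R p.1 p.2)) : Γ.S (fun a => ∀ x ∈ g a, R a x) :=
  PC.ballList hg h

theorem S_Blk (hf : Γ.S (fun p : (ℕ × ℕ) × Fin k => f p.1.1 p.1.2 = p.2))
    (hψ : Γ.S (fun p : ℕ × ℕ => ψ p.1 = p.2)) {N : α → ℕ} (hN : Primrec N)
    {B : α → List ℕ} (hB : Primrec B) :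
    Γ.S (fun a => Blk f ψ c (N a) (B a)) := by
  have h1 : Γ.S (fun a => B a ≠ []) := Γ.prim (PrimrecPred.not (Primrec.eq.comp hB
    (Primrec.const [])))
  have h2 : Γ.S (fun a => (B a).Pairwise (· < ·)) := by
    have : Γ.S (fun a => ∀ i < (B a).length, ∀ j < (B a).length, (¬ i < j ∨
        ∃ x y, ((B a)[i]? = some x ∧ (B a)[j]? = some y) ∧ x < y)) := by
      refine PC.ball' (R := fun a i => ∀ j < (B a).length, (¬ i < j ∨
        ∃ x y, ((B a)[i]? = some x ∧ (B a)[j]? = some y) ∧ x < y))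
        (Primrec.list_length.comp hB) ?_
      refine PC.ball' (R := fun (p : α × ℕ) j => (¬ p.2 < j ∨
        ∃ x y, ((B p.1)[p.2]? = some x ∧ (B p.1)[j]? = some y) ∧ x < y))
        (f := fun p => (B p.1).length) (Primrec.list_length.comp (hB.comp Primrec.fst)) ?_
      refine Γ.or (Γ.prim ?_) ?_
      · exact (Primrec.nat_lt.comp (Primrec.snd.comp Primrec.fst) Primrec.snd).not
      · refine PC.ex' (R := fun (q : (α × ℕ) × ℕ) (x : ℕ) => ∃ y : ℕ,
          ((B q.1.1)[q.1.2]? = some x ∧ (B q.1.1)[q.2]? = some y) ∧ x < y) ?_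
        refine PC.ex' (R := fun (q : ((α × ℕ) × ℕ) × ℕ) (y : ℕ) =>
          ((B q.1.1.1)[q.1.1.2]? = some q.2 ∧ (B q.1.1.1)[q.1.2]? = some y) ∧ q.2 < y) ?_
        refine Γ.prim (PrimrecPred.and (PrimrecPred.and ?_ ?_) ?_)
        · exact Primrec.eq.comp (Primrec.list_getElem?.comp
            (hB.comp (Primrec.fst.comp (Primrec.fst.comp (Primrec.fst.comp Primrec.fst))))
            (Primrec.snd.comp (Primrec.fst.comp (Primrec.fst.comp Primrec.fst))))
            (Primrec.option_some.comp (Primrec.snd.comp Primrec.fst))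
        · exact Primrec.eq.comp (Primrec.list_getElem?.comp
            (hB.comp (Primrec.fst.comp (Primrec.fst.comp (Primrec.fst.comp Primrec.fst))))
            (Primrec.snd.comp (Primrec.fst.comp Primrec.fst)))
            (Primrec.option_some.comp Primrec.snd)
        · exact Primrec.nat_lt.comp (Primrec.snd.comp Primrec.fst) Primrec.snd
    refine PC.of_eq this fun a => ?_
    rw [List.pairwise_iff_getElem]
    constructor
    · intro H i hi j hj
      by_cases hij : i < j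
      · exact Or.inr ⟨(B a)[i], (B a)[j], ⟨by simp [hi], by simp [hj]⟩, H i j hi hj hij⟩
      · exact Or.inl hij
    · intro H i j hi hj hij
      rcases H i hi j hj with h | ⟨x, y, ⟨hx, hy⟩, hxy⟩
      · exact absurd hij h
      · rw [List.getElem?_eq_getElem hi] at hx
        rw [List.getElem?_eq_getElem hj] at hy
        cases hx; cases hy; exact hxy
  have h3 : Γ.S (fun a => ∃ w, (∀ x ∈ B a, x ≤ w) ∧ ψ w ≤ (B a).length) := by
    have : Γ.S (fun a => ∃ w : ℕ, (∀ x ∈ B a, x ≤ w) ∧ ∃ m : ℕ, ψ w = m ∧ m ≤ (B a).length) := by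
      refine PC.ex' (R := fun (a : α) (w : ℕ) => (∀ x ∈ B a, x ≤ w) ∧ ∃ m : ℕ, ψ w = m ∧
        m ≤ (B a).length) (Γ.and ?_ ?_)
      · refine PC.ballList (R := fun (p : α × ℕ) x => x ≤ p.2) (L := fun p => B p.1)
          (hB.comp Primrec.fst) (Γ.prim ?_)
        exact Primrec.nat_le.comp Primrec.snd (Primrec.snd.comp Primrec.fst)
      · refine PC.ex' (R := fun (p : α × ℕ) (m : ℕ) => ψ p.2 = m ∧ m ≤ (B p.1).length)
          (Γ.and ?_ (Γ.prim ?_))
        · exact Γ.comp (f := fun q : (α × ℕ) × ℕ => (q.1.2, q.2)) hψ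
            ((Primrec.snd.comp Primrec.fst).pair Primrec.snd)
        · exact Primrec.nat_le.comp Primrec.snd
            (Primrec.list_length.comp (hB.comp (Primrec.fst.comp Primrec.fst)))
    exact PC.of_eq this fun a => by simp
  have h4 : Γ.S (fun a => ∀ x ∈ B a, N a ≤ x) :=
    PC.ballList (R := fun a x => N a ≤ x) hB (Γ.prim (Primrec.nat_le.comp (hN.comp Primrec.fst)
      Primrec.snd))
  have h5 : Γ.S (fun a => ∀ x ∈ B a, ∀ y ∈ B a, x < y → f x y = c) := by
    have : Γ.S (fun a => ∀ x ∈ B a, ∀ y ∈ B a, (¬ x < y) ∨ f x y = c) := by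
      refine PC.ballList (R := fun a x => ∀ y ∈ B a, (¬ x < y) ∨ f x y = c) hB ?_
      refine PC.ballList (R := fun (p : α × ℕ) y => (¬ p.2 < y) ∨ f p.2 y = c)
        (L := fun p => B p.1) (hB.comp Primrec.fst) ?_
      refine Γ.or (Γ.prim ?_) ?_
      · exact (Primrec.nat_lt.comp (Primrec.snd.comp Primrec.fst) Primrec.snd).not
      · exact Γ.comp (f := fun q : (α × ℕ) × ℕ => ((q.1.2, q.2), c)) hf
          (((Primrec.snd.comp Primrec.fst).pair Primrec.snd).pair (Primrec.const c))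
    exact PC.of_eq this fun a => by simp only [imp_iff_not_or]
  exact Γ.and h1 (Γ.and h2 (Γ.and h3 (Γ.and h4 h5)))

theorem S_FF (hf : Γ.S (fun p : (ℕ × ℕ) × Fin k => f p.1.1 p.1.2 = p.2))
    (hψ : Γ.S (fun p : ℕ × ℕ => ψ p.1 = p.2)) (j : ℕ) : Γ.S (FF f ψ c j) := by
  refine PC.Sig.allX (R := fun (l : List ℕ) X => (∃ n, n ∈ l ∧ ∀ ν < j.unpair.1,
    X (Nat.pair ν n) = false) ∨ ∃ ν, ν < j.unpair.1 ∧ ∃ B : List ℕ, (∀ x ∈ B, x ∈ l) ∧
    (∀ x ∈ B, X (Nat.pair ν x) = true) ∧ Blk f ψ c j.unpair.2 B) ?_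
  refine PC.Sig.or ?_ ?_
  · refine PC.Sig.ex (R := fun (l : List ℕ) (n : ℕ) X => n ∈ l ∧ ∀ ν < j.unpair.1,
      X (Nat.pair ν n) = false) (PC.Sig.and (PC.Sig.prim ?_) ?_)
    · exact primrec_mem.comp Primrec.snd Primrec.fst
    · refine PC.Sig.ball (R := fun (p : List ℕ × ℕ) ν X => X (Nat.pair ν p.2) = false)
        (f := fun _ => j.unpair.1) (Primrec.const _) ?_
      exact PC.Sig.bit (f := fun q : (List ℕ × ℕ) × ℕ => Nat.pair q.2 q.1.2)
        (g := fun _ => false) (Primrec₂.natPair.comp Primrec.snd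
          (Primrec.snd.comp Primrec.fst)) (Primrec.const _)
  · refine PC.Sig.ex (R := fun (l : List ℕ) (ν : ℕ) X => ν < j.unpair.1 ∧ ∃ B : List ℕ,
      (∀ x ∈ B, x ∈ l) ∧ (∀ x ∈ B, X (Nat.pair ν x) = true) ∧ Blk f ψ c j.unpair.2 B)
      (PC.Sig.and (PC.Sig.prim ?_) ?_)
    · exact Primrec.nat_lt.comp Primrec.snd (Primrec.const _)
    refine PC.Sig.ex (R := fun (p : List ℕ × ℕ) (B : List ℕ) X =>
      (∀ x ∈ B, x ∈ p.1) ∧ (∀ x ∈ B, X (Nat.pair p.2 x) = true) ∧ Blk f ψ c j.unpair.2 B)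
      (PC.Sig.and (PC.Sig.ofS ?_) (PC.Sig.and ?_ (PC.Sig.ofS ?_)))
    · refine PC.ballList (R := fun (q : (List ℕ × ℕ) × List ℕ) x => x ∈ q.1.1)
        (L := fun q => q.2) Primrec.snd (Γ.prim ?_)
      exact primrec_mem.comp Primrec.snd (Primrec.fst.comp (Primrec.fst.comp Primrec.fst))
    · have h4 : Γ.Sig (fun (q : (List ℕ × ℕ) × List ℕ) X => ∀ i < q.2.length, ∃ n : ℕ,
          q.2[i]? = some n ∧ X (Nat.pair q.1.2 n) = true) := by
        refine PC.Sig.ball (R := fun (q : (List ℕ × ℕ) × List ℕ) i X => ∃ n : ℕ,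
          q.2[i]? = some n ∧ X (Nat.pair q.1.2 n) = true)
          (Primrec.list_length.comp Primrec.snd) ?_
        refine PC.Sig.ex (R := fun (p : ((List ℕ × ℕ) × List ℕ) × ℕ) (n : ℕ) X =>
          p.1.2[p.2]? = some n ∧ X (Nat.pair p.1.1.2 n) = true) ?_
        refine PC.Sig.and (PC.Sig.prim ?_) ?_
        · exact Primrec.eq.comp (Primrec.list_getElem?.comp
            (Primrec.snd.comp (Primrec.fst.comp Primrec.fst)) (Primrec.snd.comp Primrec.fst))
            (Primrec.option_some.comp Primrec.snd)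
        · exact PC.Sig.bit (f := fun r : (((List ℕ × ℕ) × List ℕ) × ℕ) × ℕ =>
            Nat.pair r.1.1.1.2 r.2) (g := fun _ => true)
            (Primrec₂.natPair.comp (Primrec.snd.comp (Primrec.fst.comp (Primrec.fst.comp
              Primrec.fst))) Primrec.snd) (Primrec.const _)
      refine PC.Sig.of_eq h4 fun p x => ?_
      constructor
      · intro H i hi
        exact ⟨p.2[i], by simp [hi], H _ (List.getElem_mem hi)⟩
      · intro H n hn
        obtain ⟨i, hi, rfl⟩ := List.getElem_of_mem hn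
        obtain ⟨n, h5, h6⟩ := H i hi
        rw [List.getElem?_eq_getElem hi] at h5
        cases h5; exact h6
    · exact S_Blk hf hψ (Primrec.const _) Primrec.snd

end eff

/-- graph of an iteration -/
theorem S_iterate {Γ : PC} {β : Type} [Primcodable β] {t : β → β}
    (ht : Γ.S (fun p : β × β => t p.1 = p.2)) (b0 : β) :
    Γ.S (fun p : ℕ × β => t^[p.1] b0 = p.2) := by
  have h1 : Γ.S (fun p : ℕ × β => ∃ L : List β, (L[0]? = some b0 ∧
      (∀ i < p.1, ∃ a b, (L[i]? = some a ∧ L[i + 1]? = some b) ∧ t a = b)) ∧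
      L[p.1]? = some p.2) := by
    refine PC.ex' (R := fun (p : ℕ × β) (L : List β) => (L[0]? = some b0 ∧
      (∀ i < p.1, ∃ a b, (L[i]? = some a ∧ L[i + 1]? = some b) ∧ t a = b)) ∧
      L[p.1]? = some p.2) ?_
    refine Γ.and (Γ.and (Γ.prim ?_) ?_) (Γ.prim ?_)
    · exact Primrec.eq.comp (Primrec.list_getElem?.comp Primrec.snd (Primrec.const 0))
        (Primrec.const _)
    · refine PC.ball' (R := fun (q : (ℕ × β) × List β) i => ∃ a b,
        (q.2[i]? = some a ∧ q.2[i + 1]? = some b) ∧ t a = b) (f := fun q => q.1.1)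
        (Primrec.fst.comp Primrec.fst) ?_
      refine PC.ex' (R := fun (q : ((ℕ × β) × List β) × ℕ) (a : β) => ∃ b,
        (q.1.2[q.2]? = some a ∧ q.1.2[q.2 + 1]? = some b) ∧ t a = b) ?_
      refine PC.ex' (R := fun (q : (((ℕ × β) × List β) × ℕ) × β) (b : β) =>
        (q.1.1.2[q.1.2]? = some q.2 ∧ q.1.1.2[q.1.2 + 1]? = some b) ∧ t q.2 = b) ?_
      refine Γ.and (Γ.prim (PrimrecPred.and ?_ ?_)) ?_
      · exact Primrec.eq.comp (Primrec.list_getElem?.comp
          (Primrec.snd.comp (Primrec.fst.comp (Primrec.fst.comp Primrec.fst)))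
          (Primrec.snd.comp (Primrec.fst.comp Primrec.fst)))
          (Primrec.option_some.comp (Primrec.snd.comp Primrec.fst))
      · exact Primrec.eq.comp (Primrec.list_getElem?.comp
          (Primrec.snd.comp (Primrec.fst.comp (Primrec.fst.comp Primrec.fst)))
          (Primrec.succ.comp (Primrec.snd.comp (Primrec.fst.comp Primrec.fst))))
          (Primrec.option_some.comp Primrec.snd)
      · exact Γ.comp (f := fun q : ((((ℕ × β) × List β) × ℕ) × β) × β => (q.1.2, q.2)) ht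
          ((Primrec.snd.comp Primrec.fst).pair Primrec.snd)
    · exact Primrec.eq.comp (Primrec.list_getElem?.comp Primrec.snd
        (Primrec.fst.comp Primrec.fst)) (Primrec.option_some.comp (Primrec.snd.comp Primrec.fst))
  refine PC.of_eq h1 fun p => ?_
  obtain ⟨n, b⟩ := p
  simp only
  constructor
  · rintro rfl
    refine ⟨(List.range (n + 1)).map (fun i => t^[i] b0), ⟨by simp, fun i hi =>
      ⟨t^[i] b0, t^[i + 1] b0, ⟨?_, ?_⟩, ?_⟩⟩, ?_⟩
    · rw [List.getElem?_map, List.getElem?_range (by omega)]; rfl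
    · rw [List.getElem?_map, List.getElem?_range (by omega)]; rfl
    · rw [Function.iterate_succ_apply']
    · rw [List.getElem?_map, List.getElem?_range (by omega)]; rfl
  · rintro ⟨L, ⟨h0, h1⟩, h2⟩
    have key : ∀ i, i ≤ n → L[i]? = some (t^[i] b0) := by
      intro i
      induction i with
      | zero => intro _; exact h0
      | succ i ih =>
        intro hi
        obtain ⟨a, b', ⟨h3, h4⟩, h5⟩ := h1 i (by omega)
        rw [ih (by omega)] at h3
        cases h3
        rw [h4, ← h5, Function.iterate_succ_apply']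
    have := key n le_rfl
    rw [h2] at this
    exact (Option.some.inj this).symm

/-- Thinning a large set of blocks to a semi-homogeneous set. -/
theorem thin {Γ : PC} {k : ℕ} {f : ℕ → ℕ → Fin k} {ψ : ℕ → ℕ} {c i : Fin k}
    (hf : Γ.S (fun p : (ℕ × ℕ) × Fin k => f p.1.1 p.1.2 = p.2))
    (hψ : Γ.S (fun p : ℕ × ℕ => ψ p.1 = p.2))
    {G : ℕ → Bool} (hG : Γ.S (fun p : ℕ × Bool => G p.1 = p.2))
    (hGL : (LB f ψ c).Large {n | G n = true})
    (hGi : ∀ x, G x = true → ∃ N, ∀ y, N ≤ y → G y = true → f x y = i) :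
    ∃ H : ℕ → Bool, Γ.S (fun p : ℕ × Bool => H p.1 = p.2) ∧
      (∀ N, ∃ B, Blk f ψ c N B ∧ ∀ x ∈ B, H x = true) ∧
      ∀ x y, H x = true → H y = true → x < y → f x y = c ∨ f x y = i := by
  classical
  -- the step relation
  let T : List Bool → List Bool → Prop := fun σ τ => ∃ B : List ℕ, Blk f ψ c (σ.length + 1) B ∧
    (∀ x ∈ B, G x = true) ∧ (∀ x ∈ B, ∀ y < σ.length, (¬ σ[y]? = some true) ∨ f y x = i) ∧
    Ext σ τ {n | n ∈ B} ∧ (∀ x ∈ B, τ[x]? = some true)
  let bad : List Bool → Prop := fun σ => ∃ n, σ[n]? = some true ∧ G n = false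
  have hS : Γ.S (fun p : List Bool × List Bool => T p.1 p.2 ∨ bad p.1) := by
    refine Γ.or ?_ ?_
    · refine PC.ex' (R := fun (p : List Bool × List Bool) (B : List ℕ) =>
        Blk f ψ c (p.1.length + 1) B ∧
        (∀ x ∈ B, G x = true) ∧ (∀ x ∈ B, ∀ y < p.1.length, (¬ p.1[y]? = some true) ∨ f y x = i) ∧
        Ext p.1 p.2 {n | n ∈ B} ∧ (∀ x ∈ B, p.2[x]? = some true)) ?_
      refine Γ.and ?_ (Γ.and ?_ (Γ.and ?_ (Γ.and ?_ ?_)))
      · exact S_Blk (N := fun q : (List Bool × List Bool) × List ℕ => q.1.1.length + 1)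
          (B := fun q => q.2) hf hψ
          (Primrec.succ.comp (Primrec.list_length.comp (Primrec.fst.comp Primrec.fst)))
          Primrec.snd
      · refine PC.ballList (R := fun (q : (List Bool × List Bool) × List ℕ) x => G x = true)
          (L := fun q => q.2) Primrec.snd ?_
        exact Γ.comp (f := fun r : ((List Bool × List Bool) × List ℕ) × ℕ => (r.2, true)) hG
          (Primrec.snd.pair (Primrec.const true))
      · refine PC.ballList (R := fun (q : (List Bool × List Bool) × List ℕ) x =>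
          ∀ y < q.1.1.length, (¬ q.1.1[y]? = some true) ∨ f y x = i)
          (L := fun q => q.2) Primrec.snd ?_
        refine PC.ball' (R := fun (r : ((List Bool × List Bool) × List ℕ) × ℕ) y =>
          (¬ r.1.1.1[y]? = some true) ∨ f y r.2 = i) (f := fun r => r.1.1.1.length)
          (Primrec.list_length.comp (Primrec.fst.comp (Primrec.fst.comp Primrec.fst))) ?_
        refine Γ.or (Γ.prim (PrimrecPred.not ?_)) ?_
        · exact Primrec.eq.comp (Primrec.list_getElem?.comp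
            (Primrec.fst.comp (Primrec.fst.comp (Primrec.fst.comp Primrec.fst))) Primrec.snd)
            (Primrec.const _)
        · exact Γ.comp (f := fun s : (((List Bool × List Bool) × List ℕ) × ℕ) × ℕ =>
            ((s.2, s.1.2), i)) hf
            ((Primrec.snd.pair (Primrec.snd.comp Primrec.fst)).pair (Primrec.const i))
      · refine PC.Sig.toS (PC.Sig.ext (f := fun q : (List Bool × List Bool) × List ℕ => q.1.1)
          (g := fun q => q.1.2) (X := fun q _ => {n | n ∈ q.2})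
          (Primrec.fst.comp Primrec.fst) (Primrec.snd.comp Primrec.fst) (PC.Sig.prim ?_))
        exact primrec_mem.comp Primrec.snd (Primrec.snd.comp Primrec.fst)
      · refine PC.ballList (R := fun (q : (List Bool × List Bool) × List ℕ) x =>
          q.1.2[x]? = some true) (L := fun q => q.2) Primrec.snd (Γ.prim ?_)
        exact Primrec.eq.comp (Primrec.list_getElem?.comp
            (Primrec.snd.comp (Primrec.fst.comp Primrec.fst)) Primrec.snd) (Primrec.const _)
    · refine PC.ex' (R := fun (p : List Bool × List Bool) (n : ℕ) =>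
        p.1[n]? = some true ∧ G n = false) (Γ.and (Γ.prim ?_) ?_)
      · exact Primrec.eq.comp (Primrec.list_getElem?.comp
            (Primrec.fst.comp Primrec.fst) Primrec.snd) (Primrec.const _)
      · exact Γ.comp (f := fun r : (List Bool × List Bool) × ℕ => (r.2, false)) hG
          (Primrec.snd.pair (Primrec.const false))
  have htot : ∀ σ, ∃ τ, T σ τ ∨ bad σ := by
    intro σ
    by_cases hb : bad σ
    · exact ⟨[], Or.inr hb⟩
    · have hok : ∀ n, σ[n]? = some true → G n = true := by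
        intro n hn
        by_contra h
        exact hb ⟨n, hn, by simpa using h⟩
      have h1 : ∀ y, ∃ N, σ[y]? = some true → ∀ x, N ≤ x → G x = true → f y x = i := by
        intro y
        by_cases h : σ[y]? = some true
        · obtain ⟨N, hN⟩ := hGi y (hok y h)
          exact ⟨N, fun _ => hN⟩
        · exact ⟨0, fun h' => absurd h' h⟩
      choose Nf hNf using h1
      obtain ⟨B, hB1, hB2⟩ := exists_blk hGL
        (max (σ.length + 1) ((Finset.range σ.length).sup Nf))
      obtain ⟨τ, ht1, ht2, _⟩ := exists_ext σ B (fun n hn => by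
        have := hB1.2.2.2.1 n hn
        omega) 0
      refine ⟨τ, Or.inl ⟨B, hB1.mono (le_max_left _ _), hB2, fun x hx y hy => ?_, ht1, ht2⟩⟩
      by_cases h : σ[y]? = some true
      · right
        refine hNf y h x ?_ (hB2 x hx)
        have h2 := hB1.2.2.2.1 x hx
        have h3 : Nf y ≤ (Finset.range σ.length).sup Nf :=
          Finset.le_sup (f := Nf) (Finset.mem_range.2 hy)
        omega
      · exact Or.inl h
  obtain ⟨t, ht1, ht2⟩ := PC.unif (R := fun σ τ => T σ τ ∨ bad σ) hS htot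
  let s : ℕ → List Bool := fun n => t^[n] []
  have hs : ∀ n, s (n + 1) = t (s n) := fun n => Function.iterate_succ_apply' t n []
  have hok : ∀ n, ¬ bad (s n) ∧ T (s n) (s (n + 1)) := by
    intro n
    have h1 : ¬ bad (s n) := by
      induction n with
      | zero =>
        rintro ⟨n, hn, _⟩
        simp [s] at hn
      | succ n ih =>
        have hT : T (s n) (s (n + 1)) := by
          rcases ht2 (s n) with h | h
          · rw [hs]; exact h
          · exact absurd h ih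
        rintro ⟨m, hm1, hm2⟩
        obtain ⟨B, hB1, hB2, hB3, hB4, hB5⟩ := hT
        by_cases hlt : m < (s n).length
        · rw [getElem?_of_prefix hB4.1 hlt] at hm1
          exact ih ⟨m, hm1, hm2⟩
        · have := hB2 m (hB4.2 m (not_lt.1 hlt) hm1)
          rw [this] at hm2; cases hm2
    refine ⟨h1, ?_⟩
    rcases ht2 (s n) with h | h
    · rw [hs]; exact h
    · exact absurd h h1
  have hchain : ∀ n, s n <+: s (n + 1) := fun n => by
    obtain ⟨B, _, _, _, hB4, _⟩ := (hok n).2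
    exact hB4.1
  have hlen : ∀ n, (s n).length < (s (n + 1)).length := by
    intro n
    obtain ⟨B, hB1, _, _, _, hB5⟩ := (hok n).2
    obtain ⟨x, hx⟩ := List.exists_mem_of_ne_nil _ hB1.1
    have h1 := hB1.2.2.2.1 x hx
    have h2 := hB5 x hx
    have h3 : x < (s (n + 1)).length := by
      by_contra hc
      rw [List.getElem?_eq_none (not_lt.1 hc)] at h2; cases h2
    omega
  have hlen' : ∀ n, n ≤ (s n).length := by
    intro n
    induction n with
    | zero => simp
    | succ n ih => have := hlen n; omega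
  obtain ⟨H, hH⟩ := exists_limit s hchain
  refine ⟨H, ?_, ?_, ?_⟩
  · have h1 : Γ.S (fun p : ℕ × Bool => ∃ n : ℕ, ∃ σ : List Bool, t^[n] [] = σ ∧
        σ[p.1]? = some p.2) := by
      refine PC.ex' (R := fun (p : ℕ × Bool) (n : ℕ) => ∃ σ : List Bool, t^[n] [] = σ ∧
        σ[p.1]? = some p.2) ?_
      refine PC.ex' (R := fun (q : (ℕ × Bool) × ℕ) (σ : List Bool) => t^[q.2] [] = σ ∧
        σ[q.1.1]? = some q.1.2) (Γ.and ?_ (Γ.prim ?_))
      · exact Γ.comp (f := fun r : ((ℕ × Bool) × ℕ) × List Bool => (r.1.2, r.2))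
          (S_iterate ht1 []) ((Primrec.snd.comp Primrec.fst).pair Primrec.snd)
      · exact Primrec.eq.comp (Primrec.list_getElem?.comp Primrec.snd
          (Primrec.fst.comp (Primrec.fst.comp Primrec.fst)))
          (Primrec.option_some.comp (Primrec.snd.comp (Primrec.fst.comp Primrec.fst)))
    refine PC.of_eq h1 fun p => ?_
    constructor
    · intro h
      refine ⟨p.1 + 1, _, rfl, ?_⟩
      have h2 : p.1 < (s (p.1 + 1)).length := lt_of_lt_of_le (Nat.lt_succ_self _) (hlen' _)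
      show (s (p.1 + 1))[p.1]? = some p.2
      rw [List.getElem?_eq_getElem h2, ← h]
      rw [hH (p.1 + 1) p.1 _ (List.getElem?_eq_getElem h2)]
    · rintro ⟨n, σ, rfl, h⟩
      exact hH n _ _ h
  · intro N
    obtain ⟨B, hB1, _, _, _, hB5⟩ := (hok N).2
    exact ⟨B, hB1.mono (by have := hlen' N; omega), fun x hx => hH (N + 1) x _ (hB5 x hx)⟩
  · intro x y hx hy hxy
    -- the stage at which `y` is decided
    have hex : ∃ n, y < (s n).length := ⟨y + 1, lt_of_lt_of_le (Nat.lt_succ_self _) (hlen' _)⟩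
    obtain ⟨n, hn1, hn2⟩ : ∃ n, (s n).length ≤ y ∧ y < (s (n + 1)).length := by
      have h1 := Nat.find_spec hex
      have h2 : Nat.find hex ≠ 0 := by
        intro h
        rw [h] at h1
        simp [s] at h1
      obtain ⟨n, hn⟩ := Nat.exists_eq_succ_of_ne_zero h2
      refine ⟨n, ?_, ?_⟩
      · have := Nat.find_min hex (m := n) (by omega)
        omega
      · rw [hn] at h1; exact h1
    obtain ⟨B, hB1, hB2, hB3, hB4, hB5⟩ := (hok n).2
    have hval : ∀ z, z < (s (n + 1)).length → H z = true → (s (n + 1))[z]? = some true := by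
      intro z hz hHz
      rw [(hH (n + 1)).eq_res, getElem?_res, if_pos hz, hHz]
    have hyB : y ∈ B := hB4.2 y hn1 (hval y hn2 hy)
    by_cases hxn : x < (s n).length
    · right
      rcases hB3 y hyB x hxn with h | h
      · exfalso
        apply h
        rw [(hH n).eq_res, getElem?_res, if_pos hxn, hx]
      · exact h
    · left
      have hxB : x ∈ B := hB4.2 x (not_lt.1 hxn) (hval x (hxy.trans hn2) hx)
      exact hB1.2.2.2.2 x hxB y hyB hxy

/-- `H` is packed for `φ`. -/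
def Packed (φ : ℕ → ℕ) (H : Set ℕ) : Prop :=
  ∀ N, ∃ w, N ≤ w ∧ φ w ≤ (H ∩ Set.Icc 1 w).ncard

theorem packed_of_blocks {k : ℕ} {f : ℕ → ℕ → Fin k} {φ : ℕ → ℕ} {c : Fin k} {H : Set ℕ}
    (h : ∀ N, ∃ B, Blk f φ c N B ∧ ∀ x ∈ B, x ∈ H) : Packed φ H := by
  intro N
  obtain ⟨B, hB, hBH⟩ := h (N + 1)
  obtain ⟨w, hw1, hw2⟩ := hB.2.2.1
  obtain ⟨x, hx⟩ := List.exists_mem_of_ne_nil _ hB.1
  have h1 := hB.2.2.2.1 x hx
  have h2 := hw1 x hx
  refine ⟨w, by omega, hw2.trans ?_⟩
  have hnd : B.Nodup := hB.2.1.imp (fun h => ne_of_lt h)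
  have h3 : (B.toFinset : Set ℕ) ⊆ H ∩ Set.Icc 1 w := by
    intro y hy
    have hy' : y ∈ B := by simpa using hy
    refine ⟨hBH y hy', ?_, hw1 y hy'⟩
    have := hB.2.2.2.1 y hy'
    omega
  have h4 := Set.ncard_le_ncard h3 ((Set.finite_Icc 1 w).subset Set.inter_subset_right)
  rw [Set.ncard_coe_finset, List.toFinset_card_of_nodup hnd] at h4
  exact h4

theorem packed_of_infinite {φ : ℕ → ℕ} {H : Set ℕ} (hH : ∀ N, ∃ x ∈ H, N ≤ x) {M : ℕ}
    (hφ : ∀ N, ∃ w, N ≤ w ∧ φ w ≤ M) : Packed φ H := by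
  intro N
  have h1 : ∀ m, ∃ w0, m ≤ (H ∩ Set.Icc 1 w0).ncard := by
    intro m
    induction m with
    | zero => exact ⟨0, by simp⟩
    | succ m ih =>
      obtain ⟨w0, hw0⟩ := ih
      obtain ⟨x, hx, hxw⟩ := hH (w0 + 1)
      refine ⟨x, ?_⟩
      have h2 : insert x (H ∩ Set.Icc 1 w0) ⊆ H ∩ Set.Icc 1 x := by
        intro y hy
        rcases hy with rfl | hy
        · exact ⟨hx, by constructor <;> omega⟩
        · exact ⟨hy.1, hy.2.1, hy.2.2.trans (by omega)⟩
      have hfin : (H ∩ Set.Icc 1 w0).Finite := (Set.finite_Icc 1 w0).subset Set.inter_subset_right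
      have h3 := Set.ncard_le_ncard h2 ((Set.finite_Icc 1 x).subset Set.inter_subset_right)
      rw [Set.ncard_insert_of_notMem (by
        intro h
        have := h.2.2
        omega) hfin] at h3
      omega
  obtain ⟨w0, hw0⟩ := h1 M
  obtain ⟨w, hw, hφw⟩ := hφ (max N w0)
  refine ⟨w, (le_max_left _ _).trans hw, hφw.trans (hw0.trans ?_)⟩
  refine Set.ncard_le_ncard ?_ ((Set.finite_Icc 1 w).subset Set.inter_subset_right)
  exact Set.inter_subset_inter_right _ (Set.Icc_subset_Icc le_rfl ((le_max_right _ _).trans hw))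

/-- One instance of the packed Ramsey theorem for pairs, avoiding extensions of `J`. -/
theorem solve {Γ : PC} (hΓ : Good Γ) {k : ℕ} {f : ℕ → ℕ → Fin k} {φ : ℕ → ℕ}
    (hf : Γ.S (fun p : (ℕ × ℕ) × Fin k => f p.1.1 p.1.2 = p.2))
    (hφ : Γ.S (fun p : ℕ × ℕ => φ p.1 = p.2))
    (hA : ∀ w, Arrow w (φ w) (k + 1)) :
    ∃ Δ : PC, Γ.Le Δ ∧ Good Δ ∧ ∃ H : ℕ → Bool, Δ.S (fun p : ℕ × Bool => H p.1 = p.2) ∧
      Packed φ {n | H n = true} ∧ ∃ c i : Fin k, ∀ x y, H x = true → H y = true → x < y →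
        f x y = c ∨ f x y = i := by
  classical
  -- general form
  have main : ∀ (ψ : ℕ → ℕ) (c : Fin k), Γ.S (fun p : ℕ × ℕ => ψ p.1 = p.2) →
      (LB f ψ c).Large Set.univ →
      ∃ Δ : PC, Γ.Le Δ ∧ Good Δ ∧ ∃ H : ℕ → Bool, Δ.S (fun p : ℕ × Bool => H p.1 = p.2) ∧
      (∀ N, ∃ B, Blk f ψ c N B ∧ ∀ x ∈ B, H x = true) ∧
      ∃ c i : Fin k, ∀ x y, H x = true → H y = true → x < y → f x y = c ∨ f x y = i := by
    intro ψ c hψ hL
    obtain ⟨C, hC1, hC2, hC3⟩ := exists_cohesive hΓ (LB f ψ c) hL f hf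
    let Γ1 := Γ.adj C
    have hf1 := PC.adj_S (G := C) hf
    have hψ1 := PC.adj_S (G := C) hψ
    let A : Fin k → Set ℕ := fun i => {x | C x = true ∧ ∃ N, ∀ y, N ≤ y → C y = true → f x y = i}
    obtain ⟨i, G, hG1, hG2, hG3⟩ := strong_avoid (Γ := Γ1) (A := A) (C := {n | C n = true})
      hC3 (L := LB f ψ c) (fun j => S_FF hf1 hψ1 j)
      (Γ1.comp (f := fun n : ℕ => (n, true)) (PC.adj_self C) (Primrec.id.pair (Primrec.const _)))
      (fun n hn => by
        obtain ⟨i, hi⟩ := hC2 n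
        exact ⟨i, hn, hi⟩) hC1
    obtain ⟨H, hH1, hH2, hH3⟩ := thin (Γ := Γ1.adj G) (PC.adj_S hf1) (PC.adj_S hψ1)
      (PC.adj_self G) hG1 (i := i) (fun x hx => by
        obtain ⟨_, N, hN⟩ := hG2 x hx
        exact ⟨N, fun y hy hGy => hN y hy (hG2 y hGy).1⟩)
    exact ⟨Γ1.adj G, (PC.le_adj Γ C).trans (PC.le_adj Γ1 G), hG3, H, hH1, hH2, c, i, hH3⟩
  by_cases hlim : ∀ M, ∃ N, ∀ w, N ≤ w → M < φ w
  · obtain ⟨c, hc⟩ := large_univ f φ hA (fun M => by
      obtain ⟨N, hN⟩ := hlim M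
      exact ⟨N, hN N le_rfl⟩)
    obtain ⟨Δ, h1, h2, H, h3, h4, h5⟩ := main φ c hφ hc
    exact ⟨Δ, h1, h2, H, h3, packed_of_blocks h4, h5⟩
  · push Not at hlim
    obtain ⟨M, hM⟩ := hlim
    obtain ⟨Δ, h1, h2, H, h3, h4, h5⟩ := main (fun _ => 1) (f 0 1)
      (Γ.prim (Primrec.eq.comp (Primrec.const 1) Primrec.snd)) (large_univ_one f _)
    refine ⟨Δ, h1, h2, H, h3, packed_of_infinite ?_ (M := M) hM, h5⟩
    intro N
    obtain ⟨B, hB1, hB2⟩ := h4 N
    obtain ⟨x, hx⟩ := List.exists_mem_of_ne_nil _ hB1.1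
    exact ⟨x, hB2 x hx, hB1.2.2.2.1 x hx⟩

end Pool.Agent.Helper70
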