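import Pool.Agent.Helper70.Coh

/-! Liu-style forcing with effectively closed classes of covers. -/

namespace Pool.Agent.Helper70

open Encodable

theorem open_cyl {V : Set (ℕ → Bool)} (hV : IsOpen V) {X : ℕ → Bool} (hX : X ∈ V) :
    ∃ N, ∀ Y, Pre (res X N) Y → Y ∈ V := by
  rw [isOpen_pi_iff] at hV
  obtain ⟨s, u, h1, h2⟩ := hV X hX
  refine ⟨s.sup id + 1, fun Y hY => h2 ?_⟩
  intro i hi
  have hi' : i < s.sup id + 1 := Nat.lt_succ_of_le (Finset.le_sup (f := id) hi)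
  have : Y i = X i := hY i (X i) (by rw [getElem?_res, if_pos hi'])
  rw [this]
  exact (h1 i hi).2

section strong

/-- Forcing conditions. -/
structure Cond (Γ : PC) {I : Type} (A : I → Set ℕ) (C : Set ℕ) : Type 1 where
  ι : Type
  fin : Finite ι
  P : Set (ℕ → Bool)
  hP : Γ.Sig (fun (_ : Unit) X => X ∉ P)
  ne : P.Nonempty
  R : ι → (ℕ → Bool) → Set ℕ
  hR : ∀ ν, Γ.Sig (fun (n : ℕ) X => n ∈ R ν X)
  hR' : ∀ ν, Γ.Sig (fun (n : ℕ) X => n ∉ R ν X)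
  cov : ∀ X ∈ P, ∀ n ∈ C, ∃ ν, n ∈ R ν X
  σ : ι → I → List Bool
  hσ : ∀ ν i n, (σ ν i)[n]? = some true → n ∈ A i

variable {Γ : PC} {I : Type} {A : I → Set ℕ} {C : Set ℕ}

/-- A modification of a condition which keeps the parts. -/
structure Mod (c : Cond Γ A C) where
  P : Set (ℕ → Bool)
  sub : P ⊆ c.P
  hP : Γ.Sig (fun (_ : Unit) X => X ∉ P)
  ne : P.Nonempty
  σ : c.ι → I → List Bool
  hσ : ∀ ν i n, (σ ν i)[n]? = some true → n ∈ A i
  ext : ∀ X ∈ P, ∀ ν i, Ext (c.σ ν i) (σ ν i) (c.R ν X)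

/-- The condition given by a modification. -/
def Mod.cond {c : Cond Γ A C} (m : Mod c) : Cond Γ A C where
  ι := c.ι
  fin := c.fin
  P := m.P
  hP := m.hP
  ne := m.ne
  R := c.R
  hR := c.hR
  hR' := c.hR'
  cov := fun X hX => c.cov X (m.sub hX)
  σ := m.σ
  hσ := m.hσ

/-- The trivial modification. -/
def Mod.triv (c : Cond Γ A C) : Mod c where
  P := c.P
  sub := subset_rfl
  hP := c.hP
  ne := c.ne
  σ := c.σ
  hσ := c.hσ
  ext := fun _ _ _ _ => Ext.refl _ _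

/-- Extension of conditions along a map of parts. -/
def LeVia (d c : Cond Γ A C) (π : d.ι → c.ι) : Prop :=
  ∀ μ, ∀ Y ∈ d.P, ∃ X ∈ c.P, d.R μ Y ⊆ c.R (π μ) X ∧
    ∀ i, Ext (c.σ (π μ) i) (d.σ μ i) (c.R (π μ) X)

theorem LeVia.refl (c : Cond Γ A C) : LeVia c c id :=
  fun _ Y hY => ⟨Y, hY, subset_rfl, fun _ => Ext.refl _ _⟩

theorem LeVia.trans {e d c : Cond Γ A C} {π : d.ι → c.ι} {π' : e.ι → d.ι}
    (h' : LeVia e d π') (h : LeVia d c π) : LeVia e c (π ∘ π') := by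
  intro μ Z hZ
  obtain ⟨Y, hY, h1, h2⟩ := h' μ Z hZ
  obtain ⟨X, hX, h3, h4⟩ := h (π' μ) Y hY
  exact ⟨X, hX, h1.trans h3, fun i => (h4 i).trans (h2 i) h3⟩

theorem Mod.le {c : Cond Γ A C} (m : Mod c) : LeVia m.cond c id :=
  fun μ Y hY => ⟨Y, m.sub hY, subset_rfl, fun i => m.ext Y hY μ i⟩

theorem LeVia.pre_le {d c : Cond Γ A C} {π : d.ι → c.ι} (h : LeVia d c π) (μ : d.ι) (i : I) :
    c.σ (π μ) i <+: d.σ μ i := by
  obtain ⟨Y, hY⟩ := d.ne
  obtain ⟨X, _, _, h1⟩ := h μ Y hY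
  exact (h1 i).1

/-- Part `ν` of `c` is acceptable for the set `S` of sides. -/
def Acc (L : LF) (c : Cond Γ A C) (S : Finset I) (ν : c.ι) : Prop :=
  ∃ X ∈ c.P, ∀ i ∈ S, L.Large (c.R ν X ∩ A i)

theorem Acc.mono {L : LF} {d c : Cond Γ A C} {π : d.ι → c.ι} (h : LeVia d c π) {S : Finset I}
    {μ : d.ι} (hμ : Acc L d S μ) : Acc L c S (π μ) := by
  obtain ⟨Y, hY, h1⟩ := hμ
  obtain ⟨X, hX, h2, _⟩ := h μ Y hY
  exact ⟨X, hX, fun i hi => (h1 i hi).mono (Set.inter_subset_inter_left _ h2)⟩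

/-- The requirement for `V` is forced on side `i` of part `μ`. -/
def Forced (V : (ℕ × Bool) × List Bool → Prop) (d : Cond Γ A C) (μ : d.ι) (i : I) : Prop :=
  (∃ n b, J n b ∧ ∃ τ, τ <+: d.σ μ i ∧ V ((n, !b), τ)) ∨
  (∃ n, ∀ X ∈ d.P, ∀ τ, Ext (d.σ μ i) τ (d.R μ X) → ∀ b τ', τ' <+: τ → ¬ V ((n, b), τ'))

theorem Forced.mono {V : (ℕ × Bool) × List Bool → Prop} {d c : Cond Γ A C} {π : d.ι → c.ι}
    (h : LeVia d c π) {μ : d.ι} {i : I} (hf : Forced V c (π μ) i) : Forced V d μ i := by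
  rcases hf with ⟨n, b, hb, τ, h1, h2⟩ | ⟨n, hn⟩
  · exact Or.inl ⟨n, b, hb, τ, h1.trans (h.pre_le μ i), h2⟩
  · refine Or.inr ⟨n, fun Y hY τ hτ => ?_⟩
    obtain ⟨X, hX, h1, h2⟩ := h μ Y hY
    exact hn X hX τ ((h2 i).trans hτ h1)

/-- Extending one string of a modification. -/
theorem Mod.extend {c : Cond Γ A C} [DecidableEq I] (m : Mod c) (ν0 : c.ι) (i0 : I)
    (τ : List Bool) (X0 : ℕ → Bool) (hX0 : X0 ∈ m.P)
    (hτ : Ext (m.σ ν0 i0) τ (c.R ν0 X0 ∩ A i0)) :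
    ∃ m' : Mod c, m'.P ⊆ m.P ∧ X0 ∈ m'.P ∧ m'.σ ν0 i0 = τ ∧
      (∀ ν i, (ν, i) ≠ (ν0, i0) → m'.σ ν i = m.σ ν i) ∧
      LeVia m'.cond m.cond id := by
  classical
  let P' : Set (ℕ → Bool) := {X | X ∈ m.P ∧ ∀ n, (m.σ ν0 i0).length ≤ n →
    τ[n]? = some true → n ∈ c.R ν0 X}
  let σ' : c.ι → I → List Bool := fun ν i => if (ν, i) = (ν0, i0) then τ else m.σ ν i
  have hext : ∀ X ∈ P', ∀ ν i, Ext (m.σ ν i) (σ' ν i) (c.R ν X) := by
    rintro X ⟨hX, hX'⟩ ν i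
    by_cases h : (ν, i) = (ν0, i0)
    · obtain ⟨rfl, rfl⟩ : ν = ν0 ∧ i = i0 := by simpa using h
      simp only [σ', if_true]
      exact ⟨hτ.1, hX'⟩
    · simp only [σ', if_neg h]
      exact Ext.refl _ _
  let m' : Mod c :=
    { P := P'
      sub := fun X hX => m.sub hX.1
      hP := by
        have h1 : Γ.Sig (fun (_ : Unit) X => X ∉ m.P ∨ ∃ n : ℕ, ((m.σ ν0 i0).length ≤ n ∧
            τ[n]? = some true) ∧ n ∉ c.R ν0 X) := by
          refine PC.Sig.or m.hP ?_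
          refine PC.Sig.ex (R := fun (_ : Unit) (n : ℕ) X => ((m.σ ν0 i0).length ≤ n ∧
            τ[n]? = some true) ∧ n ∉ c.R ν0 X) ?_
          refine PC.Sig.and (PC.Sig.prim ?_) ?_
          · refine PrimrecPred.and ?_ ?_
            · exact Primrec.nat_le.comp (Primrec.const _) Primrec.snd
            · exact Primrec.eq.comp (Primrec.list_getElem?.comp (Primrec.const τ) Primrec.snd)
                (Primrec.const _)
          · exact PC.Sig.comp (c.hR' ν0) Primrec.snd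
        refine PC.Sig.of_eq h1 fun _ X => ?_
        simp only [P', Set.mem_ofPred_eq, not_and_or]
        push Not
        simp only [and_assoc]
      ne := ⟨X0, hX0, fun n hn h => (hτ.2 n hn h).1⟩
      σ := σ'
      hσ := by
        intro ν i n hn
        by_cases h : (ν, i) = (ν0, i0)
        · obtain ⟨rfl, rfl⟩ : ν = ν0 ∧ i = i0 := by simpa using h
          simp only [σ', if_true] at hn
          by_cases hlt : n < (m.σ ν i).length
          · rw [getElem?_of_prefix hτ.1 hlt] at hn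
            exact m.hσ ν i n hn
          · exact (hτ.2 n (not_lt.1 hlt) hn).2
        · simp only [σ', if_neg h] at hn
          exact m.hσ ν i n hn
      ext := fun X hX ν i => (m.ext X hX.1 ν i).trans (hext X hX ν i) subset_rfl }
  refine ⟨m', fun X hX => hX.1, ⟨hX0, fun n hn h => (hτ.2 n hn h).1⟩, ?_, ?_, ?_⟩
  · simp [m', σ']
  · intro ν i h
    simp only [m', σ', if_neg h]
  · intro μ Y hY
    exact ⟨Y, hY.1, subset_rfl, fun i => hext Y hY μ i⟩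

/-- Uniformity of a part on a class. -/
def Uni (L : LF) (c : Cond Γ A C) (S : Finset I) (P : Set (ℕ → Bool)) (ν : c.ι) : Prop :=
  (∀ X ∈ P, ¬ ∀ i ∈ S, L.Large (c.R ν X ∩ A i)) ∨
  ∃ j, ∀ X ∈ P, ¬ ∃ l, L.F j l ∧ ∀ n ∈ l, n ∈ c.R ν X ∧ n ∈ C ∧ ∀ i ∈ S, n ∉ A i

theorem Uni.mono {L : LF} {c : Cond Γ A C} {S : Finset I} {P Q : Set (ℕ → Bool)} {ν : c.ι}
    (h : Uni L c S P ν) (hQ : Q ⊆ P) : Uni L c S Q ν := by
  rcases h with h | ⟨j, h⟩
  · exact Or.inl fun X hX => h X (hQ hX)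
  · exact Or.inr ⟨j, fun X hX => h X (hQ hX)⟩

theorem uni_single [Fintype I] [DecidableEq I] {L : LF} {c : Cond Γ A C} {S : Finset I}
    (hCA : ∀ n ∈ C, ∃ i, n ∈ A i)
    (hS : ∀ S', S ⊂ S' → ∀ ν, ¬ Acc L c S' ν) {P : Set (ℕ → Bool)} (hP : P ⊆ c.P)
    (hcl : IsClosed P) (hne : P.Nonempty) (ν : c.ι) :
    ∃ τ, (P ∩ {X | Pre τ X}).Nonempty ∧ Uni L c S (P ∩ {X | Pre τ X}) ν := by
  classical
  by_contra hcon
  push Not at hcon
  have hcomp : CompactSpace P := isCompact_iff_compactSpace.1 hcl.isCompact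
  -- the open sets
  let O : (ℕ ⊕ ({i // i ∈ S} × ℕ)) → Set P := fun t => match t with
    | Sum.inl j => {X | ∃ l, L.F j l ∧ ∀ n ∈ l, n ∈ c.R ν X.1 ∧ n ∈ C ∧ ∀ i ∈ S, n ∉ A i}
    | Sum.inr (i, j) => {X | ∃ l, L.F j l ∧ ∀ n ∈ l, n ∈ c.R ν X.1 ∧ n ∈ A i.1}
  have hopen1 : ∀ (l : List ℕ) (Q : ℕ → Prop),
      IsOpen {X : ℕ → Bool | ∀ n ∈ l, n ∈ c.R ν X ∧ Q n} := by
    intro l Q
    induction l with
    | nil => simp
    | cons a l ih =>
      have : {X : ℕ → Bool | ∀ n ∈ a :: l, n ∈ c.R ν X ∧ Q n} =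
          ({X | a ∈ c.R ν X} ∩ {_X | Q a}) ∩ {X | ∀ n ∈ l, n ∈ c.R ν X ∧ Q n} := by
        ext X; simp [and_assoc]
      rw [this]
      refine (((c.hR ν).isOpen a).inter ?_).inter ih
      by_cases h : Q a
      · simp [h]
      · simp [h]
  have hO : ∀ t, IsOpen (O t) := by
    rintro (j | ⟨i, j⟩)
    · have : O (Sum.inl j) = ⋃ l : {l // L.F j l}, (Subtype.val : P → (ℕ → Bool)) ⁻¹'
          {X | ∀ n ∈ l.1, n ∈ c.R ν X ∧ (n ∈ C ∧ ∀ i ∈ S, n ∉ A i)} := by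
        ext X
        simp only [O, Set.mem_ofPred_eq, Set.mem_iUnion, Set.mem_preimage, Subtype.exists,
          exists_prop]
      rw [this]
      exact isOpen_iUnion fun l => (hopen1 l.1 _).preimage continuous_subtype_val
    · have : O (Sum.inr (i, j)) = ⋃ l : {l // L.F j l}, (Subtype.val : P → (ℕ → Bool)) ⁻¹'
          {X | ∀ n ∈ l.1, n ∈ c.R ν X ∧ (n ∈ A i.1)} := by
        ext X
        simp only [O, Set.mem_ofPred_eq, Set.mem_iUnion, Set.mem_preimage, Subtype.exists,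
          exists_prop]
      rw [this]
      exact isOpen_iUnion fun l => (hopen1 l.1 _).preimage continuous_subtype_val
  have hd : ∀ t, Dense (O t) := by
    intro t
    rw [dense_iff_inter_open]
    intro U hU ⟨X, hX⟩
    by_contra hemp
    rw [Set.not_nonempty_iff_eq_empty] at hemp
    obtain ⟨V, hV, rfl⟩ := isOpen_induced_iff.1 hU
    obtain ⟨N, hN⟩ := open_cyl hV hX
    have hne' : (P ∩ {Y | Pre (res X.1 N) Y}).Nonempty := ⟨X.1, X.2, pre_res _ _⟩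
    refine hcon _ hne' ?_
    have hno : ∀ Y ∈ P ∩ {Y | Pre (res X.1 N) Y}, ∀ hY : Y ∈ P, (⟨Y, hY⟩ : P) ∉ O t := by
      intro Y hY hYP hYO
      have : (⟨Y, hYP⟩ : P) ∈ (Subtype.val ⁻¹' V ∩ O t : Set P) := ⟨hN Y hY.2, hYO⟩
      rw [hemp] at this
      exact this
    rcases t with j | ⟨i, j⟩
    · exact Or.inr ⟨j, fun Y hY h => hno Y hY hY.1 h⟩
    · refine Or.inl fun Y hY h => hno Y hY hY.1 ?_
      exact h i.1 i.2 j
  have hD := dense_iInter_of_isOpen hO hd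
  have : Nonempty P := hne.to_subtype
  obtain ⟨X, hX⟩ := hD.nonempty
  rw [Set.mem_iInter] at hX
  have h1 : ∀ i ∈ S, L.Large (c.R ν X.1 ∩ A i) := fun i hi j => hX (Sum.inr (⟨i, hi⟩, j))
  have h2 : L.Large {n | n ∈ c.R ν X.1 ∧ n ∈ C ∧ ∀ i ∈ S, n ∉ A i} := fun j => hX (Sum.inl j)
  obtain ⟨i, hi⟩ := h2.finite_union (Y := fun i : {i // i ∉ S} => c.R ν X.1 ∩ A i.1) (by
    rintro n ⟨hn1, hn2, hn3⟩
    obtain ⟨i, hi⟩ := hCA n hn2
    exact ⟨⟨i, fun h => hn3 i h hi⟩, hn1, hi⟩)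
  refine hS (insert i.1 S) (Finset.ssubset_insert i.2) ν ⟨X.1, hP X.2, fun i' hi' => ?_⟩
  rcases Finset.mem_insert.1 hi' with rfl | hi'
  · exact hi
  · exact h1 i' hi'

theorem isClosed_of_sig {P : Set (ℕ → Bool)} (h : Γ.Sig (fun (_ : Unit) X => X ∉ P)) :
    IsClosed P := by
  have := h.isOpen ()
  have h2 : Pᶜ = {X | X ∉ P} := by ext X; simp
  exact ⟨by rw [h2]; exact this⟩

theorem uni_all [Fintype I] [DecidableEq I] {L : LF} {c : Cond Γ A C} {S : Finset I}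
    (hCA : ∀ n ∈ C, ∃ i, n ∈ A i)
    (hS : ∀ S', S ⊂ S' → ∀ ν, ¬ Acc L c S' ν) :
    ∃ m : Mod c, ∀ ν, Uni L c S m.P ν := by
  classical
  have := c.fin
  have := Fintype.ofFinite c.ι
  have key : ∀ s : Finset c.ι, ∃ m : Mod c, ∀ ν ∈ s, Uni L c S m.P ν := by
    intro s
    induction s using Finset.induction_on with
    | empty => exact ⟨Mod.triv c, by simp⟩
    | insert ν s hν ih =>
      obtain ⟨m, hm⟩ := ih
      obtain ⟨τ, h1, h2⟩ := uni_single hCA hS m.sub (isClosed_of_sig m.hP) m.ne ν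
      let m' : Mod c :=
        { P := m.P ∩ {X | Pre τ X}
          sub := fun X hX => m.sub hX.1
          hP := by
            refine PC.Sig.of_eq (PC.Sig.or m.hP (PC.Sig.not_pre (f := fun _ : Unit => τ)
              (Primrec.const τ))) fun _ X => ?_
            simp only [Set.mem_inter_iff, Set.mem_ofPred_eq, not_and_or]
          ne := h1
          σ := m.σ
          hσ := m.hσ
          ext := fun X hX => m.ext X hX.1 }
      refine ⟨m', fun ν' hν' => ?_⟩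
      rcases Finset.mem_insert.1 hν' with rfl | hν'
      · exact h2
      · exact (hm ν' hν').mono Set.inter_subset_left
  obtain ⟨m, hm⟩ := key Finset.univ
  exact ⟨m, fun ν => hm ν (Finset.mem_univ ν)⟩

/-- Adding a piece of a large set. -/
theorem add_piece [Fintype I] [DecidableEq I] {L : LF} (c : Cond Γ A C) {S : Finset I}
    {i : I} (hi : i ∈ S) (j : ℕ) :
    ∃ m : Mod c, ∀ ν, Acc L m.cond S ν → (∃ l, L.F j l ∧ ∀ n ∈ l, (m.σ ν i)[n]? = some true) ∧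
      j ≤ (m.σ ν i).length := by
  classical
  have := c.fin
  have := Fintype.ofFinite c.ι
  have key : ∀ s : Finset c.ι, ∃ m : Mod c, ∀ ν ∈ s, Acc L m.cond S ν →
      (∃ l, L.F j l ∧ ∀ n ∈ l, (m.σ ν i)[n]? = some true) ∧ j ≤ (m.σ ν i).length := by
    intro s
    induction s using Finset.induction_on with
    | empty => exact ⟨Mod.triv c, by simp⟩
    | insert ν s hν ih =>
      obtain ⟨m, hm⟩ := ih
      by_cases hacc : Acc L m.cond S ν
      · obtain ⟨X, hX, hXL⟩ := hacc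
        obtain ⟨l, hl1, hl2⟩ := ((hXL i hi).tail (m.σ ν i).length) j
        obtain ⟨τ, ht1, ht2, ht3⟩ := exists_ext (m.σ ν i) l (fun n hn => (hl2 n hn).2) j
        obtain ⟨m', h1, h2, h3, h4, h5⟩ := m.extend ν i τ X hX
          (ht1.mono fun n hn => (hl2 n hn).1)
        refine ⟨m', fun ν' hν' hacc' => ?_⟩
        rcases Finset.mem_insert.1 hν' with rfl | hν'
        · rw [h3]; exact ⟨⟨l, hl1, ht2⟩, ht3⟩
        · have hne : ν' ≠ ν := fun h => hν (h ▸ hν')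
          rw [h4 ν' i (by simp [hne])]
          exact hm ν' hν' (hacc'.mono h5)
      · refine ⟨m, fun ν' hν' hacc' => ?_⟩
        rcases Finset.mem_insert.1 hν' with rfl | hν'
        · exact absurd hacc' hacc
        · exact hm ν' hν' hacc'
  obtain ⟨m, hm⟩ := key Finset.univ
  exact ⟨m, fun ν => hm ν (Finset.mem_univ (α := c.ι) ν)⟩

end strong

end Pool.Agent.Helper70
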