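import Pool.Agent.Helper70.Strong

/-! Forcing the requirements. -/

namespace Pool.Agent.Helper70

open Encodable

/-- column of a set -/
def col (k : ℕ) (x : ℕ → Bool) : ℕ → Bool := fun n => x (Nat.pair k n)

theorem exists_join {κ : Type*} {e : κ → ℕ} (he : Function.Injective e) (y : κ → ℕ → Bool) :
    ∃ x : ℕ → Bool, ∀ k, col (e k) x = y k := by
  classical
  refine ⟨fun n => if h : ∃ k, e k = n.unpair.1 then y h.choose n.unpair.2 else false,
    fun k => ?_⟩
  funext n
  have h : ∃ k', e k' = (Nat.pair (e k) n).unpair.1 := ⟨k, by simp⟩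
  simp only [col]
  rw [dif_pos h]
  have : h.choose = k := he (by rw [h.choose_spec]; simp)
  rw [this]; simp

namespace PC

variable {Γ : PC} {α : Type} [Primcodable α]

theorem Sig.col {R : α → (ℕ → Bool) → Prop} (h : Γ.Sig R) {f : α → ℕ} (hf : Primrec f) :
    Γ.Sig (fun a x => R a (col (f a) x)) := by
  refine Sig.substX (Ψ := fun a x => Helper70.col (f a) x) h ?_
  exact Sig.bit (f := fun p : α × (ℕ × Bool) => Nat.pair (f p.1) p.2.1) (g := fun p => p.2.2)
    (Primrec₂.natPair.comp (hf.comp Primrec.fst) (Primrec.fst.comp Primrec.snd))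
    (Primrec.snd.comp Primrec.snd)

end PC

theorem primrec_mem {α : Type} [Primcodable α] : PrimrecRel (fun (e : α) (p : List α) => e ∈ p) := by
  have h1 : PrimrecRel (fun (L : List α) (b : α) => ∃ a ∈ L, a = b) :=
    PrimrecRel.exists_mem_list Primrec.eq
  exact (PrimrecPred.comp (f := fun q : α × List α => (q.2, q.1)) h1
    (Primrec.snd.pair Primrec.fst)).of_eq (by simp)

section strong

variable {Γ : PC} {I : Type} {A : I → Set ℕ} {C : Set ℕ}

/-- parts which are never acceptable -/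
def Dead (L : LF) (c : Cond Γ A C) (S : Finset I) (ν : c.ι) : Prop :=
  ∀ X ∈ c.P, ¬ ∀ i ∈ S, L.Large (c.R ν X ∩ A i)

/-- parts on which the requirement still has to be forced -/
def Unf (L : LF) {c : Cond Γ A C} (S : Finset I) (V : I → (ℕ × Bool) × List Bool → Prop)
    (m : Mod c) (ν : c.ι) : Prop :=
  ¬ Dead L c S ν ∧ ¬ ∃ i ∈ S, Forced (V i) m.cond ν i

/-- the reservoir coded by a column -/
def Zn {κ : Type} (e : Option κ → ℕ) (k : κ) (x : ℕ → Bool) : Set ℕ :=
  {n | col (e (some k)) x n = true}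

/-- valid codes -/
def Qp (L : LF) {c : Cond Γ A C} (S : Finset I) (m : Mod c)
    (e : Option (c.ι × Option {i // i ∈ S}) → ℕ) (U : c.ι → Prop) (jj : c.ι → ℕ)
    (x : ℕ → Bool) : Prop :=
  col (e none) x ∈ m.P ∧
  (∀ ν, ∀ n, n ∈ C → n ∈ c.R ν (col (e none) x) → ∃ o, n ∈ Zn e (ν, o) x) ∧
  (∀ ν, U ν → ¬ ∃ l, L.F (jj ν) l ∧ ∀ n ∈ l, n ∈ Zn e (ν, none) x)

/-- some string in the coded reservoirs disagrees with the valuation `p` -/
def Mm {c : Cond Γ A C} (S : Finset I) (m : Mod c)
    (e : Option (c.ι × Option {i // i ∈ S}) → ℕ) (U : c.ι → Prop)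
    (V : I → (ℕ × Bool) × List Bool → Prop) (p : List (ℕ × Bool)) (x : ℕ → Bool) : Prop :=
  ∃ ν, U ν ∧ ∃ i : {i // i ∈ S}, ∃ τ, Ext (m.σ ν i.1) τ (Zn e (ν, some i) x) ∧
    ∃ a : ℕ × Bool, a ∈ p ∧ ∃ τ', τ' <+: τ ∧ V i.1 ((a.1, !a.2), τ')

theorem sig_Zn {κ : Type} (e : Option κ → ℕ) (k : κ) {α : Type} [Primcodable α] {f : α → ℕ}
    (hf : Primrec f) (b : Bool) :
    Γ.Sig (fun (a : α) x => col (e (some k)) x (f a) = b) :=
  PC.Sig.bit (f := fun a => Nat.pair (e (some k)) (f a)) (g := fun _ => b)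
    (Primrec₂.natPair.comp (Primrec.const _) hf) (Primrec.const b)

theorem sig_not_Qp {L : LF} (hF : ∀ j, Γ.S (L.F j)) (hC : Γ.S (fun n => n ∈ C))
    {c : Cond Γ A C} {S : Finset I} (m : Mod c)
    (e : Option (c.ι × Option {i // i ∈ S}) → ℕ) (U : c.ι → Prop) (jj : c.ι → ℕ) :
    Γ.Sig (fun (_ : Unit) x => ¬ Qp L S m e U jj x) := by
  classical
  have hfin := c.fin
  have h1 : Γ.Sig (fun (_ : Unit) x => col (e none) x ∉ m.P) :=
    PC.Sig.col (f := fun _ : Unit => e none) m.hP (Primrec.const _)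
  have h2 : Γ.Sig (fun (_ : Unit) x => ∃ ν, ∃ n : ℕ, (n ∈ C ∧ n ∈ c.R ν (col (e none) x)) ∧
      ∀ o : Option {i // i ∈ S}, col (e (some (ν, o))) x n = false) := by
    refine PC.Sig.exFin fun ν => ?_
    refine PC.Sig.ex (R := fun (_ : Unit) (n : ℕ) x => (n ∈ C ∧ n ∈ c.R ν (col (e none) x)) ∧
      ∀ o : Option {i // i ∈ S}, col (e (some (ν, o))) x n = false) ?_
    refine PC.Sig.and (PC.Sig.and ?_ ?_) ?_
    · exact PC.Sig.ofS (Γ.comp (f := fun p : Unit × ℕ => p.2) hC Primrec.snd)
    · exact PC.Sig.col (R := fun (p : Unit × ℕ) X => p.2 ∈ c.R ν X) (f := fun _ => e none)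
        (PC.Sig.comp (c.hR ν) Primrec.snd) (Primrec.const _)
    · exact PC.Sig.allFin fun o => sig_Zn e (ν, o) Primrec.snd false
  have h3 : Γ.Sig (fun (_ : Unit) x => ∃ ν, U ν ∧ ∃ l, L.F (jj ν) l ∧
      ∀ n ∈ l, n ∈ Zn e (ν, none) x) := by
    refine PC.Sig.exFin fun ν => PC.Sig.and (PC.Sig.const Γ _) ?_
    refine PC.Sig.ex (R := fun (_ : Unit) l x => L.F (jj ν) l ∧
      ∀ n ∈ l, n ∈ Zn e (ν, none) x) ?_
    refine PC.Sig.and (PC.Sig.ofS (Γ.comp (f := fun p : Unit × List ℕ => p.2) (hF _)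
      Primrec.snd)) ?_
    have h4 : Γ.Sig (fun (p : Unit × List ℕ) x => ∀ i < p.2.length, ∃ n : ℕ,
        p.2[i]? = some n ∧ col (e (some (ν, none))) x n = true) := by
      refine PC.Sig.ball (R := fun (p : Unit × List ℕ) i x => ∃ n : ℕ,
        p.2[i]? = some n ∧ col (e (some (ν, none))) x n = true)
        (Primrec.list_length.comp Primrec.snd) ?_
      refine PC.Sig.ex (R := fun (p : (Unit × List ℕ) × ℕ) (n : ℕ) x =>
        p.1.2[p.2]? = some n ∧ col (e (some (ν, none))) x n = true) ?_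
      refine PC.Sig.and (PC.Sig.prim ?_) (sig_Zn e (ν, none) Primrec.snd true)
      exact Primrec.eq.comp (Primrec.list_getElem?.comp
        (Primrec.snd.comp (Primrec.fst.comp Primrec.fst)) (Primrec.snd.comp Primrec.fst))
        (Primrec.option_some.comp Primrec.snd)
    refine PC.Sig.of_eq h4 fun p x => ?_
    constructor
    · intro H i hi
      exact ⟨p.2[i], by simp [hi], H _ (List.getElem_mem hi)⟩
    · intro H n hn
      obtain ⟨i, hi, rfl⟩ := List.getElem_of_mem hn
      obtain ⟨n, h5, h6⟩ := H i hi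
      rw [List.getElem?_eq_getElem hi] at h5
      cases h5; exact h6
  refine PC.Sig.of_eq (PC.Sig.or h1 (PC.Sig.or h2 h3)) fun _ x => ?_
  simp only [Qp, not_and_or]
  refine or_congr Iff.rfl (or_congr ?_ ?_)
  · push Not
    refine exists_congr fun ν => exists_congr fun n => ?_
    rw [← and_assoc]
    refine and_congr Iff.rfl (forall_congr' fun o => ?_)
    simp [Zn]
  · push Not
    rfl

theorem sig_Mm {c : Cond Γ A C} {S : Finset I} (m : Mod c)
    (e : Option (c.ι × Option {i // i ∈ S}) → ℕ) (U : c.ι → Prop)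
    {V : I → (ℕ × Bool) × List Bool → Prop} (hV : ∀ i, Γ.S (V i)) :
    Γ.Sig (fun p x => Mm S m e U V p x) := by
  classical
  have hfin := c.fin
  refine PC.Sig.exFin fun ν => PC.Sig.and (PC.Sig.const Γ _) (PC.Sig.exFin fun i => ?_)
  refine PC.Sig.ex (R := fun (p : List (ℕ × Bool)) τ x =>
    Ext (m.σ ν i.1) τ (Zn e (ν, some i) x) ∧
    ∃ a : ℕ × Bool, a ∈ p ∧ ∃ τ', τ' <+: τ ∧ V i.1 ((a.1, !a.2), τ')) ?_
  refine PC.Sig.and ?_ ?_
  · refine PC.Sig.ext (f := fun _ : List (ℕ × Bool) × List Bool => m.σ ν i.1)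
      (g := fun p => p.2) (X := fun _ x => Zn e (ν, some i) x) (Primrec.const _) Primrec.snd ?_
    exact sig_Zn e (ν, some i) Primrec.snd true
  · refine PC.Sig.ofS ?_
    refine PC.ex' (R := fun (p : List (ℕ × Bool) × List Bool) (a : ℕ × Bool) =>
      a ∈ p.1 ∧ ∃ τ', τ' <+: p.2 ∧ V i.1 ((a.1, !a.2), τ')) ?_
    refine Γ.and (Γ.prim ?_) ?_
    · exact primrec_mem.comp Primrec.snd (Primrec.fst.comp Primrec.fst)
    · exact Γ.comp (f := fun q : (List (ℕ × Bool) × List Bool) × (ℕ × Bool) =>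
        ((q.2.1, !q.2.2), q.1.2)) (PC.Sig.up (hV i.1))
        (((Primrec.fst.comp Primrec.snd).pair
          (Primrec.not.comp (Primrec.snd.comp Primrec.snd))).pair
          (Primrec.snd.comp Primrec.fst))

theorem force_req [Fintype I] [DecidableEq I] (hΓ : Good Γ) {L : LF}
    (hF : ∀ j, Γ.S (L.F j)) (hC : Γ.S (fun n => n ∈ C))
    (c : Cond Γ A C) {S : Finset I} (hSne : S.Nonempty)
    (hU : ∀ ν, Uni L c S c.P ν)
    {V : I → (ℕ × Bool) × List Bool → Prop} (hV : ∀ i, Γ.S (V i)) :
    ∀ (N : ℕ) (m : Mod c), {ν | Unf L S V m ν}.ncard ≤ N →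
      ∃ (d : Cond Γ A C) (π : d.ι → c.ι), LeVia d c π ∧
        ∀ μ, Acc L d S μ → ∃ i ∈ S, Forced (V i) d μ i := by
  classical
  have hfin := c.fin
  have hfin' := Fintype.ofFinite c.ι
  -- indices for smallness
  have hjj : ∃ jj : c.ι → ℕ, ∀ ν, ¬ Dead L c S ν → ∀ X ∈ c.P,
      ¬ ∃ l, L.F (jj ν) l ∧ ∀ n ∈ l, n ∈ c.R ν X ∧ n ∈ C ∧ ∀ i ∈ S, n ∉ A i := by
    have : ∀ ν, ∃ j, ¬ Dead L c S ν → ∀ X ∈ c.P,
      ¬ ∃ l, L.F j l ∧ ∀ n ∈ l, n ∈ c.R ν X ∧ n ∈ C ∧ ∀ i ∈ S, n ∉ A i := by
      intro ν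
      rcases hU ν with h | ⟨j, h⟩
      · exact ⟨0, fun h' => absurd h h'⟩
      · exact ⟨j, fun _ => h⟩
    choose jj hjj using this
    exact ⟨jj, hjj⟩
  obtain ⟨jj, hjj⟩ := hjj
  obtain ⟨e, he⟩ := exists_injective_nat (Option (c.ι × Option {i // i ∈ S}))
  intro N
  induction N with
  | zero =>
    intro m hm
    refine ⟨m.cond, id, m.le, fun ν hν => ?_⟩
    by_contra hcon
    have : ν ∈ {ν | Unf L S V m ν} := by
      refine ⟨?_, hcon⟩
      obtain ⟨X, hX, h1⟩ := hν
      exact fun h => h X (m.sub hX) h1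
    have hne : {ν | Unf L S V m ν}.ncard ≠ 0 := Set.ncard_ne_zero_of_mem this
    omega
  | succ N ih =>
    intro m hm
    by_cases hcase : ∃ p : List (ℕ × Bool), (∀ a ∈ p, J a.1 a.2) ∧
        ∀ x, ¬ Qp L S m e (Unf L S V m) jj x ∨ Mm S m e (Unf L S V m) V p x
    · -- case (i): one more part gets forced
      obtain ⟨p, hp, hW⟩ := hcase
      obtain ⟨X, hX⟩ := m.ne
      let y : Option (c.ι × Option {i // i ∈ S}) → ℕ → Bool := fun k => match k with
        | none => X
        | some (ν, none) => fun n => decide (n ∈ c.R ν X ∧ n ∈ C ∧ ∀ i ∈ S, n ∉ A i)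
        | some (ν, some i) => fun n => decide (n ∈ c.R ν X ∩ A i.1)
      obtain ⟨x, hx⟩ := exists_join he y
      have hx0 : col (e none) x = X := hx none
      have hxn : ∀ ν, Zn e (ν, none) x = {n | n ∈ c.R ν X ∧ n ∈ C ∧ ∀ i ∈ S, n ∉ A i} := by
        intro ν; ext n
        simp only [Zn, hx, y, Set.mem_ofPred_eq, decide_eq_true_eq]
      have hxs : ∀ ν i, Zn e (ν, some i) x = c.R ν X ∩ A i.1 := by
        intro ν i; ext n
        simp only [Zn, hx, y, Set.mem_ofPred_eq, decide_eq_true_eq]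
      rcases hW x with h | h
      · exfalso
        apply h
        refine ⟨by rw [hx0]; exact hX, ?_, ?_⟩
        · intro ν n hn1 hn2
          rw [hx0] at hn2
          by_cases h' : ∃ i ∈ S, n ∈ A i
          · obtain ⟨i, hi1, hi2⟩ := h'
            refine ⟨some ⟨i, hi1⟩, ?_⟩
            rw [hxs]; exact ⟨hn2, hi2⟩
          · push Not at h'
            refine ⟨none, ?_⟩
            rw [hxn]; exact ⟨hn2, hn1, h'⟩
        · intro ν hν
          rw [hxn]
          exact hjj ν hν.1 X (m.sub hX)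
      · obtain ⟨ν, hν, i, τ, hτ, a, ha, τ', hτ', hVa⟩ := h
        rw [hxs] at hτ
        obtain ⟨m', h1, h2, h3, h4, h5⟩ := m.extend ν i.1 τ X hX hτ
        have hsub : {ν | Unf L S V m' ν} ⊆ {ν | Unf L S V m ν} \ {ν} := by
          intro ν' hν'
          refine ⟨⟨hν'.1, ?_⟩, ?_⟩
          · rintro ⟨i', hi', hf⟩
            exact hν'.2 ⟨i', hi', Forced.mono h5 hf⟩
          · rintro rfl
            refine hν'.2 ⟨i.1, i.2, Or.inl ⟨a.1, a.2, hp a ha, τ', ?_, hVa⟩⟩
            show τ' <+: m'.σ ν' i.1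
            rw [h3]; exact hτ'
        have hcard : {ν | Unf L S V m' ν}.ncard ≤ N := by
          have h6 := Set.ncard_le_ncard hsub (Set.toFinite _)
          have h7 : ({ν | Unf L S V m ν} \ {ν}).ncard + 1 = {ν | Unf L S V m ν}.ncard :=
            Set.ncard_sdiff_singleton_add_one hν (Set.toFinite _)
          omega
        exact ih m' hcard
    · -- case (ii): refine
      push Not at hcase
      have hW : Γ.S (fun p => ∀ x, ¬ Qp L S m e (Unf L S V m) jj x ∨
          Mm S m e (Unf L S V m) V p x) := by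
        refine PC.Sig.allX (PC.Sig.or ?_ (sig_Mm m e _ hV))
        exact PC.Sig.comp (f := fun _ : List (ℕ × Bool) => ()) (sig_not_Qp hF hC m e _ jj)
          (Primrec.const ())
      obtain ⟨K, hK⟩ : ∃ K, Fintype.card (c.ι × {i // i ∈ S}) < 2 ^ K :=
        ⟨_, Nat.lt_two_pow_self⟩
      obtain ⟨F, hFW⟩ := val_fin hΓ hW (fun p hp hJ => by
        obtain ⟨x, hx1, hx2⟩ := hcase p hJ
        rcases hp x with h | h
        · exact h hx1
        · exact hx2 h) K
      let pt : (Fin K → Bool) → List (ℕ × Bool) := fun t => List.ofFn fun i => (F i, t i)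
      have hxt : ∀ t, ∃ x, Qp L S m e (Unf L S V m) jj x ∧
          ¬ Mm S m e (Unf L S V m) V (pt t) x := by
        intro t
        have := hFW t
        push Not at this
        exact this
      choose xt hxt1 hxt2 using hxt
      obtain ⟨eT, heT⟩ := exists_injective_nat (Fin K → Bool)
      -- choice of the parent
      have hpar : ∀ χ : (Fin K → Bool) → c.ι × Option {i // i ∈ S}, ∃ t,
          (¬ Unf L S V m (χ t).1 ∨ (χ t).2 = none) ∨
          (Unf L S V m (χ t).1 ∧ ∃ t', t' ≠ t ∧ χ t' = χ t ∧ ∃ i, (χ t).2 = some i) := by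
        intro χ
        by_cases h : ∃ t, ¬ Unf L S V m (χ t).1 ∨ (χ t).2 = none
        · obtain ⟨t, ht⟩ := h
          exact ⟨t, Or.inl ht⟩
        · push Not at h
          have h' : ∀ t, ∃ i, (χ t).2 = some i := fun t => Option.ne_none_iff_exists'.1 (h t).2
          choose it hit using h'
          obtain ⟨t, t', hne, heq⟩ := Fintype.exists_ne_map_eq_of_card_lt
            (fun t : Fin K → Bool => ((χ t).1, it t)) (by simpa using hK)
          simp only [Prod.mk.injEq] at heq
          refine ⟨t, Or.inr ⟨(h t).1, t', hne.symm, ?_, it t, hit t⟩⟩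
          refine Prod.ext heq.1.symm ?_
          rw [hit, hit, heq.2]
      choose t0 ht0 using hpar
      let Q : (ℕ → Bool) → Prop := Qp L S m e (Unf L S V m) jj
      let d : Cond Γ A C :=
        { ι := (Fin K → Bool) → c.ι × Option {i // i ∈ S}
          fin := inferInstance
          P := {x | ∀ t, Q (col (eT t) x) ∧
            ¬ Mm S m e (Unf L S V m) V (pt t) (col (eT t) x)}
          hP := by
            have h1 : Γ.Sig (fun (_ : Unit) x => ∃ t, ¬ Q (col (eT t) x) ∨
                Mm S m e (Unf L S V m) V (pt t) (col (eT t) x)) := by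
              refine PC.Sig.exFin fun t => PC.Sig.or ?_ ?_
              · exact PC.Sig.col (f := fun _ : Unit => eT t) (sig_not_Qp hF hC m e _ jj)
                  (Primrec.const _)
              · refine PC.Sig.col (f := fun _ : Unit => eT t)
                  (R := fun _ x => Mm S m e (Unf L S V m) V (pt t) x) ?_ (Primrec.const _)
                exact PC.Sig.comp (f := fun _ : Unit => pt t) (sig_Mm m e _ hV)
                  (Primrec.const _)
            refine PC.Sig.of_eq h1 fun _ x => ?_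
            simp only [Set.mem_ofPred_eq]
            push Not
            refine exists_congr fun t => ?_
            tauto
          ne := by
            obtain ⟨x, hx⟩ := exists_join heT xt
            refine ⟨x, fun t => ?_⟩
            rw [hx]; exact ⟨hxt1 t, hxt2 t⟩
          R := fun χ x => {n | ∀ t, n ∈ c.R (χ t).1 (col (e none) (col (eT t) x)) ∧
            n ∈ Zn e (χ t) (col (eT t) x)}
          hR := by
            intro χ
            refine PC.Sig.allFin fun t => ?_
            refine PC.Sig.col (R := fun (n : ℕ) y => n ∈ c.R (χ t).1 (col (e none) y) ∧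
              n ∈ Zn e (χ t) y) (f := fun _ => eT t) ?_ (Primrec.const _)
            refine PC.Sig.and ?_ (sig_Zn e (χ t) Primrec.id true)
            exact PC.Sig.col (f := fun _ => e none) (c.hR _) (Primrec.const _)
          hR' := by
            intro χ
            have h1 : Γ.Sig (fun (n : ℕ) x => ∃ t,
                n ∉ c.R (χ t).1 (col (e none) (col (eT t) x)) ∨
                col (e (some (χ t))) (col (eT t) x) n = false) := by
              refine PC.Sig.exFin fun t => ?_
              refine PC.Sig.col (R := fun (n : ℕ) y => n ∉ c.R (χ t).1 (col (e none) y) ∨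
                col (e (some (χ t))) y n = false) (f := fun _ => eT t) ?_ (Primrec.const _)
              refine PC.Sig.or ?_ (sig_Zn e (χ t) Primrec.id false)
              exact PC.Sig.col (f := fun _ => e none) (c.hR' _) (Primrec.const _)
            refine PC.Sig.of_eq h1 fun n x => ?_
            simp only [Set.mem_ofPred_eq, not_forall, not_and_or, Zn, Bool.not_eq_true]
          cov := by
            intro x hx n hn
            have h1 : ∀ t, ∃ k : c.ι × Option {i // i ∈ S},
                n ∈ c.R k.1 (col (e none) (col (eT t) x)) ∧ n ∈ Zn e k (col (eT t) x) := by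
              intro t
              obtain ⟨ν, hν⟩ := c.cov _ (m.sub (hx t).1.1) n hn
              obtain ⟨o, ho⟩ := (hx t).1.2.1 ν n hn hν
              exact ⟨(ν, o), hν, ho⟩
            choose χ hχ using h1
            exact ⟨χ, hχ⟩
          σ := fun χ i => m.σ (χ (t0 χ)).1 i
          hσ := fun χ i => m.hσ _ i }
      have hle : LeVia d m.cond (fun χ => (χ (t0 χ)).1) := by
        intro χ x hx
        exact ⟨col (e none) (col (eT (t0 χ)) x), (hx (t0 χ)).1.1, fun n hn => (hn (t0 χ)).1,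
          fun i => Ext.refl _ _⟩
      refine ⟨d, _, hle.trans m.le, fun χ hacc => ?_⟩
      rcases ht0 χ with (h | h) | ⟨hUn, t', hne, heq, i, hi⟩
      · -- inherited
        obtain ⟨X, hX, hXL⟩ := Acc.mono hle hacc
        have hnd : ¬ Dead L c S (χ (t0 χ)).1 := fun hd => hd X (m.sub hX) hXL
        have : ∃ i ∈ S, Forced (V i) m.cond (χ (t0 χ)).1 i := by
          by_contra hc
          exact h ⟨hnd, hc⟩
        obtain ⟨i, hi, hf⟩ := this
        exact ⟨i, hi, Forced.mono hle hf⟩
      · -- small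
        by_cases hUn : Unf L S V m (χ (t0 χ)).1
        · exfalso
          obtain ⟨i, hi⟩ := hSne
          obtain ⟨x, hx, hxL⟩ := hacc
          obtain ⟨l, hl1, hl2⟩ := hxL i hi (jj (χ (t0 χ)).1)
          refine (hx (t0 χ)).1.2.2 _ hUn ⟨l, hl1, fun n hn => ?_⟩
          have := ((hl2 n hn).1 (t0 χ)).2
          have heq : χ (t0 χ) = ((χ (t0 χ)).1, none) := Prod.ext rfl h
          rw [heq] at this
          exact this
        · obtain ⟨X, hX, hXL⟩ := Acc.mono hle hacc
          have hnd : ¬ Dead L c S (χ (t0 χ)).1 := fun hd => hd X (m.sub hX) hXL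
          have : ∃ i ∈ S, Forced (V i) m.cond (χ (t0 χ)).1 i := by
            by_contra hc
            exact hUn ⟨hnd, hc⟩
          obtain ⟨i, hi, hf⟩ := this
          exact ⟨i, hi, Forced.mono hle hf⟩
      · -- pigeonhole
        refine ⟨i.1, i.2, Or.inr ?_⟩
        obtain ⟨k, hk⟩ : ∃ k, t' k ≠ (t0 χ) k := by
          by_contra hc
          push Not at hc
          exact hne (funext hc)
        have heq1 : χ (t0 χ) = ((χ (t0 χ)).1, some i) := Prod.ext rfl hi
        have heq2 : χ t' = ((χ (t0 χ)).1, some i) := heq.trans heq1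
        refine ⟨F k, fun x hx τ hτ b τ' hτ' hVb => ?_⟩
        have key : ∀ t, χ t = ((χ (t0 χ)).1, some i) → b = !t k → False := by
          intro t ht hb
          refine (hx t).2 ⟨(χ (t0 χ)).1, hUn, i, τ, ?_, (F k, t k), ?_, τ', hτ', ?_⟩
          · refine hτ.mono fun n hn => ?_
            have := (hn t).2
            rw [ht] at this
            exact this
          · exact List.mem_ofFn.2 ⟨k, rfl⟩
          · simpa [← hb] using hVb
        by_cases hb : b = !(t0 χ) k
        · exact key _ heq1 hb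
        · refine key t' heq2 ?_
          revert hb hk
          cases b <;> cases t' k <;> cases (t0 χ) k <;> simp

end strong

end Pool.Agent.Helper70
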