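import Pool.Agent.Helper70.Strong2

/-! The strong avoidance theorem. -/

namespace Pool.Agent.Helper70

open Encodable Filter

/-- Koenig's lemma in the form needed here. -/
theorem koenig {α : ℕ → Type} [∀ n, Finite (α n)] (π : ∀ n, α (n + 1) → α n)
    (Q : ∀ n, α n → Prop) (hQ : ∀ n a, Q (n + 1) a → Q n (π n a)) (hne : ∀ n, ∃ a, Q n a) :
    ∃ ν : ∀ n, α n, (∀ n, π n (ν (n + 1)) = ν n) ∧ ∀ n, Q n (ν n) := by
  classical
  have h1 : ∀ l, ∀ b : α l, Q l b → ∃ a : ∀ n, α n, a l = b ∧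
      (∀ n < l, π n (a (n + 1)) = a n) ∧ ∀ n ≤ l, Q n (a n) := by
    intro l
    induction l with
    | zero =>
      intro b hb
      have : ∀ n, Nonempty (α n) := fun n => ⟨(hne n).choose⟩
      refine ⟨Function.update (fun n => (hne n).choose) 0 b, by simp, by simp, ?_⟩
      intro n hn
      obtain rfl : n = 0 := Nat.le_zero.1 hn
      simpa using hb
    | succ l ih =>
      intro b hb
      obtain ⟨a, ha1, ha2, ha3⟩ := ih (π l b) (hQ l b hb)
      refine ⟨Function.update a (l + 1) b, by simp, fun n hn => ?_, fun n hn => ?_⟩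
      · rcases Nat.lt_succ_iff_lt_or_eq.1 hn with h | rfl
        · rw [Function.update_of_ne (by omega), Function.update_of_ne (by omega)]
          exact ha2 n h
        · rw [Function.update_self, Function.update_of_ne (by omega), ha1]
      · rcases Nat.le_succ_iff.1 hn with h | rfl
        · rw [Function.update_of_ne (by omega)]
          exact ha3 n h
        · rw [Function.update_self]; exact hb
  choose b hb using hne
  choose a ha1 ha2 ha3 using fun l => h1 l (b l) (hb l)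
  -- ultralimit
  have h2 : ∀ n, ∃ ν : α n, ∀ᶠ l in ((hyperfilter ℕ : Ultrafilter ℕ) : Filter ℕ), a l n = ν := by
    intro n
    rw [← Ultrafilter.eventually_exists_iff]
    exact Eventually.of_forall fun l => ⟨_, rfl⟩
  choose ν hν using h2
  have hbig : ∀ n, ∀ᶠ l in ((hyperfilter ℕ : Ultrafilter ℕ) : Filter ℕ), n < l := fun n =>
    Nat.hyperfilter_le_atTop (eventually_gt_atTop n)
  refine ⟨ν, fun n => ?_, fun n => ?_⟩
  · obtain ⟨l, h3, h4, h5⟩ := ((hν (n + 1)).and ((hν n).and (hbig n))).exists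
    rw [← h3, ← h4]
    exact ha2 l n h5
  · obtain ⟨l, h4, h5⟩ := ((hν n).and (hbig n)).exists
    rw [← h4]
    exact ha3 l n h5.le

section strong

variable {Γ : PC} {I : Type} {A : I → Set ℕ} {C : Set ℕ}

theorem exists_acc [Fintype I] {L : LF} (hCA : ∀ n ∈ C, ∃ i, n ∈ A i) (hCL : L.Large C)
    (c : Cond Γ A C) : ∃ ν, ∃ i : I, Acc L c {i} ν := by
  have hfin := c.fin
  obtain ⟨X, hX⟩ := c.ne
  obtain ⟨⟨ν, i⟩, h⟩ := hCL.finite_union (Y := fun p : c.ι × I => c.R p.1 X ∩ A p.2) (by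
    intro n hn
    obtain ⟨ν, hν⟩ := c.cov X hX n hn
    obtain ⟨i, hi⟩ := hCA n hn
    exact ⟨(ν, i), hν, hi⟩)
  exact ⟨ν, i, X, hX, by simpa using h⟩

/-- Strong avoidance for large sets. -/
theorem strong_avoid [Fintype I] [DecidableEq I] (hΓ : Good Γ) {L : LF}
    (hF : ∀ j, Γ.S (L.F j)) (hC : Γ.S (fun n => n ∈ C))
    (hCA : ∀ n ∈ C, ∃ i, n ∈ A i) (hCL : L.Large C) :
    ∃ i, ∃ G : ℕ → Bool, L.Large {n | G n = true} ∧ (∀ n, G n = true → n ∈ A i) ∧
      Good (Γ.adj G) := by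
  classical
  let c00 : Cond Γ A C :=
    { ι := Unit
      fin := inferInstance
      P := Set.univ
      hP := PC.Sig.of_eq (PC.Sig.const Γ False) (by simp)
      ne := ⟨fun _ => false, trivial⟩
      R := fun _ _ => Set.univ
      hR := fun _ => PC.Sig.of_eq (PC.Sig.const Γ True) (by simp)
      hR' := fun _ => PC.Sig.of_eq (PC.Sig.const Γ False) (by simp)
      cov := fun _ _ _ _ => ⟨(), trivial⟩
      σ := fun _ _ => []
      hσ := fun _ _ n h => by simp at h }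
  have : Nonempty (Cond Γ A C) := ⟨c00⟩
  let SS : Cond Γ A C → Set (Finset I) := fun c => {S | ∃ ν, Acc L c S ν}
  obtain ⟨c0, hc0⟩ : ∃ c0, ∀ d, (SS c0).ncard ≤ (SS d).ncard :=
    ⟨Function.argmin (fun c => (SS c).ncard), fun d =>
      Function.argmin_le (f := fun c => (SS c).ncard) d⟩
  have hSSne : ∀ c, ∃ i : I, {i} ∈ SS c := fun c => by
    obtain ⟨ν, i, h⟩ := exists_acc hCA hCL c
    exact ⟨i, ν, h⟩
  obtain ⟨i0, hi0⟩ := hSSne c0
  obtain ⟨S, hS, hSmax⟩ := Set.exists_max_image (SS c0) Finset.card (Set.toFinite _) ⟨_, hi0⟩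
  have hSne : S.Nonempty := by
    have := hSmax _ hi0
    rw [Finset.card_singleton] at this
    exact Finset.card_pos.1 (by omega)
  let below : Cond Γ A C → Prop := fun c => ∃ π, LeVia c c0 π
  have hSS : ∀ c, below c → SS c = SS c0 := by
    rintro c ⟨π, hπ⟩
    refine Set.eq_of_subset_of_ncard_le ?_ (hc0 c) (Set.toFinite _)
    rintro S ⟨ν, hν⟩
    exact ⟨_, hν.mono hπ⟩
  have hmax : ∀ c, below c → ∀ S', S ⊂ S' → ∀ ν, ¬ Acc L c S' ν := by
    intro c hc S' hS' ν hν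
    have : S' ∈ SS c0 := by rw [← hSS c hc]; exact ⟨ν, hν⟩
    exact absurd (hSmax _ this) (not_le.2 (Finset.card_lt_card hS'))
  have hacc : ∀ c, below c → ∃ ν, Acc L c S ν := by
    intro c hc
    have : S ∈ SS c := by rw [hSS c hc]; exact hS
    exact this
  -- tasks
  let VV := {V : (ℕ × Bool) × List Bool → Prop // Γ.S V}
  have : Countable VV := (Γ.ctbl ((ℕ × Bool) × List Bool)).to_subtype
  let T := (I → VV) ⊕ ({i // i ∈ S} × ℕ)
  let D : T → Cond Γ A C → Prop := fun t c => match t with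
    | Sum.inl V => ∀ μ, Acc L c S μ → ∃ i ∈ S, Forced (V i).1 c μ i
    | Sum.inr (i, j) => ∀ ν, Acc L c S ν → (∃ l, L.F j l ∧ ∀ n ∈ l, (c.σ ν i.1)[n]? = some true) ∧
      j ≤ (c.σ ν i.1).length
  obtain ⟨c, hcz, hcs, hcb, hct⟩ := generic (C := Cond Γ A C) (T := T)
    (fun d c => ∃ π, LeVia d c π) (fun c => ⟨id, LeVia.refl c⟩) D below
    (by rintro c d ⟨π, h⟩ ⟨π', h'⟩; exact ⟨_, h.trans h'⟩)
    (by
      rintro (V | ⟨⟨i, hi⟩, j⟩) c hc
      · obtain ⟨m, hm⟩ := uni_all (L := L) hCA (hmax c hc)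
        obtain ⟨d, π, h1, h2⟩ := force_req hΓ hF hC m.cond hSne hm (V := fun i => (V i).1)
          (fun i => (V i).2) _ (Mod.triv m.cond) le_rfl
        exact ⟨d, ⟨_, h1.trans m.le⟩, h2⟩
      · obtain ⟨m, hm⟩ := add_piece (L := L) c hi j
        exact ⟨m.cond, ⟨id, m.le⟩, hm⟩)
    c0 ⟨id, LeVia.refl c0⟩
  choose π hπ using hcs
  have hfin : ∀ n, Finite (c n).ι := fun n => (c n).fin
  obtain ⟨ν, hν1, hν2⟩ := koenig (α := fun n => (c n).ι) π (fun n a => Acc L (c n) S a)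
    (fun n a ha => ha.mono (hπ n)) (fun n => hacc _ (hcb n))
  have hchain : ∀ i n, (c n).σ (ν n) i <+: (c (n + 1)).σ (ν (n + 1)) i := by
    intro i n
    have := (hπ n).pre_le (ν (n + 1)) i
    rw [hν1] at this
    exact this
  choose G hG using fun i => exists_limit (fun n => (c n).σ (ν n) i) (hchain i)
  have hle : ∀ n k, ∃ ρ : (c (n + k)).ι → (c n).ι, LeVia (c (n + k)) (c n) ρ ∧
      ρ (ν (n + k)) = ν n := by
    intro n k
    induction k with
    | zero => exact ⟨id, LeVia.refl _, rfl⟩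
    | succ k ih =>
      obtain ⟨ρ, h1, h2⟩ := ih
      refine ⟨ρ ∘ π (n + k), (hπ (n + k)).trans h1, ?_⟩
      show ρ (π (n + k) (ν (n + k + 1))) = ν n
      rw [hν1, h2]
  have hle' : ∀ n m, n ≤ m → ∃ ρ : (c m).ι → (c n).ι, LeVia (c m) (c n) ρ ∧
      ρ (ν m) = ν n := by
    intro n m hnm
    obtain ⟨k, rfl⟩ := Nat.exists_eq_add_of_le hnm
    exact hle n k
  have hres : ∀ i ∈ S, ∀ n τ, Pre τ (G i) → ∃ X ∈ (c n).P, ∃ ρ,
      Ext ((c n).σ (ν n) i) ρ ((c n).R (ν n) X) ∧ τ <+: ρ := by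
    intro i hi n τ hτ
    obtain ⟨m, hm⟩ := hct (Sum.inr (⟨i, hi⟩, τ.length))
    have hm' := (hm (ν m) (hν2 m)).2
    obtain ⟨ρ, h1, h2⟩ := hle' n (max n m) (le_max_left _ _)
    obtain ⟨ρ', h1', h2'⟩ := hle' m (max n m) (le_max_right _ _)
    obtain ⟨Y, hY⟩ := (c (max n m)).ne
    obtain ⟨X, hX, _, h3⟩ := h1 (ν (max n m)) Y hY
    rw [h2] at h3
    have h4 := h1'.pre_le (ν (max n m)) i
    rw [h2'] at h4
    refine ⟨X, hX, _, h3 i, hτ.comparable (hG i _) (hm'.trans h4.length_le)⟩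
  -- the good side
  by_contra hcon
  push Not at hcon
  have hlarge : ∀ i ∈ S, L.Large {n | G i n = true} := by
    intro i hi j
    obtain ⟨m, hm⟩ := hct (Sum.inr (⟨i, hi⟩, j))
    obtain ⟨⟨l, h1, h2⟩, _⟩ := hm (ν m) (hν2 m)
    exact ⟨l, h1, fun n hn => hG i m n _ (h2 n hn)⟩
  have hsub : ∀ i ∈ S, ∀ n, G i n = true → n ∈ A i := by
    intro i hi n hn
    obtain ⟨m, hm⟩ := hct (Sum.inr (⟨i, hi⟩, n + 1))
    have hm' : n + 1 ≤ ((c m).σ (ν m) i).length := (hm (ν m) (hν2 m)).2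
    have : ((c m).σ (ν m) i)[n]? = some true := by
      have h1 := (hG i m).eq_res
      rw [h1, getElem?_res, if_pos (by omega), hn]
    exact (c m).hσ _ _ _ this
  have hbad : ∀ i ∈ S, ¬ Good (Γ.adj (G i)) := fun i hi =>
    hcon i (G i) (hlarge i hi) (hsub i hi)
  have hV : ∀ i, ∃ V : VV, i ∈ S → ¬ ((∃ n b, J n b ∧ ∃ τ, Pre τ (G i) ∧ V.1 ((n, !b), τ)) ∨
      (∃ n, ∀ b τ, Pre τ (G i) → ¬ V.1 ((n, b), τ))) := by
    intro i
    by_cases hi : i ∈ S
    · by_contra hc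
      push Not at hc
      refine hbad i hi (good_of_forced fun V hV => ?_)
      have := (hc ⟨V, hV⟩).2
      by_contra h'
      exact h' (by
        rcases this with h | h
        · exact Or.inl h
        · exact Or.inr h)
    · exact ⟨⟨fun _ => True, PC.const Γ True⟩, fun h => absurd h hi⟩
  choose V hV using hV
  obtain ⟨m, hm⟩ := hct (Sum.inl V)
  obtain ⟨i, hi, hf⟩ := hm (ν m) (hν2 m)
  refine hV i hi ?_
  rcases hf with ⟨n, b, hb, τ, h1, h2⟩ | ⟨n, hn⟩
  · exact Or.inl ⟨n, b, hb, τ, (hG i m).mono h1, h2⟩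
  · refine Or.inr ⟨n, fun b τ hτ => ?_⟩
    obtain ⟨X, hX, ρ, h1, h2⟩ := hres i hi m τ hτ
    exact hn X hX ρ h1 b τ h2

end strong

end Pool.Agent.Helper70
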